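import Pool.Agent.Lib.MP_1be8fd_lc.CtxDefs

set_option autoImplicit false

namespace Pool.Agent.Lib.MP_1be8fd_lc

variable {N : Type} {F : Set (Relabelling N)}

/-! ### Images under frames -/

section fimg

variable {S T : Type} {fr : Frame N F S} {α β β' : IAct N}

lemma fImg_fun (h : fr.Img α β) (h' : fr.Img α β') : β = β' := by
  cases fr with
  | fpar sd r => exact Eq.trans h (Eq.symm h')
  | fres L => exact Eq.trans h.1 (Eq.symm h'.1)
  | frel f => exact Eq.trans h (Eq.symm h')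

lemma fImg_th {θ : Th N} : fr.Img (.th θ) β ↔ β = .th θ := by
  cases fr with
  | fpar sd r => exact Iff.rfl
  | fres L => exact ⟨fun h => h.1, fun h => ⟨h, trivial⟩⟩
  | frel f => exact Iff.rfl

lemma fImg_tau : fr.Img .tau β ↔ β = .tau := by
  cases fr with
  | fpar sd r => exact Iff.rfl
  | fres L => exact ⟨fun h => h.1, fun h => ⟨h, trivial⟩⟩
  | frel f => simp [Frame.Img, IAct.map, f.1.map_tau]

lemma fImg_compl (h : fr.Img α β) : fr.Img α.compl β.compl := by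
  cases fr with
  | fpar sd r =>
    obtain rfl : β = α := h
    exact rfl
  | fres L =>
    obtain ⟨rfl, h2⟩ := h
    refine ⟨rfl, ?_⟩
    cases β with
    | act μ =>
      cases μ with
      | vis a co => exact h2
      | tau => exact trivial
    | th θ => exact trivial
  | frel f =>
    obtain rfl : β = α.map f.1 := h
    cases α with
    | act μ => simp [Frame.Img, IAct.map, IAct.compl, f.1.map_compl]
    | th θ => rfl

lemma fImg_act {μ : Action N} (h : fr.Img (.act μ) β) : ∃ μ', β = .act μ' := by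
  cases fr with
  | fpar sd r => exact ⟨μ, h⟩
  | fres L => exact ⟨μ, h.1⟩
  | frel f => exact ⟨_, h⟩

lemma fImg_vis {b : N} {s : Bool} (h : fr.Img α (.vis b s)) : ∃ b' s', α = .vis b' s' := by
  cases α with
  | act μ =>
    cases μ with
    | vis a co => exact ⟨a, co, rfl⟩
    | tau =>
      have := fImg_tau.1 h
      simp at this
  | th θ =>
    have := fImg_th.1 h
    simp at this

lemma fImg_map (g : S → T) : (fr.map g).Img α β ↔ fr.Img α β := by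
  cases fr <;> exact Iff.rfl

end fimg

lemma FRel_Img {R : ITerm N F → ITerm N F → Prop} {fr fr' : Frame N F (ITerm N F)}
    (h : FRel R fr fr') {α β : IAct N} : fr.Img α β ↔ fr'.Img α β := by
  cases h <;> exact Iff.rfl

lemma step_app {fr : Frame N F (ITerm N F)} {p p' : ITerm N F} {γ β : IAct N}
    (hs : IStep p γ p') (hi : fr.Img γ β) : IStep (fr.app p) β (fr.app p') := by
  cases fr with
  | fpar sd r =>
    obtain rfl : β = γ := hi
    cases sd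
    · exact .parL _ hs
    · exact .parR _ hs
  | fres L =>
    obtain ⟨rfl, h2⟩ := hi
    exact .res L hs h2
  | frel f =>
    obtain rfl : β = γ.map f.1 := hi
    exact .rel f hs

lemma app_inv {fr : Frame N F (ITerm N F)} {p q : ITerm N F} {β : IAct N}
    (hs : IStep (fr.app p) β q) :
    (∃ γ p', IStep p γ p' ∧ fr.Img γ β ∧ q = fr.app p') ∨
    (∃ sd r r', fr = .fpar sd r ∧ IStep r β r' ∧ q = (Frame.fpar sd r').app p) ∨
    (β = .tau ∧ ∃ sd r r' p' b s, fr = .fpar sd r ∧ IStep p (.vis b s) p' ∧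
      IStep r (.vis b (!s)) r' ∧ q = (Frame.fpar sd r').app p') := by
  cases fr with
  | fpar sd r =>
    cases sd
    · rcases step_par.1 hs with ⟨p', h, rfl⟩ | ⟨r', h, rfl⟩ | ⟨rfl, b, s, p', r', h1, h2, rfl⟩
      · exact Or.inl ⟨_, p', h, rfl, rfl⟩
      · exact Or.inr (Or.inl ⟨false, r, r', rfl, h, rfl⟩)
      · exact Or.inr (Or.inr ⟨rfl, false, r, r', p', b, s, rfl, h1, h2, rfl⟩)
    · rcases step_par.1 hs with ⟨r', h, rfl⟩ | ⟨p', h, rfl⟩ | ⟨rfl, b, s, r', p', h1, h2, rfl⟩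
      · exact Or.inr (Or.inl ⟨true, r, r', rfl, h, rfl⟩)
      · exact Or.inl ⟨_, p', h, rfl, rfl⟩
      · exact Or.inr (Or.inr ⟨rfl, true, r, r', p', b, !s, rfl, h2,
          by simpa using h1, rfl⟩)
  | fres L =>
    obtain ⟨p', h, h2, rfl⟩ := step_res.1 hs
    exact Or.inl ⟨_, p', h, ⟨rfl, h2⟩, rfl⟩
  | frel f =>
    obtain ⟨γ, p', h, rfl, rfl⟩ := step_rel.1 hs
    exact Or.inl ⟨γ, p', h, rfl, rfl⟩

lemma CStep_cons {fr : Frame N F (ITerm N F)} {Γ Θ : Ctx N F} {β : IAct N} :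
    CStep (fr :: Γ) β Θ ↔
    (∃ sd r r', fr = .fpar sd r ∧ IStep r β r' ∧ Θ = .fpar sd r' :: Γ) ∨
    (∃ α Γ', CStep Γ α Γ' ∧ fr.Img α β ∧ Θ = fr :: Γ') := by
  constructor
  · intro h
    cases h with
    | here h => exact Or.inl ⟨_, _, _, rfl, h, rfl⟩
    | there h hi => exact Or.inr ⟨_, _, h, hi, rfl⟩
  · rintro (⟨sd, r, r', rfl, h, rfl⟩ | ⟨α, Γ', h, hi, rfl⟩)
    · exact .here h
    · exact .there h hi

lemma MStep_cons {fr : Frame N F (ITerm N F)} {Γ Θ : Ctx N F} {α : IAct N} :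
    MStep (fr :: Γ) α Θ ↔
    (∃ sd r r' b s, fr = .fpar sd r ∧ Img Γ α (.vis b s) ∧ IStep r (.vis b (!s)) r' ∧
      Θ = .fpar sd r' :: Γ) ∨
    (∃ Γ', MStep Γ α Γ' ∧ Θ = fr :: Γ') := by
  constructor
  · intro h
    cases h with
    | here h h' => exact Or.inl ⟨_, _, _, _, _, rfl, h, h', rfl⟩
    | there h => exact Or.inr ⟨_, h, rfl⟩
  · rintro (⟨sd, r, r', b, s, rfl, h, h', rfl⟩ | ⟨Γ', h, rfl⟩)
    · exact .here h h'
    · exact .there h

/-! ### Images -/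

section img

variable {S T : Type}

lemma Img_append {Γ Δ : List (Frame N F S)} {α β : IAct N} :
    Img (Γ ++ Δ) α β ↔ ∃ γ, Img Δ α γ ∧ Img Γ γ β := by
  induction Γ generalizing β with
  | nil =>
    constructor
    · intro h; exact ⟨β, h, rfl⟩
    · rintro ⟨γ, h, rfl⟩; exact h
  | cons fr Γ ih =>
    constructor
    · rintro ⟨γ, h, hf⟩
      obtain ⟨δ, h1, h2⟩ := ih.1 h
      exact ⟨δ, h1, γ, h2, hf⟩
    · rintro ⟨δ, h1, γ, h2, hf⟩
      exact ⟨γ, ih.2 ⟨δ, h1, h2⟩, hf⟩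

lemma Img_fun {Γ : List (Frame N F S)} {α β β' : IAct N}
    (h : Img Γ α β) (h' : Img Γ α β') : β = β' := by
  induction Γ generalizing β β' with
  | nil => exact h.trans h'.symm
  | cons fr Γ ih =>
    obtain ⟨γ, h1, h2⟩ := h
    obtain ⟨γ', h1', h2'⟩ := h'
    obtain rfl := ih h1 h1'
    exact fImg_fun h2 h2'

lemma Img_th {Γ : List (Frame N F S)} {θ : Th N} {β : IAct N} :
    Img Γ (.th θ) β ↔ β = .th θ := by
  induction Γ generalizing β with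
  | nil => exact Iff.rfl
  | cons fr Γ ih =>
    constructor
    · rintro ⟨γ, h1, h2⟩
      rw [ih] at h1
      subst h1
      exact fImg_th.1 h2
    · rintro rfl
      exact ⟨_, ih.2 rfl, fImg_th.2 rfl⟩

lemma Img_tau {Γ : List (Frame N F S)} {β : IAct N} :
    Img Γ .tau β ↔ β = .tau := by
  induction Γ generalizing β with
  | nil => exact Iff.rfl
  | cons fr Γ ih =>
    constructor
    · rintro ⟨γ, h1, h2⟩
      rw [ih] at h1
      subst h1
      exact fImg_tau.1 h2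
    · rintro rfl
      exact ⟨_, ih.2 rfl, fImg_tau.2 rfl⟩

lemma Img_compl {Γ : List (Frame N F S)} {α β : IAct N} (h : Img Γ α β) :
    Img Γ α.compl β.compl := by
  induction Γ generalizing β with
  | nil =>
    obtain rfl : β = α := h
    exact rfl
  | cons fr Γ ih =>
    obtain ⟨γ, h1, h2⟩ := h
    exact ⟨_, ih h1, fImg_compl h2⟩

/-- the image of an ordinary action is an ordinary action -/
lemma Img_act {Γ : List (Frame N F S)} {μ : Action N} {β : IAct N} (h : Img Γ (.act μ) β) :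
    ∃ μ', β = .act μ' := by
  induction Γ generalizing β with
  | nil => exact ⟨μ, h⟩
  | cons fr Γ ih =>
    obtain ⟨γ, h1, h2⟩ := h
    obtain ⟨μ', rfl⟩ := ih h1
    exact fImg_act h2

/-- if the image is a visible label then so is the action -/
lemma Img_vis {Γ : List (Frame N F S)} {α : IAct N} {b : N} {s : Bool}
    (h : Img Γ α (.vis b s)) : ∃ b' s', α = .vis b' s' := by
  cases α with
  | act μ =>
    cases μ with
    | vis a co => exact ⟨a, co, rfl⟩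
    | tau =>
      have := Img_tau.1 h
      simp at this
  | th θ =>
    have := Img_th.1 h
    simp at this

lemma Img_map {Γ : List (Frame N F S)} (g : S → T) {α β : IAct N} :
    Img (Γ.map (Frame.map g)) α β ↔ Img Γ α β := by
  induction Γ generalizing β with
  | nil => exact Iff.rfl
  | cons fr Γ ih =>
    constructor
    · rintro ⟨γ, h1, h2⟩
      exact ⟨γ, ih.1 h1, (fImg_map g).1 h2⟩
    · rintro ⟨γ, h1, h2⟩
      exact ⟨γ, ih.2 h1, (fImg_map g).2 h2⟩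

lemma Img_eq_th {Γ : List (Frame N F S)} {α : IAct N} {θ : Th N} (h : Img Γ α (.th θ)) :
    α = .th θ := by
  cases α with
  | act μ =>
    obtain ⟨μ', e⟩ := Img_act h
    simp at e
  | th θ' => exact (Img_th.1 h).symm

lemma Img_eq_act {Γ : List (Frame N F S)} {α : IAct N} {μ : Action N}
    (h : Img Γ α (.act μ)) : ∃ ν, α = .act ν := by
  cases α with
  | act ν => exact ⟨ν, rfl⟩
  | th θ' =>
    have := Img_th.1 h
    simp at this

end img

/-! ### Plugging -/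

lemma plug_append (Γ Δ : Ctx N F) (h : ITerm N F) : plug (Γ ++ Δ) h = plug Γ (plug Δ h) := by
  induction Γ with
  | nil => rfl
  | cons fr Γ ih =>
    change fr.app (plug (Γ ++ Δ) h) = fr.app (plug Γ (plug Δ h))
    rw [ih]

lemma plug_inj {Γ : Ctx N F} {h h' : ITerm N F} (e : plug Γ h = plug Γ h') : h = h' := by
  induction Γ with
  | nil => exact e
  | cons fr Γ ih =>
    apply ih
    change fr.app (plug Γ h) = fr.app (plug Γ h') at e
    cases fr with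
    | fpar sd r =>
      cases sd
      · simp only [Frame.app, ITerm.par.injEq] at e
        exact e.1
      · simp only [Frame.app, ITerm.par.injEq] at e
        exact e.2
    | fres L =>
      simp only [Frame.app, ITerm.res.injEq] at e
      exact e.2
    | frel f =>
      simp only [Frame.app, ITerm.rel.injEq] at e
      exact e.2

lemma app_flip (sd : Bool) (p q : ITerm N F) :
    (Frame.fpar sd p).app q = (Frame.fpar (!sd) q).app p := by
  cases sd <;> rfl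

lemma step_plug {Γ : Ctx N F} {α β : IAct N} {h h' : ITerm N F}
    (hs : IStep h α h') (hi : Img Γ α β) : IStep (plug Γ h) β (plug Γ h') := by
  induction Γ generalizing β with
  | nil =>
    obtain rfl : β = α := hi
    exact hs
  | cons fr Γ ih =>
    obtain ⟨γ, h1, h2⟩ := hi
    exact step_app (ih h1) h2

lemma step_plugC {Γ Γ' : Ctx N F} {β : IAct N} (h : ITerm N F) (hc : CStep Γ β Γ') :
    IStep (plug Γ h) β (plug Γ' h) := by
  induction hc with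
  | @here sd r r' α Γ hs =>
    cases sd
    · exact .parR _ hs
    · exact .parL _ hs
  | there _ hi ih => exact step_app ih hi

lemma step_plugM' {Γ Γ' : Ctx N F} {α : IAct N} {h h' : ITerm N F}
    (hs : IStep h α h') (hm : MStep Γ α Γ') :
    IStep (plug Γ h) .tau (plug Γ' h') := by
  induction hm with
  | @here sd r r' α Γ b s hi hr =>
    cases sd
    · exact .parC (step_plug hs hi) hr
    · refine IStep.parC (s := !s) hr ?_
      rw [Bool.not_not]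
      exact step_plug hs hi
  | there _ ih => exact step_app (ih hs) (fImg_tau.2 rfl)

lemma step_plugS {Γ Γ' : Ctx N F} (h : ITerm N F) (hc : SStep Γ Γ') :
    IStep (plug Γ h) .tau (plug Γ' h) := by
  induction hc with
  | @here sd r r' Γ Γ' b s hc hr =>
    cases sd
    · exact .parC (step_plugC h hc) hr
    · refine IStep.parC (s := !s) hr ?_
      rw [Bool.not_not]
      exact step_plugC h hc
  | there _ ih => exact step_app ih (fImg_tau.2 rfl)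

lemma step_plugM {Γ Γ' : Ctx N F} {b : N} {s : Bool} {h h' : ITerm N F}
    (hs : IStep h (.vis b s) h') (hm : MStep Γ (.vis b s) Γ') :
    IStep (plug Γ h) .tau (plug Γ' h') := by
  exact step_plugM' hs hm

/-- Inversion. -/
lemma plug_inv {Γ : Ctx N F} {h q : ITerm N F} {β : IAct N} (hs : IStep (plug Γ h) β q) :
    (∃ α h', IStep h α h' ∧ Img Γ α β ∧ q = plug Γ h') ∨
    (∃ Γ', CStep Γ β Γ' ∧ q = plug Γ' h) ∨
    (β = .tau ∧ ∃ b s h' Γ', IStep h (.vis b s) h' ∧ MStep Γ (.vis b s) Γ' ∧ q = plug Γ' h') ∨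
    (β = .tau ∧ ∃ Γ', SStep Γ Γ' ∧ q = plug Γ' h) := by
  induction Γ generalizing β q with
  | nil => exact Or.inl ⟨β, q, hs, rfl, rfl⟩
  | cons fr Γ ih =>
    rcases app_inv hs with ⟨γ, x, h1, h2, rfl⟩ | ⟨sd, r, r', rfl, h1, rfl⟩ |
      ⟨rfl, sd, r, r', x, b, s, rfl, h1, h2, rfl⟩
    · rcases ih h1 with ⟨α, h', h3, h4, rfl⟩ | ⟨Γ', h3, rfl⟩ |
        ⟨rfl, b, s, h', Γ', h3, h4, rfl⟩ | ⟨rfl, Γ', h3, rfl⟩
      · exact Or.inl ⟨α, h', h3, ⟨γ, h4, h2⟩, rfl⟩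
      · exact Or.inr (Or.inl ⟨_, .there h3 h2, rfl⟩)
      · obtain rfl := fImg_tau.1 h2
        exact Or.inr (Or.inr (Or.inl ⟨rfl, b, s, h', _, h3, .there h4, rfl⟩))
      · obtain rfl := fImg_tau.1 h2
        exact Or.inr (Or.inr (Or.inr ⟨rfl, _, .there h3, rfl⟩))
    · exact Or.inr (Or.inl ⟨_, .here h1, rfl⟩)
    · rcases ih h1 with ⟨α, h', h3, h4, rfl⟩ | ⟨Γ', h3, rfl⟩ |
        ⟨e, _⟩ | ⟨e, _⟩
      · obtain ⟨b', s', rfl⟩ := Img_vis h4
        exact Or.inr (Or.inr (Or.inl ⟨rfl, b', s', h', _, h3, .here h4 h2, rfl⟩))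
      · exact Or.inr (Or.inr (Or.inr ⟨rfl, _, .here h3 h2, rfl⟩))
      · simp at e
      · simp at e

/-- Inversion, for actions other than `tau`. -/
lemma plug_inv_ne {Γ : Ctx N F} {h q : ITerm N F} {β : IAct N} (hs : IStep (plug Γ h) β q)
    (hβ : β ≠ .tau) :
    (∃ α h', IStep h α h' ∧ Img Γ α β ∧ q = plug Γ h') ∨
    (∃ Γ', CStep Γ β Γ' ∧ q = plug Γ' h) := by
  rcases plug_inv hs with h | h | ⟨h, _⟩ | ⟨h, _⟩
  · exact Or.inl h
  · exact Or.inr h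
  · exact absurd h hβ
  · exact absurd h hβ

/-! ### Moves of components -/

lemma CStep_append {Γ Δ Θ : Ctx N F} {β : IAct N} : CStep (Γ ++ Δ) β Θ ↔
    (∃ Γ', CStep Γ β Γ' ∧ Θ = Γ' ++ Δ) ∨ (∃ α Δ', CStep Δ α Δ' ∧ Img Γ α β ∧ Θ = Γ ++ Δ') := by
  induction Γ generalizing β Θ with
  | nil =>
    constructor
    · intro h
      exact Or.inr ⟨β, Θ, h, rfl, rfl⟩
    · rintro (⟨Γ', h, _⟩ | ⟨α, Δ', h, h2, rfl⟩)
      · cases h
      · obtain rfl : β = α := h2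
        exact h
  | cons fr Γ ih =>
    change CStep (fr :: (Γ ++ Δ)) β Θ ↔ _
    constructor
    · intro h
      rcases CStep_cons.1 h with ⟨sd, r, r', rfl, h1, rfl⟩ | ⟨α, Γ', h1, h2, rfl⟩
      · exact Or.inl ⟨_, .here h1, rfl⟩
      · rcases ih.1 h1 with ⟨Γ'', h3, rfl⟩ | ⟨γ, Δ', h3, h4, rfl⟩
        · exact Or.inl ⟨_, .there h3 h2, rfl⟩
        · exact Or.inr ⟨γ, Δ', h3, ⟨α, h4, h2⟩, rfl⟩
    · rintro (⟨Γ', h, rfl⟩ | ⟨α, Δ', h, ⟨γ, h2, h3⟩, rfl⟩)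
      · rcases CStep_cons.1 h with ⟨sd, r, r', rfl, h1, rfl⟩ | ⟨α, Γ'', h1, h2, rfl⟩
        · exact .here h1
        · exact .there (ih.2 (Or.inl ⟨_, h1, rfl⟩)) h2
      · exact .there (ih.2 (Or.inr ⟨α, Δ', h, h2, rfl⟩)) h3

lemma MStep_append {Γ Δ Θ : Ctx N F} {α : IAct N} : MStep (Γ ++ Δ) α Θ ↔
    (∃ γ Γ', Img Δ α γ ∧ MStep Γ γ Γ' ∧ Θ = Γ' ++ Δ) ∨ (∃ Δ', MStep Δ α Δ' ∧ Θ = Γ ++ Δ') := by
  induction Γ generalizing Θ with
  | nil =>
    constructor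
    · intro h
      exact Or.inr ⟨Θ, h, rfl⟩
    · rintro (⟨γ, Γ', _, h, _⟩ | ⟨Δ', h, rfl⟩)
      · cases h
      · exact h
  | cons fr Γ ih =>
    change MStep (fr :: (Γ ++ Δ)) α Θ ↔ _
    constructor
    · intro h
      rcases MStep_cons.1 h with ⟨sd, r, r', b, s, rfl, h1, h2, rfl⟩ | ⟨Γ', h1, rfl⟩
      · obtain ⟨γ, h3, h4⟩ := Img_append.1 h1
        exact Or.inl ⟨γ, _, h3, .here h4 h2, rfl⟩
      · rcases ih.1 h1 with ⟨γ, Γ'', h3, h4, rfl⟩ | ⟨Δ', h3, rfl⟩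
        · exact Or.inl ⟨γ, _, h3, .there h4, rfl⟩
        · exact Or.inr ⟨Δ', h3, rfl⟩
    · rintro (⟨γ, Γ', h0, h, rfl⟩ | ⟨Δ', h, rfl⟩)
      · rcases MStep_cons.1 h with ⟨sd, r, r', b, s, rfl, h1, h2, rfl⟩ | ⟨Γ'', h1, rfl⟩
        · exact .here (Img_append.2 ⟨γ, h0, h1⟩) h2
        · exact .there (ih.2 (Or.inl ⟨γ, _, h0, h1, rfl⟩))
      · exact .there (ih.2 (Or.inr ⟨Δ', h, rfl⟩))

lemma CStep_Img {Γ Γ' : Ctx N F} {β : IAct N} (h : CStep Γ β Γ') (α γ : IAct N) :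
    Img Γ' α γ ↔ Img Γ α γ := by
  induction h generalizing γ with
  | here _ => exact Iff.rfl
  | there _ _ ih =>
    constructor
    · rintro ⟨δ, h1, h2⟩; exact ⟨δ, (ih δ).1 h1, h2⟩
    · rintro ⟨δ, h1, h2⟩; exact ⟨δ, (ih δ).2 h1, h2⟩

lemma MStep_Img {Γ Γ' : Ctx N F} {β : IAct N} (h : MStep Γ β Γ') (α γ : IAct N) :
    Img Γ' α γ ↔ Img Γ α γ := by
  induction h generalizing γ with
  | here _ => exact Iff.rfl
  | there _ ih =>
    constructor
    · rintro ⟨δ, h1, h2⟩; exact ⟨δ, (ih δ).1 h1, h2⟩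
    · rintro ⟨δ, h1, h2⟩; exact ⟨δ, (ih δ).2 h1, h2⟩

lemma SStep_Img {Γ Γ' : Ctx N F} (h : SStep Γ Γ') (α γ : IAct N) :
    Img Γ' α γ ↔ Img Γ α γ := by
  induction h generalizing γ with
  | here hc _ =>
    constructor
    · rintro ⟨δ, h1, h2⟩; exact ⟨δ, (CStep_Img hc _ _).1 h1, h2⟩
    · rintro ⟨δ, h1, h2⟩; exact ⟨δ, (CStep_Img hc _ _).2 h1, h2⟩
  | there _ ih =>
    constructor
    · rintro ⟨δ, h1, h2⟩; exact ⟨δ, (ih δ).1 h1, h2⟩
    · rintro ⟨δ, h1, h2⟩; exact ⟨δ, (ih δ).2 h1, h2⟩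

lemma CStep_split {Γ Γ' : Ctx N F} {β : IAct N} (h : CStep Γ β Γ') :
    ∃ Γ₁ sd r r' Γ₂ α, Γ = Γ₁ ++ .fpar sd r :: Γ₂ ∧ Γ' = Γ₁ ++ .fpar sd r' :: Γ₂ ∧
      IStep r α r' ∧ Img Γ₁ α β := by
  induction h with
  | @here sd r r' α Γ hs => exact ⟨[], sd, r, r', Γ, α, rfl, rfl, hs, rfl⟩
  | @there fr Γ Γ' α β _ hi ih =>
    obtain ⟨Γ₁, sd, r, r', Γ₂, γ, h1, h2, h3, h4⟩ := ih
    subst h1 h2
    exact ⟨fr :: Γ₁, sd, r, r', Γ₂, γ, rfl, rfl, h3, α, h4, hi⟩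

lemma MStep_split {Γ Γ' : Ctx N F} {β : IAct N} (h : MStep Γ β Γ') :
    ∃ Γ₁ sd r r' Γ₂ b s, Γ = Γ₁ ++ .fpar sd r :: Γ₂ ∧ Γ' = Γ₁ ++ .fpar sd r' :: Γ₂ ∧
      IStep r (.vis b (!s)) r' ∧ Img Γ₂ β (.vis b s) := by
  induction h with
  | @here sd r r' α Γ b s hi hs => exact ⟨[], sd, r, r', Γ, b, s, rfl, rfl, hs, hi⟩
  | @there fr Γ Γ' α _ ih =>
    obtain ⟨Γ₁, sd, r, r', Γ₂, b, s, h1, h2, h3, h4⟩ := ih
    subst h1 h2
    exact ⟨fr :: Γ₁, sd, r, r', Γ₂, b, s, rfl, rfl, h3, h4⟩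

/-- the hole's action of a synchronisation is visible -/
lemma MStep_vis {Γ Γ' : Ctx N F} {β : IAct N} (h : MStep Γ β Γ') :
    ∃ b s, β = .vis b s := by
  obtain ⟨_, _, _, _, _, b, s, _, _, _, h⟩ := MStep_split h
  exact Img_vis h

lemma CStep_of_split {Γ₁ Γ₂ : Ctx N F} {sd : Bool} {r r' : ITerm N F} {α β : IAct N}
    (hs : IStep r α r') (hi : Img Γ₁ α β) :
    CStep (Γ₁ ++ .fpar sd r :: Γ₂) β (Γ₁ ++ .fpar sd r' :: Γ₂) := by
  exact CStep_append.2 (Or.inr ⟨α, _, .here hs, hi, rfl⟩)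

lemma MStep_of_split {Γ₁ Γ₂ : Ctx N F} {sd : Bool} {r r' : ITerm N F} {β : IAct N} {b : N}
    {s : Bool} (hs : IStep r (.vis b (!s)) r') (hi : Img Γ₂ β (.vis b s)) :
    MStep (Γ₁ ++ .fpar sd r :: Γ₂) β (Γ₁ ++ .fpar sd r' :: Γ₂) := by
  exact MStep_append.2 (Or.inr ⟨_, .here hi hs, rfl⟩)

/-- After replacing the component `r` by `r₁`: a component move is a move of `r₁` or was
possible before. -/
lemma CStep_replace {Γ₁ Γ₂ Θ : Ctx N F} {sd : Bool} (r : ITerm N F) {r₁ : ITerm N F}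
    {β : IAct N} (h : CStep (Γ₁ ++ .fpar sd r₁ :: Γ₂) β Θ) :
    (∃ Θ', CStep (Γ₁ ++ .fpar sd r :: Γ₂) β Θ') ∨ (∃ α r₂, IStep r₁ α r₂ ∧ Img Γ₁ α β) := by
  rcases CStep_append.1 h with ⟨Γ', h1, rfl⟩ | ⟨α, Δ', h1, h2, rfl⟩
  · exact Or.inl ⟨_, CStep_append.2 (Or.inl ⟨_, h1, rfl⟩)⟩
  · rcases CStep_cons.1 h1 with ⟨sd', r', r'', e, h3, rfl⟩ | ⟨γ, Γ'', h3, h4, rfl⟩
    · cases e
      exact Or.inr ⟨α, _, h3, h2⟩
    · exact Or.inl ⟨_, CStep_append.2 (Or.inr ⟨α, _, .there h3 h4, h2, rfl⟩)⟩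

lemma MStep_replace {Γ₁ Γ₂ Θ : Ctx N F} {sd : Bool} (r : ITerm N F) {r₁ : ITerm N F}
    {β : IAct N} (h : MStep (Γ₁ ++ .fpar sd r₁ :: Γ₂) β Θ) :
    (∃ Θ', MStep (Γ₁ ++ .fpar sd r :: Γ₂) β Θ') ∨
      (∃ b s r₂, IStep r₁ (.vis b (!s)) r₂ ∧ Img Γ₂ β (.vis b s)) := by
  rcases MStep_append.1 h with ⟨γ, Γ', h0, h1, rfl⟩ | ⟨Δ', h1, rfl⟩
  · exact Or.inl ⟨_, MStep_append.2 (Or.inl ⟨γ, _, h0, h1, rfl⟩)⟩
  · rcases MStep_cons.1 h1 with ⟨sd', r', r'', b, s, e, h2, h3, rfl⟩ | ⟨Γ'', h3, rfl⟩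
    · cases e
      exact Or.inr ⟨b, s, _, h3, h2⟩
    · exact Or.inl ⟨_, MStep_append.2 (Or.inr ⟨_, .there h3, rfl⟩)⟩

/-! ### Markers and probes -/

lemma plug_th {Γ : Ctx N F} {θ : Th N} {h q : ITerm N F} (hΓ : CNt θ Γ)
    (hs : IStep (plug Γ h) (.th θ) q) : ∃ h', IStep h (.th θ) h' ∧ q = plug Γ h' := by
  rcases plug_inv hs with ⟨α, h', h1, h2, rfl⟩ | ⟨Γ', h1, rfl⟩ | ⟨e, _⟩ | ⟨e, _⟩
  · obtain rfl := Img_eq_th h2
    exact ⟨h', h1, rfl⟩
  · obtain ⟨Γ₁, sd, r, r', Γ₂, α, rfl, rfl, h3, h4⟩ := CStep_split h1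
    obtain rfl := Img_eq_th h4
    exact absurd h3 (hΓ sd r (by simp) r')
  · simp at e
  · simp at e

lemma CNt1.CNt {Γ : Ctx N F} {θ : Th N} (h : CNt1 θ Γ) : CNt θ Γ :=
  fun sd r hr => (h sd r hr).1

lemma CNt1.CStep {Γ Γ' : Ctx N F} {θ : Th N} {μ : Action N} (h : CNt1 θ Γ)
    (hc : CStep Γ (.act μ) Γ') : MP_1be8fd_lc.CNt θ Γ' := by
  obtain ⟨Γ₁, sd, r, r', Γ₂, α, rfl, rfl, h3, h4⟩ := CStep_split hc
  obtain ⟨ν, rfl⟩ := Img_eq_act h4
  intro sd' p hp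
  rw [List.mem_append, List.mem_cons] at hp
  rcases hp with hp | hp | hp
  · exact (h sd' p (by simp [hp])).1
  · cases hp
    exact (h sd r (by simp)).2 ν _ h3
  · exact (h sd' p (by simp [hp])).1

lemma CNt1.MStep {Γ Γ' : Ctx N F} {θ : Th N} {α : IAct N} (h : CNt1 θ Γ)
    (hc : MStep Γ α Γ') : MP_1be8fd_lc.CNt θ Γ' := by
  obtain ⟨Γ₁, sd, r, r', Γ₂, b, s, rfl, rfl, h3, h4⟩ := MStep_split hc
  intro sd' p hp
  rw [List.mem_append, List.mem_cons] at hp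
  rcases hp with hp | hp | hp
  · exact (h sd' p (by simp [hp])).1
  · cases hp
    exact (h sd r (by simp)).2 _ _ h3
  · exact (h sd' p (by simp [hp])).1

lemma CNt1.SStep {Γ Γ' : Ctx N F} {θ : Th N} (h : CNt1 θ Γ)
    (hc : SStep Γ Γ') : MP_1be8fd_lc.CNt θ Γ' := by
  induction hc with
  | @here sd r r' Γ Γ' b s hc hs =>
    have h1 : MP_1be8fd_lc.CNt θ Γ' :=
      CNt1.CStep (fun sd r hr => h sd r (List.mem_cons_of_mem _ hr)) hc
    intro sd' p hp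
    rw [List.mem_cons] at hp
    rcases hp with hp | hp
    · cases hp
      exact (h sd r (by simp)).2 _ _ hs
    · exact h1 sd' p hp
  | @there fr Γ Γ' hc ih =>
    have h1 : MP_1be8fd_lc.CNt θ Γ' := ih (fun sd r hr => h sd r (List.mem_cons_of_mem _ hr))
    intro sd' p hp
    rw [List.mem_cons] at hp
    rcases hp with hp | hp
    · subst hp
      exact (h sd' p (by simp)).1
    · exact h1 sd' p hp

lemma step_sumL {l : List (ITerm N F)} {α : IAct N} {q : ITerm N F} :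
    IStep (sumL l) α q ↔ ∃ p ∈ l, IStep p α q := by
  induction l with
  | nil => simp [sumL]
  | cons p l ih => rw [sumL, step_add, ih]; simp

lemma step_Pr [Fintype N] {t : N → Bool → Th N} {α : IAct N} {q : ITerm N F} :
    IStep (Pr t) α q ↔ ∃ b s, α = .vis b s ∧ q = .pre (.th (t b s)) .nil := by
  rw [Pr, step_sumL]
  constructor
  · rintro ⟨p, hp, hs⟩
    rw [List.mem_map] at hp
    obtain ⟨l, _, rfl⟩ := hp
    rw [step_pre] at hs
    exact ⟨l.1, l.2, hs.1, hs.2⟩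
  · rintro ⟨b, s, rfl, rfl⟩
    refine ⟨_, List.mem_map.2 ⟨(b, s), ?_, rfl⟩, .pre _ _⟩
    rw [Finset.mem_toList]
    exact Finset.mem_univ _

/-- One ordinary step of a plugged probe after which the marker `t b s` is available: the hole
did `vis b s`. -/
lemma probe_inv [Fintype N] {t : N → Bool → Th N}
    (ht : ∀ b s b' s', t b s = t b' s' → b = b' ∧ s = s') {Γ : Ctx N F} {b : N} {s : Bool}
    (hΓ : CNt1 (t b s) Γ) {μ : Action N} {q q' : ITerm N F}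
    (hs : IStep (plug Γ (Pr t)) (.act μ) q) (hq : IStep q (.th (t b s)) q') :
    (Img Γ (.vis b s) (.act μ) ∧ q = plug Γ (.pre (.th (t b s)) .nil)) ∨
    (μ = Action.tau ∧ ∃ Γ', MStep Γ (.vis b s) Γ' ∧
      q = plug Γ' (.pre (.th (t b s)) .nil)) := by
  rcases plug_inv hs with ⟨α, h', h1, h2, rfl⟩ | ⟨Γ', h1, rfl⟩ |
    ⟨e, b', s', h', Γ', h1, h2, rfl⟩ | ⟨e, Γ', h1, rfl⟩
  · obtain ⟨b', s', rfl, rfl⟩ := step_Pr.1 h1
    obtain ⟨h'', h3, _⟩ := plug_th hΓ.CNt hq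
    rw [step_pre] at h3
    obtain ⟨rfl, rfl⟩ := ht _ _ _ _ (IAct.th.inj h3.1)
    exact Or.inl ⟨h2, rfl⟩
  · obtain ⟨h'', h3, _⟩ := plug_th (CNt1.CStep hΓ h1) hq
    obtain ⟨b', s', e, _⟩ := step_Pr.1 h3
    simp at e
  · obtain ⟨b'', s'', e', rfl⟩ := step_Pr.1 h1
    cases e'
    obtain ⟨h'', h3, _⟩ := plug_th (CNt1.MStep hΓ h2) hq
    rw [step_pre] at h3
    obtain ⟨rfl, rfl⟩ := ht _ _ _ _ (IAct.th.inj h3.1)
    exact Or.inr ⟨IAct.act.inj e, Γ', h2, rfl⟩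
  · obtain ⟨h'', h3, _⟩ := plug_th (CNt1.SStep hΓ h1) hq
    obtain ⟨b', s', e, _⟩ := step_Pr.1 h3
    simp at e

/-- Conversely. -/
lemma probe_mk_img [Fintype N] (t : N → Bool → Th N) {Γ : Ctx N F} {b : N} {s : Bool}
    {β : IAct N} (h : Img Γ (.vis b s) β) :
    IStep (plug Γ (Pr t)) β (plug Γ (.pre (.th (t b s)) .nil)) :=
  step_plug (step_Pr.2 ⟨b, s, rfl, rfl⟩) h

lemma probe_mk_meet [Fintype N] (t : N → Bool → Th N) {Γ Γ' : Ctx N F} {b : N} {s : Bool}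
    (h : MStep Γ (.vis b s) Γ') :
    IStep (plug Γ (Pr t)) .tau (plug Γ' (.pre (.th (t b s)) .nil)) :=
  step_plugM (step_Pr.2 ⟨b, s, rfl, rfl⟩) h

lemma th_avail (Γ : Ctx N F) (θ : Th N) (p : ITerm N F) :
    IStep (plug Γ (.pre (.th θ) p)) (.th θ) (plug Γ p) :=
  step_plug (.pre _ _) (Img_th.2 rfl)

/-! ### Congruence and related contexts -/

lemma IBis.app {p q : ITerm N F} {fr fr' : Frame N F (ITerm N F)} (h : IBis p q)
    (hf : FRel IBis fr fr') : IBis (fr.app p) (fr'.app q) := by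
  cases hf with
  | fpar sd h' =>
    cases sd
    · exact h.par h'
    · exact h'.par h
  | fres L => exact h.res L
  | frel f => exact h.rel f

lemma IBis.plug {p q : ITerm N F} {Γ Γ' : Ctx N F} (h : IBis p q) (hΓ : CRel IBis Γ Γ') :
    IBis (MP_1be8fd_lc.plug Γ p) (MP_1be8fd_lc.plug Γ' q) := by
  induction hΓ with
  | nil => exact h
  | cons hf _ ih => exact ih.app hf

lemma CRel.refl_of {R : ITerm N F → ITerm N F → Prop} (hR : ∀ p, R p p) (Γ : Ctx N F) :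
    CRel R Γ Γ := by
  induction Γ with
  | nil => exact .nil
  | cons fr Γ ih =>
    refine .cons ?_ ih
    cases fr with
    | fpar sd r => exact .fpar sd (hR r)
    | fres L => exact .fres L
    | frel f => exact .frel f

lemma CRel_Img {R : ITerm N F → ITerm N F → Prop} {Γ Γ' : Ctx N F} (h : CRel R Γ Γ')
    {α β : IAct N} : Img Γ α β ↔ Img Γ' α β := by
  induction h generalizing β with
  | nil => exact Iff.rfl
  | cons hf _ ih =>
    constructor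
    · rintro ⟨γ, h1, h2⟩
      exact ⟨γ, ih.1 h1, (FRel_Img hf).1 h2⟩
    · rintro ⟨γ, h1, h2⟩
      exact ⟨γ, ih.2 h1, (FRel_Img hf).2 h2⟩

/-- Availability of meetings is transferred along relations that transfer availability of
labels. -/
lemma CRel_MStep {R : ITerm N F → ITerm N F → Prop}
    (hR : ∀ r r', R r r' → ∀ b s q, IStep r (.vis b s) q → ∃ q', IStep r' (.vis b s) q')
    {Γ Γ' Θ : Ctx N F} (h : CRel R Γ Γ') {α : IAct N} (hm : MStep Γ α Θ) :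
    ∃ Θ', MStep Γ' α Θ' := by
  induction h generalizing Θ with
  | nil => cases hm
  | cons hf hΓ ih =>
    rcases MStep_cons.1 hm with ⟨sd, r, r', b, s, rfl, h1, h2, rfl⟩ | ⟨Γ'', h1, rfl⟩
    · cases hf with
      | fpar _ hr =>
        obtain ⟨q, hq⟩ := hR _ _ hr _ _ _ h2
        exact ⟨_, .here ((CRel_Img hΓ).1 h1) hq⟩
    · obtain ⟨Θ', h2⟩ := ih h1
      exact ⟨_, .there h2⟩

lemma CRel_CStep {R : ITerm N F → ITerm N F → Prop}
    (hR : ∀ r r', R r r' → ∀ b s q, IStep r (.vis b s) q → ∃ q', IStep r' (.vis b s) q')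
    {Γ Γ' Θ : Ctx N F} (h : CRel R Γ Γ') {b : N} {s : Bool} (hm : CStep Γ (.vis b s) Θ) :
    ∃ Θ', CStep Γ' (.vis b s) Θ' := by
  induction h generalizing Θ b s with
  | nil => cases hm
  | cons hf hΓ ih =>
    rcases CStep_cons.1 hm with ⟨sd, r, r', rfl, h1, rfl⟩ | ⟨α, Γ'', h1, h2, rfl⟩
    · cases hf with
      | fpar _ hr =>
        obtain ⟨q, hq⟩ := hR _ _ hr _ _ _ h1
        exact ⟨_, .here hq⟩
    · obtain ⟨b', s', rfl⟩ := fImg_vis h2
      obtain ⟨Θ', h3⟩ := ih h1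
      exact ⟨_, .there h3 ((FRel_Img hf).1 h2)⟩

/-- splitting a related context -/
lemma CRel_split {R : ITerm N F → ITerm N F → Prop} {Γ₁ Γ₂ Θ : Ctx N F} {sd : Bool}
    {r : ITerm N F} (h : CRel R (Γ₁ ++ .fpar sd r :: Γ₂) Θ) :
    ∃ Θ₁ r' Θ₂, Θ = Θ₁ ++ .fpar sd r' :: Θ₂ ∧ CRel R Γ₁ Θ₁ ∧ R r r' ∧ CRel R Γ₂ Θ₂ := by
  induction Γ₁ generalizing Θ with
  | nil =>
    cases h with
    | cons hf hΓ =>
      cases hf with
      | fpar _ hr => exact ⟨[], _, _, rfl, .nil, hr, hΓ⟩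
  | cons fr Γ₁ ih =>
    cases h with
    | cons hf hΓ =>
      obtain ⟨Θ₁, r', Θ₂, rfl, h1, h2, h3⟩ := ih hΓ
      exact ⟨_ :: Θ₁, r', Θ₂, rfl, .cons hf h1, h2, h3⟩

lemma CRel_split' {R : ITerm N F → ITerm N F → Prop} {Γ₁ Γ₂ Θ : Ctx N F} {sd : Bool}
    {r : ITerm N F} (h : CRel R Θ (Γ₁ ++ .fpar sd r :: Γ₂)) :
    ∃ Θ₁ r' Θ₂, Θ = Θ₁ ++ .fpar sd r' :: Θ₂ ∧ CRel R Θ₁ Γ₁ ∧ R r' r ∧ CRel R Θ₂ Γ₂ := by
  induction Γ₁ generalizing Θ with
  | nil =>
    cases h with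
    | cons hf hΓ =>
      cases hf with
      | fpar _ hr => exact ⟨[], _, _, rfl, .nil, hr, hΓ⟩
  | cons fr Γ₁ ih =>
    cases h with
    | cons hf hΓ =>
      obtain ⟨Θ₁, r', Θ₂, rfl, h1, h2, h3⟩ := ih hΓ
      exact ⟨_ :: Θ₁, r', Θ₂, rfl, .cons hf h1, h2, h3⟩

lemma CRel_append {R : ITerm N F → ITerm N F → Prop} {Γ₁ Γ₂ Γ₁' Γ₂' : Ctx N F}
    (h₁ : CRel R Γ₁ Γ₁') (h₂ : CRel R Γ₂ Γ₂') : CRel R (Γ₁ ++ Γ₂) (Γ₁' ++ Γ₂') := by
  induction h₁ with
  | nil => exact h₂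
  | cons hf _ ih => exact .cons hf ih

end Pool.Agent.Lib.MP_1be8fd_lc
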