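import Pool.Agent.Lib.MP_1be8fd_lc.BaseDefs
import Pool.Agent.Lib.MP_1be8fd_lc.Ctx

set_option autoImplicit false

namespace Pool.Agent.Lib.MP_1be8fd_lc

variable {N : Type} {F : Set (Relabelling N)}

lemma inst_wdT {X : Type} (ϑ : X → ITerm N F) (w : ℕ → N × Bool) (n k : ℕ) (t : Term N F X) :
    inst ϑ (wdT w n k t) = wd w n k (inst ϑ t) := by
  induction k with
  | zero => rfl
  | succ k ih => simp only [wdT, wd, inst, ih]

lemma inst_LE (a c : N) (w : ℕ → N × Bool) (n : ℕ) (ϑ : ℕ → ITerm N F) :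
    inst ϑ (LE a c w n) = LI a c w n (ϑ 0) n := by
  simp only [LE, LI, inst, inst_wdT]

lemma inst_RE (a c : N) (w : ℕ → N × Bool) (n : ℕ) (ϑ : ℕ → ITerm N F) :
    inst ϑ (RE a c w n) = RI a c w n (ϑ 0) n := by
  simp only [RE, RI, inst, inst_wdT]

lemma wd_step {w : ℕ → N × Bool} {n k : ℕ} {t : ITerm N F} {α : IAct N} {r : ITerm N F}
    (h : IStep (wd w n k t) α r) :
    (k = 0 ∧ IStep t α r) ∨ ∃ k', k = k' + 1 ∧ α = lab (w (n - (k' + 1))) ∧ r = wd w n k' t := by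
  cases k with
  | zero => exact Or.inl ⟨rfl, h⟩
  | succ k =>
    rw [wd, step_pre] at h
    exact Or.inr ⟨k, rfl, h.1, h.2⟩

lemma wd_nil_th {w : ℕ → N × Bool} {n k : ℕ} {θ : Th N} {r : ITerm N F} :
    ¬ IStep (wd w n k .nil) (.th θ) r := by
  intro h
  rcases wd_step h with ⟨_, h⟩ | ⟨k', _, h, _⟩
  · exact step_nil h
  · cases h

lemma wd_nil_step {w : ℕ → N × Bool} {n k : ℕ} {α : IAct N} {r : ITerm N F}
    (h : IStep (wd w n k .nil) α r) :
    ∃ k', k = k' + 1 ∧ α = lab (w (n - (k' + 1))) ∧ r = wd w n k' .nil := by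
  rcases wd_step h with ⟨_, h⟩ | h
  · exact absurd h step_nil
  · exact h

/-- moves of the inner left component of `LI` -/
lemma inner_step {a c : N} (hac : a ≠ c) {p : ITerm N F} {α : IAct N} {r : ITerm N F}
    (h : IStep (.res {c} (.par (.res {a} p) (.pre (.vis a false) (.pre (.vis c false) .nil)))) α r) :
    (∃ p', IStep p α p' ∧ α.Allowed {a, c} ∧
      r = .res {c} (.par (.res {a} p') (.pre (.vis a false) (.pre (.vis c false) .nil)))) ∨
    α = .vis a false := by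
  rw [step_res] at h
  obtain ⟨x, h, hc, rfl⟩ := h
  rw [step_par] at h
  rcases h with ⟨y, h, rfl⟩ | ⟨y, h, rfl⟩ | ⟨rfl, b, s, y, z, h1, h2, rfl⟩
  · rw [step_res] at h
    obtain ⟨p', h, ha, rfl⟩ := h
    refine Or.inl ⟨p', h, ?_, rfl⟩
    cases α with
    | th θ => trivial
    | act μ =>
      cases μ with
      | tau => trivial
      | vis b s =>
        intro hb
        rcases hb with hb | hb
        · exact ha hb
        · exact hc hb
  · rw [step_pre] at h
    exact Or.inr h.1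
  · rw [step_pre] at h2
    rw [step_res] at h1
    obtain ⟨p', h, ha, rfl⟩ := h1
    obtain ⟨h3, _⟩ := h2
    simp only [IAct.act.injEq, Action.vis.injEq] at h3
    exact absurd h3.1 ha

lemma allowed_a {a c : N} {α : IAct N} (h : α.Allowed {a, c}) :
    α.Allowed {a} ∧ α.Allowed {c} := by
  cases α with
  | th θ => exact ⟨trivial, trivial⟩
  | act μ =>
    cases μ with
    | tau => exact ⟨trivial, trivial⟩
    | vis b s => exact ⟨fun hb => h (Or.inl hb), fun hb => h (Or.inr hb)⟩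

lemma inner_mk {a c : N} {p p' : ITerm N F} {α : IAct N} (h : IStep p α p')
    (ha : α.Allowed {a, c}) :
    IStep (.res {c} (.par (.res {a} p) (.pre (.vis a false) (.pre (.vis c false) .nil)))) α
      (.res {c} (.par (.res {a} p') (.pre (.vis a false) (.pre (.vis c false) .nil)))) :=
  .res _ (.parL _ (.res _ h (allowed_a ha).1)) (allowed_a ha).2

/-- The equations hold. -/
lemma LI_RI (G : Family N) (p : ITerm N F) {k : ℕ} (hk : k ≤ G.n) :
    IBis (LI G.a G.c G.w G.n p k) (RI G.a G.c G.w G.n p k) := by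
  refine ⟨fun x y => ∃ p k, k ≤ G.n ∧ x = LI G.a G.c G.w G.n p k ∧ y = RI G.a G.c G.w G.n p k,
    ?_, p, k, hk, rfl, rfl⟩
  rintro _ _ ⟨p, k, hk, rfl, rfl⟩
  constructor
  · intro α x h
    unfold LI at h
    rw [step_res] at h
    obtain ⟨x, h, ha, rfl⟩ := h
    rw [step_par] at h
    rcases h with ⟨y, h, rfl⟩ | ⟨y, h, rfl⟩ | ⟨rfl, b, s, y, z, h1, h2, rfl⟩
    · rcases inner_step G.hac h with ⟨p', h', hac, rfl⟩ | rfl
      · exact ⟨_, .parL _ (.res _ h' hac), p', k, hk, rfl, rfl⟩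
      · exact absurd rfl ha
    · rcases wd_step h with ⟨rfl, h'⟩ | ⟨k', rfl, rfl, rfl⟩
      · rw [step_pre] at h'
        obtain ⟨rfl, rfl⟩ := h'
        exact absurd rfl ha
      · refine ⟨_, .parR _ (.pre _ _), p, k', by omega, rfl, rfl⟩
    · rcases wd_step h2 with ⟨rfl, h2'⟩ | ⟨k', rfl, h3, rfl⟩
      · rw [step_pre] at h2'
        obtain ⟨h3, rfl⟩ := h2'
        simp only [IAct.act.injEq, Action.vis.injEq] at h3
        obtain ⟨rfl, h4⟩ := h3
        rcases inner_step G.hac h1 with ⟨p', h, hac, rfl⟩ | h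
        · exact absurd (Or.inl rfl) hac
        · simp only [IAct.act.injEq, Action.vis.injEq] at h
          rw [h.2] at h4
          cases h4
      · rcases inner_step G.hac h1 with ⟨p', h, hac, rfl⟩ | h
        · refine ⟨_, .parC (.res _ h hac) (?_ : IStep _ _ (wd G.w G.n k' .nil)), p', k', by omega,
            rfl, rfl⟩
          rw [h3]
          exact .pre _ _
        · cases h
          have h4 := G.hwa (G.n - (k' + 1))
          simp only [lab, IAct.act.injEq, Action.vis.injEq] at h3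
          exact absurd h3.1.symm h4
  · intro α x h
    unfold RI at h
    rw [step_par] at h
    rcases h with ⟨y, h, rfl⟩ | ⟨y, h, rfl⟩ | ⟨rfl, b, s, y, z, h1, h2, rfl⟩
    · rw [step_res] at h
      obtain ⟨p', h, ha, rfl⟩ := h
      exact ⟨_, .res _ (.parL _ (inner_mk h ha)) (allowed_a ha).1, p', k, hk, rfl, rfl⟩
    · obtain ⟨k', rfl, rfl, rfl⟩ := wd_nil_step h
      exact ⟨_, .res _ (.parR _ (.pre _ _)) (G.hwa _), p, k', by omega, rfl, rfl⟩
    · obtain ⟨k', rfl, h3, rfl⟩ := wd_nil_step h2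
      rw [step_res] at h1
      obtain ⟨p', h, ha, rfl⟩ := h1
      refine ⟨_, .res _ (.parC (inner_mk h ha)
        (?_ : IStep _ _ (wd G.w G.n k' (.pre (.vis G.a false) .nil)))) trivial, p', k', by omega,
          rfl, rfl⟩
      rw [h3]
      exact .pre _ _

lemma sound_family (G : Family N) :
    Sound (LE G.a G.c G.w G.n : Term N F ℕ) (RE G.a G.c G.w G.n) := by
  intro σ
  refine Bisimilar_of_emb ?_
  unfold emb
  rw [inst_subst, inst_subst, inst_LE, inst_RE]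
  exact LI_RI G _ le_rfl

section

variable [Fintype N]

/-- `z0` leads to `AtR 0`. -/
lemma AtR_zero {G : Family N} {T T' : ITerm N F}
    (hT : IBis T (RI G.a G.c G.w G.n xT G.n)) (h : IStep T (.th .z0) T') : AtR G 0 T' := by
  obtain ⟨q, hq, hb⟩ := hT.fwd h
  unfold AtR
  rw [Nat.sub_zero]
  unfold RI at hq
  rw [step_par] at hq
  rcases hq with ⟨y, h, rfl⟩ | ⟨y, h, rfl⟩ | ⟨h, _⟩
  · rw [step_res] at h
    obtain ⟨z, h, _, rfl⟩ := h
    rw [step_pre] at h
    obtain ⟨_, rfl⟩ := h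
    exact hb
  · exact absurd h wd_nil_th
  · cases h

lemma X0T_step {α : IAct N} {r : ITerm N F} (h : IStep X0T α r) : α = .th .z1 ∧ r = XT :=
  step_pre.1 h

lemma AtR_step {G : Family N} {j : ℕ} (hj : j ≤ G.n) {T T' : ITerm N F} {μ : Action N}
    (hT : AtR G j T) (h : IStep T (.act μ) T') :
    j < G.n ∧ .act μ = lab (G.w j) ∧ AtR G (j + 1) T' := by
  obtain ⟨q, hq, hb⟩ := IBis.fwd hT h
  unfold RI at hq
  rw [step_par] at hq
  rcases hq with ⟨y, h, rfl⟩ | ⟨y, h, rfl⟩ | ⟨_, b, s, y, z, h1, _, _⟩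
  · rw [step_res] at h
    obtain ⟨z, h, _, rfl⟩ := h
    have h' := (X0T_step h).1
    cases h'
  · obtain ⟨k', hk, hμ, rfl⟩ := wd_nil_step h
    have h1 : G.n - (k' + 1) = j := by omega
    have h2 : k' = G.n - (j + 1) := by omega
    rw [h1] at hμ
    refine ⟨by omega, hμ, ?_⟩
    unfold AtR
    rw [← h2]
    exact hb
  · rw [step_res] at h1
    obtain ⟨z, h, _, rfl⟩ := h1
    have h' := (X0T_step h).1
    cases h'

/-- after `z1` and one more step, the markers `tx c s` are not available -/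
lemma AtR_z1 {G : Family N} {j : ℕ} {T T₁ T₂ T₃ : ITerm N F} {μ : Action N} {s : Bool}
    (hT : AtR G j T) (h1 : IStep T (.th .z1) T₁) (h2 : IStep T₁ (.act μ) T₂) :
    ¬ IStep T₂ (.th (.tx G.c s)) T₃ := by
  intro h3
  obtain ⟨q₁, hq₁, hb₁⟩ := IBis.fwd hT h1
  obtain ⟨q₂, hq₂, hb₂⟩ := hb₁.fwd h2
  obtain ⟨q₃, hq₃, hb₃⟩ := hb₂.fwd h3
  have e1 : q₁ = .par (.res {G.a, G.c} XT) (wd G.w G.n (G.n - j) .nil) := by
    unfold RI at hq₁
    rw [step_par] at hq₁
    rcases hq₁ with ⟨y, h, rfl⟩ | ⟨y, h, rfl⟩ | ⟨h, _⟩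
    · rw [step_res] at h
      obtain ⟨z, h, _, rfl⟩ := h
      rw [(X0T_step h).2]
    · exact absurd h wd_nil_th
    · cases h
  subst e1
  have key : ∀ (x : ITerm N F) (k : ℕ) (q : ITerm N F),
      IStep (.par (.res {G.a, G.c} x) (wd G.w G.n k .nil)) (.th (.tx G.c s)) q →
      ∃ y, IStep x (.th (.tx G.c s)) y := by
    intro x k q h
    rw [step_par] at h
    rcases h with ⟨y, h, rfl⟩ | ⟨y, h, rfl⟩ | ⟨h, _⟩
    · rw [step_res] at h
      obtain ⟨z, h, _, rfl⟩ := h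
      exact ⟨z, h⟩
    · exact absurd h wd_nil_th
    · cases h
  have key2 : ∀ (α : IAct N) (y : ITerm N F), IStep (.res {G.a, G.c} XT) α y →
      ∃ x, y = .res {G.a, G.c} x ∧ ¬ ∃ z, IStep x (.th (.tx G.c s)) z := by
    intro α y h
    rw [step_res] at h
    obtain ⟨x, h, ha, rfl⟩ := h
    refine ⟨x, rfl, ?_⟩
    rw [step_Pr] at h
    obtain ⟨b, s', rfl, rfl⟩ := h
    rintro ⟨z, hz⟩
    rw [step_pre] at hz
    have hz1 := hz.1
    simp only [IAct.th.injEq, Th.tx.injEq] at hz1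
    exact ha (Or.inr hz1.1.symm)
  rw [step_par] at hq₂
  rcases hq₂ with ⟨y, h, rfl⟩ | ⟨y, h, rfl⟩ | ⟨_, b, s', y, z, h1, h2, rfl⟩
  · obtain ⟨x, rfl, hx⟩ := key2 _ _ h
    exact hx (key x _ _ hq₃)
  · obtain ⟨k', _, _, rfl⟩ := wd_nil_step h
    obtain ⟨y, hy⟩ := key _ _ _ hq₃
    rw [step_Pr] at hy
    obtain ⟨b, s', h, _⟩ := hy
    cases h
  · obtain ⟨x, rfl, hx⟩ := key2 _ _ h1
    obtain ⟨k', _, _, rfl⟩ := wd_nil_step h2
    exact hx (key x _ _ hq₃)

lemma AtR_congr {G : Family N} {j : ℕ} {T T' : ITerm N F} (hT : AtR G j T) (h : IBis T' T) :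
    AtR G j T' :=
  h.trans hT

end

end Pool.Agent.Lib.MP_1be8fd_lc
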