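import Pool.Agent.Lib.MP_1be8fd_lc.BaseA

set_option autoImplicit false

namespace Pool.Agent.Lib.MP_1be8fd_lc

variable {N : Type} {F : Set (Relabelling N)}

lemma not_Ev_res {a : N} {s : Bool} {L : Set N} (h : a ∈ L) :
    ¬ Ev ([.fres L] : Ctx N F) (.vis a s) := by
  rintro (⟨β, γ, h1, h2⟩ | ⟨Γ', hm⟩)
  · obtain rfl : γ = .vis a s := h1
    exact h2.2 h
  · cases hm with
    | there hm' => cases hm'

lemma wdB_step (w : ℕ → N × Bool) (n : ℕ) (t : ITerm N F) {j : ℕ} (hj : j < n) :
    IStep (wd w n (n - j) t) (lab (w j)) (wd w n (n - (j + 1)) t) := by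
  obtain ⟨k, rfl⟩ : ∃ k, n = j + (k + 1) := ⟨n - j - 1, by omega⟩
  have h1 : j + (k + 1) - j = k + 1 := by omega
  have h2 : j + (k + 1) - (j + 1) = k := by omega
  have h3 : j + (k + 1) - (k + 1) = j := by omega
  rw [h1, h2, wd, h3]
  exact .pre _ _

lemma wdB_inv (w : ℕ → N × Bool) (n : ℕ) (t : ITerm N F) {j : ℕ} (hj : j < n) {α : IAct N}
    {q : ITerm N F} (h : IStep (wd w n (n - j) t) α q) : α = lab (w j) := by
  obtain ⟨k, rfl⟩ : ∃ k, n = j + (k + 1) := ⟨n - j - 1, by omega⟩
  have h1 : j + (k + 1) - j = k + 1 := by omega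
  have h3 : j + (k + 1) - (k + 1) = j := by omega
  rw [h1, wd, h3, step_pre] at h
  exact h.1

section

variable [Fintype N]

/-- The left-hand sides satisfy the invariant. -/
lemma Inv_LI (G : Family N) : Inv G (LI G.a G.c G.w G.n (xT : ITerm N F) G.n) := by
  refine ⟨LI_RI G _ le_rfl, [.fres {G.a}], false, wd G.w G.n G.n (.pre (.vis G.a false) .nil),
    [.fres {G.c}, .fpar false (.pre (.vis G.a false) (.pre (.vis G.c false) .nil)),
      .fres {G.a}], (G.a, false), ?_, ?_⟩
  · exact .res _ (.parL _ (.res _ (.parL _ (.res _ .leaf))))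
  · have hstep : ∀ q : ITerm N F, IStep (plug [.fres {G.c},
        .fpar false (.pre (.vis G.a false) (.pre (.vis G.c false) .nil)),
        .fres {G.a}] X0T) (lab (G.a, false)) q ↔
        q = .res {G.c} (.par (.res {G.a} X0T) (.pre (.vis G.c false) .nil)) := by
      intro q
      constructor
      · intro h
        change IStep (.res {G.c} (.par (.res {G.a} X0T)
          (.pre (.vis G.a false) (.pre (.vis G.c false) .nil)))) (.vis G.a false) q at h
        rw [step_res] at h
        obtain ⟨p', h, _, rfl⟩ := h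
        rw [step_par] at h
        rcases h with ⟨p1, h, rfl⟩ | ⟨q1, h, rfl⟩ | ⟨e, _⟩
        · rw [step_res] at h
          obtain ⟨p2, h, _, rfl⟩ := h
          rw [X0T, step_pre] at h
          simp at h
        · rw [step_pre] at h
          obtain ⟨_, rfl⟩ := h
          rfl
        · simp at e
      · rintro rfl
        refine IStep.res _ (IStep.parR _ (.pre _ _)) ?_
        change G.a ∉ ({G.c} : Set N)
        simpa using G.hac
    refine ⟨⟨fun j => wd G.w G.n (G.n - j) (.pre (.vis G.a false) .nil), G.w, rfl, ?_, ?_, ?_⟩,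
      ⟨_, (hstep _).2 rfl⟩, ?_, ?_, ?_⟩
    · intro j hj
      refine ⟨wdB_step _ _ _ hj, lab (G.w j), rfl, rfl, ?_⟩
      change (G.w j).1 ∉ ({G.a} : Set N)
      simpa using G.hwa j
    · refine ⟨.nil, ?_⟩
      change IStep (wd G.w G.n (G.n - G.n) _) _ _
      rw [Nat.sub_self]
      exact .pre _ _
    · rintro j - hj ⟨q, hq⟩
      have h := wdB_inv _ _ _ hj hq
      have h1 : G.a = (G.w j).1 := by
        simp only [lab, IAct.act.injEq, Action.vis.injEq] at h
        exact h.1
      exact G.hwa j h1.symm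
    · intro q hq
      rw [hstep] at hq
      subst hq
      refine ⟨.res {G.c} (.par (.res {G.a} XT) (.pre (.vis G.c false) .nil)),
        .res {G.c} (.par (.res {G.a} (.pre (.th (.tx G.c true)) .nil)) .nil),
        .res {G.c} (.par (.res {G.a} .nil) .nil), true, ?_, ?_, ?_⟩
      · exact .res _ (.parL _ (.res _ (.pre _ _) trivial)) trivial
      · refine .res _ (IStep.parC (b := G.c) (s := true) (.res _ ?_ ?_) (.pre _ _)) trivial
        · exact step_Pr.2 ⟨_, _, rfl, rfl⟩
        · change G.c ∉ ({G.a} : Set N)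
          simpa using G.hac.symm
      · exact .res _ (.parL _ (.res _ (.pre _ _) trivial)) trivial
    · exact not_Ev_res (by simp)
    · exact not_Ev_res (by simp [bar])

lemma ActI_xT {Δ : Ctx N F} (h : ActI (xT : ITerm N F) Δ) : Δ = [] := by
  generalize hp : (xT : ITerm N F) = p at h
  cases h with
  | leaf => rfl
  | _ => simp [xT] at hp

lemma not_ActI_wd (w : ℕ → N × Bool) (n k : ℕ) (Δ : Ctx N F) :
    ¬ ActI (wd w n k (.nil : ITerm N F)) Δ := by
  intro h
  generalize hp : (wd w n k (.nil : ITerm N F)) = p at h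
  cases k with
  | zero =>
    rw [wd] at hp
    cases h with
    | leaf => simp [xT] at hp
    | _ => simp at hp
  | succ k =>
    rw [wd] at hp
    cases h with
    | leaf => simp [xT] at hp
    | _ => simp at hp

/-- The right-hand sides do not. -/
lemma not_Inv_RI (G : Family N) : ¬ Inv G (RI G.a G.c G.w G.n (xT : ITerm N F) G.n) := by
  rintro ⟨-, E, sd, B, Ξ, χ, hA, hG⟩
  have key : E = [] := by
    generalize hΔ : E ++ Frame.fpar sd B :: Ξ = Δ at hA
    rw [RI] at hA
    cases hA with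
    | parL _ h =>
      cases h with
      | res _ h =>
        have := ActI_xT h
        subst this
        rcases E with _ | ⟨fr, E⟩
        · rfl
        · rcases E with _ | ⟨fr', E⟩
          · simp at hΔ
          · simp at hΔ
    | parR _ h => exact absurd h (not_ActI_wd _ _ _ _)
  subst key
  exact hG.nev (Or.inl ⟨_, rfl⟩)

end

/-- Families exist, for every bound. -/
lemma exists_family [Finite N] [Nontrivial N] (m : ℕ) : ∃ G : Family N, G.m = m := by
  obtain ⟨a, c, hac⟩ := exists_pair_ne N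
  obtain ⟨K, ⟨e⟩⟩ := Finite.exists_equiv_fin {b : N // b ≠ a}
  have hK : 0 < K := (Nat.zero_le _).trans_lt (e ⟨c, hac.symm⟩).2
  refine ⟨{ a := a, c := c, hac := hac,
            w := fun j => ((e.symm ⟨(j / 2) % K, Nat.mod_lt _ hK⟩).1, decide (j % 2 = 1)),
            m := m, n := 2 * (m * K + K) + m + 2, hn := by omega, hwa := ?_, hadj := ?_,
            hcov := ?_ }, rfl⟩
  · intro j
    exact (e.symm ⟨(j / 2) % K, Nat.mod_lt _ hK⟩).2
  · intro j h
    have h2 := (Prod.mk.inj h).2
    rw [decide_eq_decide] at h2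
    omega
  · intro b hb
    have hi := (e ⟨b, hb⟩).2
    have hmK : m ≤ m * K := Nat.le_mul_of_pos_right m hK
    refine ⟨2 * (m * K + (e ⟨b, hb⟩).1), by omega, by omega, ?_⟩
    have h1 : (2 * (m * K + (e ⟨b, hb⟩).1) / 2) % K = (e ⟨b, hb⟩).1 := by
      rw [Nat.mul_div_cancel_left _ (by norm_num), Nat.add_comm, Nat.add_mul_mod_self_right]
      exact Nat.mod_eq_of_lt hi
    have h2 : (⟨(2 * (m * K + (e ⟨b, hb⟩).1) / 2) % K, Nat.mod_lt _ hK⟩ : Fin K)
        = e ⟨b, hb⟩ := Fin.ext h1
    change ((e.symm ⟨(2 * (m * K + (e ⟨b, hb⟩).1) / 2) % K, Nat.mod_lt _ hK⟩).1 : N) = b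
    rw [h2, Equiv.symm_apply_apply]

/-- Counting names: two labels which are not seen outside have the same name, if all names but
`a` come from outside. -/
lemma three_names [Finite N] {S : Type} {Γ : List (Frame N F S)} {a : N}
    (hcov : ∀ b, b ≠ a → ∃ (ζ : N × Bool) (s : Bool), Img Γ (lab ζ) (.vis b s))
    {q κ : N × Bool} (hq : ¬ ∃ β, Img Γ (lab q) β) (hκ : ¬ ∃ β, Img Γ (lab κ) β) :
    q.1 = κ.1 := by
  classical
  cases nonempty_fintype N
  by_contra hne
  -- labels with the same name have related images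
  have hrel : ∀ {ζ ξ : N × Bool}, ζ.1 = ξ.1 → ∀ {b : N} {s : Bool},
      Img Γ (lab ζ) (.vis b s) → ∃ s', Img Γ (lab ξ) (.vis b s') := by
    rintro ⟨x, s1⟩ ⟨y, s2⟩ h b s hi
    obtain rfl : x = y := h
    by_cases hs : s1 = s2
    · subst hs
      exact ⟨s, hi⟩
    · obtain rfl : s2 = !s1 := by
        cases s1 <;> cases s2 <;> simp_all
      exact ⟨!s, Img_compl hi⟩
  choose g s hg using hcov
  let φ : {b : N // b ≠ a} → N := fun b => (g b.1 b.2).1
  have hinj : Function.Injective φ := by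
    rintro ⟨b, hb⟩ ⟨b', hb'⟩ h
    obtain ⟨s', hs'⟩ := hrel h (hg b hb)
    have := Img_fun hs' (hg b' hb')
    simp only [IAct.act.injEq, Action.vis.injEq] at this
    exact Subtype.ext this.1
  have hmem : ∀ b, φ b ∈ (Finset.univ.erase q.1).erase κ.1 := by
    rintro ⟨b, hb⟩
    rw [Finset.mem_erase, Finset.mem_erase]
    refine ⟨fun h => hκ ?_, fun h => hq ?_, Finset.mem_univ _⟩
    · obtain ⟨s', hs'⟩ := hrel h (hg b hb)
      exact ⟨_, hs'⟩
    · obtain ⟨s', hs'⟩ := hrel h (hg b hb)
      exact ⟨_, hs'⟩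
  have h1 : Fintype.card {b : N // b ≠ a} ≤ ((Finset.univ.erase q.1).erase κ.1).card := by
    rw [← Finset.card_univ]
    exact Finset.card_le_card_of_injOn φ (fun b _ => hmem b) hinj.injOn
  have h2 : Fintype.card {b : N // b ≠ a} = Fintype.card N - 1 := by
    rw [Fintype.card_subtype_compl, Fintype.card_subtype_eq]
  have h3 : ((Finset.univ.erase q.1).erase κ.1).card = Fintype.card N - 1 - 1 := by
    rw [Finset.card_erase_of_mem, Finset.card_erase_of_mem (Finset.mem_univ _),
      Finset.card_univ]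
    rw [Finset.mem_erase]
    exact ⟨fun h => hne h.symm, Finset.mem_univ _⟩
  have h4 : 1 < Fintype.card N := Fintype.one_lt_card_iff.2 ⟨_, _, hne⟩
  omega

end Pool.Agent.Lib.MP_1be8fd_lc
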