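import Pool.Agent.Lib.MP_1be8fd_lc.SymDefs

set_option autoImplicit false

namespace Pool.Agent.Lib.MP_1be8fd_lc

variable {N : Type} {F : Set (Relabelling N)}

/-- The word `w_{n-k} ... w_{n-1}` followed by `t`. -/
def wdT {X : Type} (w : ℕ → N × Bool) (n : ℕ) : ℕ → Term N F X → Term N F X
  | 0, t => t
  | k + 1, t => .pre (Action.vis (w (n - (k + 1))).1 (w (n - (k + 1))).2) (wdT w n k t)

def wd (w : ℕ → N × Bool) (n : ℕ) : ℕ → ITerm N F → ITerm N F
  | 0, t => t
  | k + 1, t => .pre (lab (w (n - (k + 1)))) (wd w n k t)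

/-- The left-hand sides of the family of equations. -/
def LE (a c : N) (w : ℕ → N × Bool) (n : ℕ) : Term N F ℕ :=
  .res {a} (.par
    (.res {c} (.par (.res {a} (.var 0))
      (.pre (Action.vis a false) (.pre (Action.vis c false) .nil))))
    (wdT w n n (.pre (Action.vis a false) .nil)))

/-- The right-hand sides. -/
def RE (a c : N) (w : ℕ → N × Bool) (n : ℕ) : Term N F ℕ :=
  .par (.res {a, c} (.var 0)) (wdT w n n .nil)

/-- Instances of the left-hand sides, after `n - k` letters. -/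
def LI (a c : N) (w : ℕ → N × Bool) (n : ℕ) (p : ITerm N F) (k : ℕ) : ITerm N F :=
  .res {a} (.par
    (.res {c} (.par (.res {a} p) (.pre (.vis a false) (.pre (.vis c false) .nil))))
    (wd w n k (.pre (.vis a false) .nil)))

def RI (a c : N) (w : ℕ → N × Bool) (n : ℕ) (p : ITerm N F) (k : ℕ) : ITerm N F :=
  .par (.res {a, c} p) (wd w n k .nil)

/-- The data of the family: two names, an upper bound `m` for the sizes of the axioms, a long
word `w` of length `n`, without letters `a`, whose consecutive letters differ, and in which every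
name other than `a` occurs late. -/
structure Family (N : Type) where
  a : N
  c : N
  hac : a ≠ c
  w : ℕ → N × Bool
  m : ℕ
  n : ℕ
  hn : m + 2 ≤ n
  hwa : ∀ j, (w j).1 ≠ a
  hadj : ∀ j, w j ≠ w (j + 1)
  hcov : ∀ b, b ≠ a → ∃ j, m ≤ j ∧ j < n ∧ (w j).1 = b

variable [Fintype N]

/-- `p` is bisimilar to the right-hand side after the marker `z0` and `j` letters. -/
def AtR (G : Family N) (j : ℕ) (p : ITerm N F) : Prop :=
  IBis p (RI G.a G.c G.w G.n X0T (G.n - j))

/-- The component `A` can, after the marker `z1`, perform an internal step after which a marker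
`tx c s` is available. -/
def Lnk (G : Family N) (A : ITerm N F) : Prop :=
  ∃ A₁ A₂ A₃ s, IStep A (.th .z1) A₁ ∧ IStep A₁ .tau A₂ ∧ IStep A₂ (.th (.tx G.c s)) A₃

/-- The invariant on a decomposition. -/
structure Good (G : Family N) (E : Ctx N F) (B A : ITerm N F) (χ : N × Bool) : Prop where
  run : ∃ (V : ℕ → ITerm N F) (l : ℕ → N × Bool), V 0 = B ∧
    (∀ j < G.n, IStep (V j) (lab (l j)) (V (j + 1)) ∧ Img E (lab (l j)) (lab (G.w j))) ∧
    (∃ q, IStep (V G.n) (lab χ) q) ∧
    (∀ j, G.m < j → j < G.n → ¬ ∃ q, IStep (V j) (lab χ) q)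
  linkE : ∃ q, IStep A (lab χ) q
  linkA : ∀ q, IStep A (lab χ) q → Lnk G q
  nev : ¬ Ev E (lab χ)
  nev' : ¬ Ev E (lab (bar χ))

/-- The invariant. -/
def Inv (G : Family N) (T : ITerm N F) : Prop :=
  IBis T (RI G.a G.c G.w G.n xT G.n) ∧
    ∃ (E : Ctx N F) (sd : Bool) (B : ITerm N F) (Ξ : Ctx N F) (χ : N × Bool),
      ActI T (E ++ .fpar sd B :: Ξ) ∧ Good G E B (plug Ξ X0T) χ

end Pool.Agent.Lib.MP_1be8fd_lc
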