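import Pool.Agent.Lib.MP_1be8fd_lc.SymA

set_option autoImplicit false

namespace Pool.Agent.Lib.MP_1be8fd_lc

variable {N : Type} {F : Set (Relabelling N)}

section adm

variable [Fintype N]

/-! ### Symbolic transitions -/

/-- Transitions of an instance are instances of symbolic transitions. -/
lemma symS {τ : ℕ → ITerm N F} (hτ : ∀ k, Adm (τ k)) {v : Sym N F} (hv : AdmS v)
    {μ : Action N} {q : ITerm N F} (h : IStep (inst2 τ v) (.act μ) q) :
    ∃ v', AdmS v' ∧ q = inst2 τ v' ∧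
      ∀ τ₂, Above τ τ₂ → IStep (inst2 τ₂ v) (.act μ) (inst2 τ₂ v') := by
  induction v generalizing μ q with
  | var y =>
    cases y with
    | inl k => exact ⟨.var (.inr q), Adm_act (hτ k) h, rfl, fun τ₂ h₂ => h₂ k _ _ h⟩
    | inr p => exact ⟨.var (.inr q), Adm_act hv h, rfl, fun τ₂ h₂ => h⟩
  | nil => exact absurd h step_nil
  | pre μ' t ih =>
    obtain ⟨h1, rfl⟩ := step_pre.1 h
    cases h1
    exact ⟨t, hv, rfl, fun τ₂ h₂ => .pre _ _⟩
  | add t u iht ihu =>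
    rcases step_add.1 h with h | h
    · obtain ⟨v', h1, h2, h3⟩ := iht hv.1 h
      exact ⟨v', h1, h2, fun τ₂ h₂ => .addL _ (h3 τ₂ h₂)⟩
    · obtain ⟨v', h1, h2, h3⟩ := ihu hv.2 h
      exact ⟨v', h1, h2, fun τ₂ h₂ => .addR _ (h3 τ₂ h₂)⟩
  | par t u iht ihu =>
    rcases step_par.1 h with ⟨p', hi, rfl⟩ | ⟨q', hi, rfl⟩ | ⟨e, b, s, p', q', ha, hb, rfl⟩
    · obtain ⟨v', h1, rfl, h3⟩ := iht hv.1 hi
      exact ⟨.par v' u, ⟨h1, hv.2⟩, rfl, fun τ₂ h₂ => .parL _ (h3 τ₂ h₂)⟩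
    · obtain ⟨v', h1, rfl, h3⟩ := ihu hv.2 hi
      exact ⟨.par t v', ⟨hv.1, h1⟩, rfl, fun τ₂ h₂ => .parR _ (h3 τ₂ h₂)⟩
    · cases e
      obtain ⟨v', h1, rfl, h3⟩ := iht hv.1 ha
      obtain ⟨w', h1', rfl, h3'⟩ := ihu hv.2 hb
      exact ⟨.par v' w', ⟨h1, h1'⟩, rfl, fun τ₂ h₂ => .parC (h3 τ₂ h₂) (h3' τ₂ h₂)⟩
  | lmerge t u iht ihu =>
    obtain ⟨p', hi, rfl⟩ := step_lm.1 h
    obtain ⟨v', h1, rfl, h3⟩ := iht hv.1 hi
    exact ⟨.par v' u, ⟨h1, hv.2⟩, rfl, fun τ₂ h₂ => .lm _ (h3 τ₂ h₂)⟩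
  | cmerge t u iht ihu =>
    obtain ⟨e, b, s, p', q', ha, hb, rfl⟩ := step_cm.1 h
    cases e
    obtain ⟨v', h1, rfl, h3⟩ := iht hv.1 ha
    obtain ⟨w', h1', rfl, h3'⟩ := ihu hv.2 hb
    exact ⟨.par v' w', ⟨h1, h1'⟩, rfl, fun τ₂ h₂ => .cm (h3 τ₂ h₂) (h3' τ₂ h₂)⟩
  | res L t ih =>
    obtain ⟨p', hi, ha, rfl⟩ := step_res.1 h
    obtain ⟨v', h1, rfl, h3⟩ := ih hv hi
    exact ⟨.res L v', h1, rfl, fun τ₂ h₂ => .res _ (h3 τ₂ h₂) ha⟩
  | rel f t ih =>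
    obtain ⟨β, p', hi, e, rfl⟩ := step_rel.1 h
    cases β with
    | th θ => cases e
    | act μ' =>
      cases e
      obtain ⟨v', h1, rfl, h3⟩ := ih hv hi
      exact ⟨.rel f v', h1, rfl, fun τ₂ h₂ => .rel _ (h3 τ₂ h₂)⟩

omit [Fintype N] in
lemma mark_self (τ : ℕ → ITerm N F) (x : ℕ) (ν : IAct N) (Y : ITerm N F) :
    mark τ x ν Y x = .add (τ x) (.pre ν Y) := by
  simp [mark]

omit [Fintype N] in
lemma mark_ne (τ : ℕ → ITerm N F) {x k : ℕ} (h : k ≠ x) (ν : IAct N) (Y : ITerm N F) :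
    mark τ x ν Y k = τ k := by
  simp [mark, h]

/-- Transitions, other than `tau`, of a marked instance: either they come from the unmarked
instance, or the mark is used. -/
lemma symP {τ : ℕ → ITerm N F} (hτ : ∀ k, Adm (τ k)) {x : ℕ} {ν : IAct N} {Y : ITerm N F}
    {v : Sym N F} (hv : AdmS v) {β : IAct N} (hβ : β ≠ .tau) {q : ITerm N F}
    (h : IStep (inst2 (mark τ x ν Y) v) β q) :
    (∃ v', q = inst2 (mark τ x ν Y) v' ∧ IStep (inst2 τ v) β (inst2 τ v') ∧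
      ∀ μ, β = .act μ → AdmS v') ∨
    (∃ P : SCtx N F, Act v P (.var (.inl x)) ∧ Img P ν β ∧
      q = plug (instC (mark τ x ν Y) P) Y) := by
  induction v generalizing β q with
  | var y =>
    cases y with
    | inl k =>
      by_cases hk : k = x
      · subst hk
        change IStep (mark τ k ν Y k) β q at h
        rw [mark_self, step_add] at h
        rcases h with h | h
        · refine Or.inl ⟨.var (.inr q), rfl, h, ?_⟩
          rintro μ rfl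
          exact Adm_act (hτ k) h
        · obtain ⟨rfl, rfl⟩ := step_pre.1 h
          exact Or.inr ⟨[], .refl _, rfl, rfl⟩
      · change IStep (mark τ x ν Y k) β q at h
        rw [mark_ne _ hk] at h
        refine Or.inl ⟨.var (.inr q), rfl, h, ?_⟩
        rintro μ rfl
        exact Adm_act (hτ k) h
    | inr p =>
      refine Or.inl ⟨.var (.inr q), rfl, h, ?_⟩
      rintro μ rfl
      exact Adm_act hv h
  | nil => exact absurd h step_nil
  | pre μ' t ih =>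
    obtain ⟨rfl, rfl⟩ := step_pre.1 h
    exact Or.inl ⟨t, rfl, .pre _ _, fun _ _ => hv⟩
  | add t u iht ihu =>
    rcases step_add.1 h with h | h
    · rcases iht hv.1 hβ h with ⟨v', h1, h2, h3⟩ | ⟨P, h1, h2, h3⟩
      · exact Or.inl ⟨v', h1, .addL _ h2, h3⟩
      · exact Or.inr ⟨P, .addL _ h1, h2, h3⟩
    · rcases ihu hv.2 hβ h with ⟨v', h1, h2, h3⟩ | ⟨P, h1, h2, h3⟩
      · exact Or.inl ⟨v', h1, .addR _ h2, h3⟩
      · exact Or.inr ⟨P, .addR _ h1, h2, h3⟩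
  | par t u iht ihu =>
    rcases step_par.1 h with ⟨p', hi, rfl⟩ | ⟨q', hi, rfl⟩ | ⟨e, _⟩
    · rcases iht hv.1 hβ hi with ⟨v', rfl, h2, h3⟩ | ⟨P, h1, h2, rfl⟩
      · exact Or.inl ⟨.par v' u, rfl, .parL _ h2, fun μ e => ⟨h3 μ e, hv.2⟩⟩
      · exact Or.inr ⟨.fpar false u :: P, .parL _ h1, ⟨β, h2, rfl⟩, rfl⟩
    · rcases ihu hv.2 hβ hi with ⟨v', rfl, h2, h3⟩ | ⟨P, h1, h2, rfl⟩
      · exact Or.inl ⟨.par t v', rfl, .parR _ h2, fun μ e => ⟨hv.1, h3 μ e⟩⟩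
      · exact Or.inr ⟨.fpar true t :: P, .parR _ h1, ⟨β, h2, rfl⟩, rfl⟩
    · exact absurd e hβ
  | lmerge t u iht ihu =>
    obtain ⟨p', hi, rfl⟩ := step_lm.1 h
    rcases iht hv.1 hβ hi with ⟨v', rfl, h2, h3⟩ | ⟨P, h1, h2, rfl⟩
    · exact Or.inl ⟨.par v' u, rfl, .lm _ h2, fun μ e => ⟨h3 μ e, hv.2⟩⟩
    · exact Or.inr ⟨.fpar false u :: P, .lm _ h1, ⟨β, h2, rfl⟩, rfl⟩
  | cmerge t u iht ihu =>
    obtain ⟨e, _⟩ := step_cm.1 h
    exact absurd e hβ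
  | res L t ih =>
    obtain ⟨p', hi, ha, rfl⟩ := step_res.1 h
    rcases ih hv hβ hi with ⟨v', rfl, h2, h3⟩ | ⟨P, h1, h2, rfl⟩
    · exact Or.inl ⟨.res L v', rfl, .res _ h2 ha, h3⟩
    · exact Or.inr ⟨.fres L :: P, .res _ h1, ⟨β, h2, rfl, ha⟩, rfl⟩
  | rel f t ih =>
    obtain ⟨β', p', hi, rfl, rfl⟩ := step_rel.1 h
    have hβ' : β' ≠ .tau := by
      rintro rfl
      apply hβ
      change IAct.act (f.1.toFun Action.tau) = _
      rw [f.1.map_tau]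
    rcases ih hv hβ' hi with ⟨v', rfl, h2, h3⟩ | ⟨P, h1, h2, rfl⟩
    · refine Or.inl ⟨.rel f v', rfl, .rel _ h2, fun μ e => ?_⟩
      cases β' with
      | th θ => cases e
      | act μ' => exact h3 μ' rfl
    · exact Or.inr ⟨.frel f :: P, .rel _ h1, ⟨β', h2, rfl⟩, rfl⟩

/-- Contexts of constants. -/
def cst (Δ : Ctx N F) : SCtx N F := Δ.map (Frame.map fun p => .var (.inr p))

omit [Fintype N] in
lemma instC_cst (τ : ℕ → ITerm N F) (Δ : Ctx N F) : instC τ (cst Δ) = Δ := by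
  induction Δ with
  | nil => rfl
  | cons fr Δ ih =>
    change Frame.map (inst2 τ) (Frame.map (fun p => .var (.inr p)) fr) :: instC τ (cst Δ) = _
    rw [ih]
    cases fr <;> rfl

lemma AdmSC_cst {Δ : Ctx N F} (h : AdmC Δ) : AdmSC (cst Δ) := by
  intro sd v hv
  obtain ⟨fr, hfr, e⟩ := List.mem_map.1 hv
  cases fr with
  | fpar sd' r =>
    cases e
    exact h _ _ hfr
  | fres L => cases e
  | frel f => cases e

lemma AdmSC_cons' {P : SCtx N F} (h : AdmSC P) {fr : Frame N F (Sym N F)}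
    (hfr : ∀ sd v, fr = .fpar sd v → AdmS v) : AdmSC (fr :: P) := by
  intro sd v hv
  rcases List.mem_cons.1 hv with e | e
  · exact hfr _ _ e.symm
  · exact h _ _ e

/-- Active occurrences of `xT` and the marker `z0` in a marked instance. -/
lemma symZ {τ : ℕ → ITerm N F} (hτ : ∀ k, Adm (τ k)) {x : ℕ} {ν : IAct N} (hν : ν ≠ .th .z0)
    {Y : ITerm N F} {v : Sym N F} (hv : AdmS v) {q : ITerm N F}
    (h : IStep (inst2 (mark τ x ν Y) v) (.th .z0) q) :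
    ∃ P : SCtx N F, AdmSC P ∧ ActI (inst2 τ v) (instC τ P) ∧
      q = plug (instC (mark τ x ν Y) P) X0T := by
  have base : ∀ {p : ITerm N F}, Adm p → IStep p (.th .z0) q →
      ∃ P : SCtx N F, AdmSC P ∧ ActI p (instC τ P) ∧
        q = plug (instC (mark τ x ν Y) P) X0T := by
    intro p hp h
    obtain ⟨-, Δ, h1, h2, h3⟩ := Adm_th hp h
    exact ⟨cst Δ, AdmSC_cst h2, by rwa [instC_cst], by rwa [instC_cst]⟩
  induction v generalizing q with
  | var y =>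
    cases y with
    | inl k =>
      by_cases hk : k = x
      · subst hk
        change IStep (mark τ k ν Y k) _ q at h
        rw [mark_self, step_add] at h
        rcases h with h | h
        · exact base (hτ k) h
        · obtain ⟨e, rfl⟩ := step_pre.1 h
          exact absurd e.symm hν
      · change IStep (mark τ x ν Y k) _ q at h
        rw [mark_ne _ hk] at h
        exact base (hτ k) h
    | inr p => exact base hv h
  | nil => exact absurd h step_nil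
  | pre μ' t ih =>
    obtain ⟨e, rfl⟩ := step_pre.1 h
    cases e
  | add t u iht ihu =>
    rcases step_add.1 h with h | h
    · obtain ⟨P, h1, h2, h3⟩ := iht hv.1 h base
      exact ⟨P, h1, .addL _ h2, h3⟩
    · obtain ⟨P, h1, h2, h3⟩ := ihu hv.2 h base
      exact ⟨P, h1, .addR _ h2, h3⟩
  | par t u iht ihu =>
    have base' : ∀ {q : ITerm N F} {p : ITerm N F}, Adm p → IStep p (.th .z0) q →
      ∃ P : SCtx N F, AdmSC P ∧ ActI p (instC τ P) ∧
        q = plug (instC (mark τ x ν Y) P) X0T := by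
      intro q p hp h
      obtain ⟨-, Δ, h1, h2, h3⟩ := Adm_th hp h
      exact ⟨cst Δ, AdmSC_cst h2, by rwa [instC_cst], by rwa [instC_cst]⟩
    rcases step_par.1 h with ⟨p', hi, rfl⟩ | ⟨q', hi, rfl⟩ | ⟨e, _⟩
    · obtain ⟨P, h1, h2, rfl⟩ := iht hv.1 hi base'
      exact ⟨.fpar false u :: P, AdmSC_cons' h1 (by rintro sd v ⟨⟩; exact hv.2), .parL _ h2, rfl⟩
    · obtain ⟨P, h1, h2, rfl⟩ := ihu hv.2 hi base'
      exact ⟨.fpar true t :: P, AdmSC_cons' h1 (by rintro sd v ⟨⟩; exact hv.1), .parR _ h2, rfl⟩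
    · cases e
  | lmerge t u iht ihu =>
    have base' : ∀ {q : ITerm N F} {p : ITerm N F}, Adm p → IStep p (.th .z0) q →
      ∃ P : SCtx N F, AdmSC P ∧ ActI p (instC τ P) ∧
        q = plug (instC (mark τ x ν Y) P) X0T := by
      intro q p hp h
      obtain ⟨-, Δ, h1, h2, h3⟩ := Adm_th hp h
      exact ⟨cst Δ, AdmSC_cst h2, by rwa [instC_cst], by rwa [instC_cst]⟩
    obtain ⟨p', hi, rfl⟩ := step_lm.1 h
    obtain ⟨P, h1, h2, rfl⟩ := iht hv.1 hi base'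
    exact ⟨.fpar false u :: P, AdmSC_cons' h1 (by rintro sd v ⟨⟩; exact hv.2), .lm _ h2, rfl⟩
  | cmerge t u iht ihu =>
    obtain ⟨e, _⟩ := step_cm.1 h
    cases e
  | res L t ih =>
    have base' : ∀ {q : ITerm N F} {p : ITerm N F}, Adm p → IStep p (.th .z0) q →
      ∃ P : SCtx N F, AdmSC P ∧ ActI p (instC τ P) ∧
        q = plug (instC (mark τ x ν Y) P) X0T := by
      intro q p hp h
      obtain ⟨-, Δ, h1, h2, h3⟩ := Adm_th hp h
      exact ⟨cst Δ, AdmSC_cst h2, by rwa [instC_cst], by rwa [instC_cst]⟩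
    obtain ⟨p', hi, ha, rfl⟩ := step_res.1 h
    obtain ⟨P, h1, h2, rfl⟩ := ih hv hi base'
    exact ⟨.fres L :: P, AdmSC_cons' h1 (by rintro sd v ⟨⟩), .res _ h2, rfl⟩
  | rel f t ih =>
    have base' : ∀ {q : ITerm N F} {p : ITerm N F}, Adm p → IStep p (.th .z0) q →
      ∃ P : SCtx N F, AdmSC P ∧ ActI p (instC τ P) ∧
        q = plug (instC (mark τ x ν Y) P) X0T := by
      intro q p hp h
      obtain ⟨-, Δ, h1, h2, h3⟩ := Adm_th hp h
      exact ⟨cst Δ, AdmSC_cst h2, by rwa [instC_cst], by rwa [instC_cst]⟩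
    obtain ⟨β', p', hi, e, rfl⟩ := step_rel.1 h
    cases β' with
    | act μ => cases e
    | th θ =>
      cases e
      obtain ⟨P, h1, h2, rfl⟩ := ih hv hi base'
      exact ⟨.frel f :: P, AdmSC_cons' h1 (by rintro sd v ⟨⟩), .rel _ h2, rfl⟩

/-! ### Absence of markers -/

omit [Fintype N] in
lemma Nt_par {θ : Th N} {p q : ITerm N F} (hp : Nt θ p) (hq : Nt θ q) : Nt θ (.par p q) := by
  intro r h
  rcases step_par.1 h with ⟨p', hi, rfl⟩ | ⟨q', hi, rfl⟩ | ⟨e, _⟩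
  · exact hp _ hi
  · exact hq _ hi
  · cases e

omit [Fintype N] in
lemma Nt_res {θ : Th N} {L : Set N} {p : ITerm N F} (hp : Nt θ p) : Nt θ (.res L p) := by
  intro r h
  obtain ⟨p', hi, -, rfl⟩ := step_res.1 h
  exact hp _ hi

omit [Fintype N] in
lemma Nt_rel {θ : Th N} {f : F} {p : ITerm N F} (hp : Nt θ p) : Nt θ (.rel f p) := by
  intro r h
  obtain ⟨β, p', hi, e, rfl⟩ := step_rel.1 h
  cases β with
  | act μ => cases e
  | th θ' =>
    cases e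
    exact hp _ hi

lemma Adm_Nt {θ : Th N} (hθ : θ ≠ .z0) {p : ITerm N F} (hp : Adm p) : Nt θ p :=
  fun _ h => hθ (Adm_th hp h).1

lemma Adm_Nt1 {θ : Th N} (hθ : θ ≠ .z0) {p : ITerm N F} (hp : Adm p) : Nt1 θ p :=
  ⟨Adm_Nt hθ hp, fun _ _ h => Adm_Nt hθ (Adm_act hp h)⟩

lemma Nt1_inst2 {θ : Th N} (hθ : θ ≠ .z0) {τ : ℕ → ITerm N F} (hτ : ∀ k, Nt1 θ (τ k))
    {v : Sym N F} (hv : AdmS v) : Nt1 θ (inst2 τ v) := by
  induction v with
  | var y =>
    cases y with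
    | inl k => exact hτ k
    | inr p => exact Adm_Nt1 hθ hv
  | nil => exact ⟨fun _ h => absurd h step_nil, fun _ _ h => absurd h step_nil⟩
  | pre μ' t ih =>
    refine ⟨fun q h => ?_, fun μ q h => ?_⟩
    · obtain ⟨e, rfl⟩ := step_pre.1 h
      cases e
    · obtain ⟨e, rfl⟩ := step_pre.1 h
      exact (ih hv).1
  | add t u iht ihu =>
    refine ⟨fun q h => ?_, fun μ q h => ?_⟩
    · rcases step_add.1 h with h | h
      · exact (iht hv.1).1 _ h
      · exact (ihu hv.2).1 _ h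
    · rcases step_add.1 h with h | h
      · exact (iht hv.1).2 _ _ h
      · exact (ihu hv.2).2 _ _ h
  | par t u iht ihu =>
    refine ⟨Nt_par (iht hv.1).1 (ihu hv.2).1, fun μ q h => ?_⟩
    rcases step_par.1 h with ⟨p', hi, rfl⟩ | ⟨q', hi, rfl⟩ | ⟨e, b, s, p', q', ha, hb, rfl⟩
    · exact Nt_par ((iht hv.1).2 _ _ hi) (ihu hv.2).1
    · exact Nt_par (iht hv.1).1 ((ihu hv.2).2 _ _ hi)
    · exact Nt_par ((iht hv.1).2 _ _ ha) ((ihu hv.2).2 _ _ hb)
  | lmerge t u iht ihu =>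
    refine ⟨fun q h => ?_, fun μ q h => ?_⟩
    · obtain ⟨p', hi, rfl⟩ := step_lm.1 h
      exact (iht hv.1).1 _ hi
    · obtain ⟨p', hi, rfl⟩ := step_lm.1 h
      exact Nt_par ((iht hv.1).2 _ _ hi) (ihu hv.2).1
  | cmerge t u iht ihu =>
    refine ⟨fun q h => ?_, fun μ q h => ?_⟩
    · obtain ⟨e, _⟩ := step_cm.1 h
      cases e
    · obtain ⟨e, b, s, p', q', ha, hb, rfl⟩ := step_cm.1 h
      exact Nt_par ((iht hv.1).2 _ _ ha) ((ihu hv.2).2 _ _ hb)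
  | res L t ih =>
    refine ⟨Nt_res (ih hv).1, fun μ q h => ?_⟩
    obtain ⟨p', hi, ha, rfl⟩ := step_res.1 h
    exact Nt_res ((ih hv).2 _ _ hi)
  | rel f t ih =>
    refine ⟨Nt_rel (ih hv).1, fun μ q h => ?_⟩
    obtain ⟨β, p', hi, e, rfl⟩ := step_rel.1 h
    cases β with
    | th θ => cases e
    | act μ' => exact Nt_rel ((ih hv).2 _ _ hi)

/-- The relation between unmarked and marked terms, when the mark is `ν.mk.Z` with `ν` a label
that the value at `x` can perform. -/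
lemma markRel_MkR {τ : ℕ → ITerm N F} (hτ : ∀ k, Adm (τ k)) {x : ℕ} {b : N} {s : Bool}
    {D : ITerm N F} (hD : IStep (τ x) (.vis b s) D) {Z : ITerm N F} :
    MarkRel (MkR τ x (.vis b s) (.pre (.th .mk) Z)) := by
  refine ⟨?_, ?_, ?_, ?_⟩
  · rintro p p₁ ⟨v, hv, rfl, rfl⟩ μ q h
    obtain ⟨v', h1, rfl, h3⟩ := symS hτ hv h
    exact ⟨_, h3 _ (above_mark _ _ _ _), v', h1, rfl, rfl⟩
  · rintro p p₁ ⟨v, hv, rfl, rfl⟩ b' s' q₁ h
    rcases symP hτ hv (by rintro ⟨⟩) h with ⟨v', rfl, h2, h3⟩ | ⟨P, h1, h2, rfl⟩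
    · exact Or.inl ⟨_, h2, v', h3 _ rfl, rfl, rfl⟩
    · exact Or.inr ⟨⟨_, Act_step h1 hD h2⟩, _, th_avail _ _ _⟩
  · rintro p p₁ ⟨v, hv, rfl, rfl⟩ θ hθ
    refine ⟨Adm_Nt1 hθ (Adm_inst2 hτ hv), fun q h => ?_⟩
    rcases symP hτ hv (by rintro ⟨⟩) h with ⟨v', rfl, h2, h3⟩ | ⟨P, h1, h2, rfl⟩
    · exact Adm_Nt hθ (Adm_inst2 hτ hv) _ h2
    · obtain ⟨μ', e⟩ := Img_act h2
      cases e
  · rintro p p₁ ⟨v, hv, rfl, rfl⟩ θ hθ hθ'
    refine Nt1_inst2 hθ (fun k => ?_) hv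
    by_cases hk : k = x
    · subst hk
      rw [mark_self]
      refine ⟨fun q h => ?_, fun μ q h => ?_⟩
      · rcases step_add.1 h with h | h
        · exact Adm_Nt hθ (hτ k) _ h
        · obtain ⟨e, rfl⟩ := step_pre.1 h
          cases e
      · rcases step_add.1 h with h | h
        · exact Adm_Nt hθ (Adm_act (hτ k) h)
        · obtain ⟨e, rfl⟩ := step_pre.1 h
          intro r hr
          obtain ⟨e, rfl⟩ := step_pre.1 hr
          cases e
          exact hθ' rfl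
    · rw [mark_ne _ hk]
      exact Adm_Nt1 hθ (hτ k)

lemma CRel_instC {τ : ℕ → ITerm N F} {x : ℕ} {ν : IAct N} {Y : ITerm N F} {P : SCtx N F}
    (hP : AdmSC P) : CRel (MkR τ x ν Y) (instC τ P) (instC (mark τ x ν Y) P) := by
  induction P with
  | nil => exact .nil
  | cons fr P ih =>
    refine .cons ?_ (ih fun sd v h => hP sd v (List.mem_cons_of_mem _ h))
    cases fr with
    | fpar sd v => exact .fpar sd ⟨v, hP sd v List.mem_cons_self, rfl, rfl⟩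
    | fres L => exact .fres L
    | frel f => exact .frel f

/-- When the mark is `mk.Z`: availability of labels is not changed. -/
lemma MkR_th_avail {τ : ℕ → ITerm N F} (hτ : ∀ k, Adm (τ k)) {x : ℕ} {Y : ITerm N F}
    {p q : ITerm N F} (h : MkR τ x (.th .mk) Y p q) (b : N) (s : Bool) :
    (∃ r, IStep p (.vis b s) r) ↔ ∃ r, IStep q (.vis b s) r := by
  obtain ⟨v, hv, rfl, rfl⟩ := h
  constructor
  · rintro ⟨r, h⟩
    obtain ⟨v', h1, rfl, h3⟩ := symS hτ hv h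
    exact ⟨_, h3 _ (above_mark _ _ _ _)⟩
  · rintro ⟨r, h⟩
    rcases symP hτ hv (by rintro ⟨⟩) h with ⟨v', rfl, h2, h3⟩ | ⟨P, h1, h2, rfl⟩
    · exact ⟨_, h2⟩
    · have := Img_th.1 h2
      cases this

/-- When the mark is `mk.Y`: the markers `tx`, `tz`, `z1` are never available. -/
lemma MkR_th_nt1 {τ : ℕ → ITerm N F} (hτ : ∀ k, Adm (τ k)) {x : ℕ} {Y : ITerm N F}
    {p q : ITerm N F} (h : MkR τ x (.th .mk) Y p q) {θ : Th N} (h0 : θ ≠ .z0)
    (h1 : θ ≠ .mk) : Nt1 θ p ∧ Nt1 θ q := by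
  obtain ⟨v, hv, rfl, rfl⟩ := h
  refine ⟨Adm_Nt1 h0 (Adm_inst2 hτ hv), Nt1_inst2 h0 (fun k => ?_) hv⟩
  by_cases hk : k = x
  · subst hk
    rw [mark_self]
    refine ⟨fun q h => ?_, fun μ q h => ?_⟩
    · rcases step_add.1 h with h | h
      · exact Adm_Nt h0 (hτ k) _ h
      · obtain ⟨e, rfl⟩ := step_pre.1 h
        cases e
        exact h1 rfl
    · rcases step_add.1 h with h | h
      · exact Adm_Nt h0 (Adm_act (hτ k) h)
      · obtain ⟨e, rfl⟩ := step_pre.1 h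
        cases e
  · rw [mark_ne _ hk]
    exact Adm_Nt1 h0 (hτ k)

end adm

end Pool.Agent.Lib.MP_1be8fd_lc
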