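import Pool.Agent.Lib.MP_1be8fd_lc.BaseB
import Pool.Agent.Lib.MP_1be8fd_lc.SymB

set_option autoImplicit false
set_option linter.unusedSectionVars false

namespace Pool.Agent.Lib.MP_1be8fd_lc

variable {N : Type} {F : Set (Relabelling N)}

/-! ### Labels -/

@[simp] lemma bar_bar (l : N × Bool) : bar (bar l) = l := by
  cases l; simp [bar]

lemma bar_ne (l : N × Bool) : bar l ≠ l := by
  rcases l with ⟨b, s⟩
  cases s <;> simp [bar]

lemma lab_compl (l : N × Bool) : (lab l).compl = lab (bar l) := rfl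

lemma lab_inj {l l' : N × Bool} (h : lab l = lab l') : l = l' := by
  rcases l with ⟨b, s⟩
  rcases l' with ⟨b', s'⟩
  simp only [lab, IAct.vis, IAct.act.injEq, Action.vis.injEq] at h
  rw [h.1, h.2]

lemma eq_or_bar {l l' : N × Bool} (h : l.1 = l'.1) : l = l' ∨ l = bar l' := by
  rcases l with ⟨b, s⟩
  rcases l' with ⟨b', s'⟩
  simp only at h
  subst h
  cases s <;> cases s' <;> simp [bar]

lemma Img_bar {S : Type} {Γ : List (Frame N F S)} {l l' : N × Bool}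
    (h : Img Γ (lab l) (lab l')) : Img Γ (lab (bar l)) (lab (bar l')) :=
  Img_compl h

lemma Img_bar' {S : Type} {Γ : List (Frame N F S)} {l l' : N × Bool}
    (h : Img Γ (lab (bar l)) (lab l')) : Img Γ (lab l) (lab (bar l')) := by
  have := Img_bar h
  rwa [bar_bar] at this

lemma Img_bar_tau {S : Type} {Γ : List (Frame N F S)} {l : N × Bool}
    (h : Img Γ (lab (bar l)) .tau) : Img Γ (lab l) .tau := by
  have := Img_compl h
  rwa [lab_compl, bar_bar] at this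

lemma lab_ne_itau (l : N × Bool) : lab l ≠ .tau := by
  intro h; cases h

lemma Img_lab {S : Type} {Γ : List (Frame N F S)} {α : IAct N} {l : N × Bool}
    (h : Img Γ α (lab l)) : ∃ l', α = lab l' := by
  obtain ⟨b, s, h⟩ := Img_vis h
  exact ⟨(b, s), h⟩

lemma Img_fpar {S : Type} {Γ Δ : List (Frame N F S)} {sd : Bool} {r : S} {α β : IAct N} :
    Img (Γ ++ .fpar sd r :: Δ) α β ↔ Img (Γ ++ Δ) α β := by
  rw [Img_append, Img_append]
  constructor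
  · rintro ⟨γ, ⟨δ, h1, h2⟩, h3⟩
    cases h2
    exact ⟨_, h1, h3⟩
  · rintro ⟨γ, h1, h3⟩
    exact ⟨γ, ⟨γ, h1, rfl⟩, h3⟩

/-- the two views of a configuration -/
lemma two_flip (E : Ctx N F) (sd : Bool) (K Ξ : Ctx N F) (h g : ITerm N F) :
    plug (E ++ .fpar sd (plug K h) :: Ξ) g = plug (E ++ .fpar (!sd) (plug Ξ g) :: K) h := by
  rw [plug_append, plug_append]
  congr 1
  exact app_flip sd (plug K h) (plug Ξ g)

/-! ### Unavailability of markers -/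

lemma Nt_plug {θ : Th N} {Γ : Ctx N F} {h : ITerm N F} (hΓ : CNt θ Γ) (hh : Nt θ h) :
    Nt θ (plug Γ h) := by
  intro q hq
  obtain ⟨h', h1, _⟩ := plug_th hΓ hq
  exact hh _ h1

lemma Nt1_plug {θ : Th N} {Γ : Ctx N F} {h : ITerm N F} (hΓ : CNt1 θ Γ) (hh : Nt1 θ h) :
    Nt1 θ (plug Γ h) := by
  refine ⟨Nt_plug hΓ.CNt hh.1, ?_⟩
  intro μ q hq
  rcases plug_inv hq with ⟨α, h', h1, h2, rfl⟩ | ⟨Γ', h1, rfl⟩ |
    ⟨_, b, s, h', Γ', h1, h2, rfl⟩ | ⟨_, Γ', h1, rfl⟩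
  · refine Nt_plug hΓ.CNt ?_
    cases α with
    | act μ' => exact hh.2 _ _ h1
    | th θ' =>
      rw [Img_th] at h2
      cases h2
  · exact Nt_plug (hΓ.CStep h1) hh.1
  · exact Nt_plug (hΓ.MStep h2) (hh.2 _ _ h1)
  · exact Nt_plug (hΓ.SStep h1) hh.1

lemma CNt_append {θ : Th N} {Γ Δ : Ctx N F} (h : CNt θ Γ) (h' : CNt θ Δ) :
    CNt θ (Γ ++ Δ) := by
  intro sd r hr
  rcases List.mem_append.1 hr with hr | hr
  · exact h _ _ hr
  · exact h' _ _ hr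

lemma CNt1_append {θ : Th N} {Γ Δ : Ctx N F} (h : CNt1 θ Γ) (h' : CNt1 θ Δ) :
    CNt1 θ (Γ ++ Δ) := by
  intro sd r hr
  rcases List.mem_append.1 hr with hr | hr
  · exact h _ _ hr
  · exact h' _ _ hr

lemma CNt_cons {θ : Th N} {sd : Bool} {r : ITerm N F} {Δ : Ctx N F} (h : Nt θ r)
    (h' : CNt θ Δ) : CNt θ (.fpar sd r :: Δ) := by
  intro sd' r' hr
  rcases List.mem_cons.1 hr with hr | hr
  · cases hr
    exact h
  · exact h' _ _ hr

lemma CNt1_cons {θ : Th N} {sd : Bool} {r : ITerm N F} {Δ : Ctx N F} (h : Nt1 θ r)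
    (h' : CNt1 θ Δ) : CNt1 θ (.fpar sd r :: Δ) := by
  intro sd' r' hr
  rcases List.mem_cons.1 hr with hr | hr
  · cases hr
    exact h
  · exact h' _ _ hr

section

variable [Fintype N]

lemma Nt1_X0T {θ : Th N} (h : θ ≠ .z1) : Nt1 θ (X0T : ITerm N F) := by
  constructor
  · intro q hq
    rw [step_pre] at hq
    exact h (by simpa using hq.1)
  · intro μ q hq
    rw [step_pre] at hq
    simp at hq

lemma Nt1_tz {θ : Th N} {l : N × Bool} (h : θ ≠ .tz l.1 l.2) :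
    Nt1 θ (.pre (.th (.tz l.1 l.2)) .nil : ITerm N F) := by
  constructor
  · intro q hq
    rw [step_pre] at hq
    exact h (by simpa using hq.1)
  · intro μ q hq
    rw [step_pre] at hq
    simp at hq

lemma tx_inj : ∀ (b : N) (s : Bool) (b' : N) (s' : Bool), Th.tx b s = Th.tx b' s' →
    b = b' ∧ s = s' := by
  intro b s b' s' h
  simpa using h

lemma tz_inj : ∀ (b : N) (s : Bool) (b' : N) (s' : Bool), Th.tz b s = Th.tz b' s' →
    b = b' ∧ s = s' := by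
  intro b s b' s' h
  simpa using h

/-! ### Links -/

/-- The context-level form of `Lnk`. -/
def LC (G : Family N) (Γ : Ctx N F) : Prop :=
  ∃ s, Img Γ (.vis G.c s) .tau ∨ ∃ Γ', MStep Γ (.vis G.c s) Γ'

lemma LC_lnk {G : Family N} {Γ : Ctx N F} (h : LC G Γ) : Lnk G (plug Γ X0T) := by
  obtain ⟨s, h | ⟨Γ', h⟩⟩ := h
  · exact ⟨_, _, _, s, th_avail Γ .z1 XT, probe_mk_img Th.tx h, th_avail _ _ _⟩
  · exact ⟨_, _, _, s, th_avail Γ .z1 XT, probe_mk_meet Th.tx h, th_avail _ _ _⟩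

lemma lnk_LC {G : Family N} {Γ : Ctx N F} (h0 : CNt .z1 Γ) (h1 : ∀ s, CNt1 (.tx G.c s) Γ)
    (h : Lnk G (plug Γ X0T)) : LC G Γ := by
  obtain ⟨A₁, A₂, A₃, s, hz, ht, hx⟩ := h
  obtain ⟨h', hh, rfl⟩ := plug_th h0 hz
  rw [step_pre] at hh
  obtain ⟨_, rfl⟩ := hh
  rcases probe_inv tx_inj (h1 s) ht hx with ⟨h2, _⟩ | ⟨_, Γ', h2, _⟩
  · exact ⟨s, Or.inl h2⟩
  · exact ⟨s, Or.inr ⟨Γ', h2⟩⟩

lemma Lnk_congr {G : Family N} {A B : ITerm N F} (h : IBis A B) (hA : Lnk G A) : Lnk G B := by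
  obtain ⟨A₁, A₂, A₃, s, hz, ht, hx⟩ := hA
  obtain ⟨B₁, k1, e1⟩ := h.fwd hz
  obtain ⟨B₂, k2, e2⟩ := e1.fwd ht
  obtain ⟨B₃, k3, e3⟩ := e2.fwd hx
  exact ⟨B₁, B₂, B₃, s, k1, k2, k3⟩

lemma Lnk_plug {G : Family N} {A : ITerm N F} (Γ : Ctx N F) (hA : Lnk G A) :
    Lnk G (plug Γ A) := by
  obtain ⟨A₁, A₂, A₃, s, hz, ht, hx⟩ := hA
  exact ⟨_, _, _, s, step_plug hz (Img_th.2 rfl), step_plug ht (Img_tau.2 rfl),
    step_plug hx (Img_th.2 rfl)⟩

/-! ### Configurations -/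

/-- A configuration: after `j ≥ j₁` letters the term is
`E[ K[D j] ‖ Ξ[X0T] ]` and `D` performs the letters. -/
structure Conf (G : Family N) (E K Ξ : Ctx N F) (sd : Bool) (j₁ : ℕ) (D : ℕ → ITerm N F)
    (ρ : ℕ → N × Bool) : Prop where
  hj : j₁ ≤ G.m
  atR : ∀ j, j₁ ≤ j → j ≤ G.n → AtR G j (plug (E ++ .fpar sd (plug K (D j)) :: Ξ) X0T)
  img : ∀ j, j₁ ≤ j → j < G.n → Img (E ++ K) (lab (ρ j)) (lab (G.w j))

namespace Conf

variable {G : Family N} {E K Ξ : Ctx N F} {sd : Bool} {j₁ : ℕ} {D : ℕ → ITerm N F}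
  {ρ : ℕ → N × Bool}

lemma j₁_le (C : Conf G E K Ξ sd j₁ D ρ) : j₁ ≤ G.n := by
  have := C.hj
  have := G.hn
  omega

/-- After all the letters there are no ordinary moves. -/
lemma noact (C : Conf G E K Ξ sd j₁ D ρ) {μ : Action N} {q : ITerm N F} :
    ¬ IStep (plug (E ++ .fpar sd (plug K (D G.n)) :: Ξ) X0T) (.act μ) q := by
  intro h
  have := (AtR_step le_rfl (C.atR G.n C.j₁_le le_rfl) h).1
  exact lt_irrefl _ this

lemma notau (C : Conf G E K Ξ sd j₁ D ρ) {j : ℕ} (h1 : j₁ ≤ j) (h2 : j ≤ G.n)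
    {q : ITerm N F} : ¬ IStep (plug (E ++ .fpar sd (plug K (D j)) :: Ξ) X0T) .tau q := by
  intro h
  have := (AtR_step h2 (C.atR j h1 h2) h).2.1
  exact lab_ne_itau _ this.symm

/-- The labels `c` of `XT` are blocked. -/
lemma noev (C : Conf G E K Ξ sd j₁ D ρ) {j : ℕ} (h1 : j₁ ≤ j) (h2 : j ≤ G.n) (s : Bool) :
    ¬ Ev (E ++ .fpar sd (plug K (D j)) :: Ξ) (.vis G.c s) := by
  have hz := th_avail (E ++ .fpar sd (plug K (D j)) :: Ξ) .z1 (XT : ITerm N F)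
  rintro (⟨β, h⟩ | ⟨Γ', h⟩)
  · obtain ⟨μ, rfl⟩ := Img_act h
    exact AtR_z1 (C.atR j h1 h2) hz (probe_mk_img Th.tx h) (th_avail _ _ _)
  · exact AtR_z1 (C.atR j h1 h2) hz (probe_mk_meet Th.tx h) (th_avail _ _ _)

/-- Letters reach every name but `a`. -/
lemma cov (C : Conf G E K Ξ sd j₁ D ρ) {Γ Δ : Ctx N F}
    (h : ∀ α β, Img (E ++ K) α β → Img (Γ ++ Δ) α β) (b : N) (hb : b ≠ G.a) :
    ∃ (ζ : N × Bool) (s : Bool), Img Γ (lab ζ) (.vis b s) := by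
  obtain ⟨j, hj1, hj2, rfl⟩ := G.hcov b hb
  have h1 := h _ _ (C.img j (C.hj.trans hj1) hj2)
  rw [Img_append] at h1
  obtain ⟨γ, h2, h3⟩ := h1
  obtain ⟨b', s', rfl⟩ := Img_vis h3
  exact ⟨(b', s'), _, h3⟩

/-- No component of `K` can, after a move, link with `XT`. -/
lemma noLinkK (C : Conf G E K Ξ sd j₁ D ρ) {K₁ K₂ : Ctx N F} {s₀ : Bool} {r r₁ r₂ : ITerm N F}
    (hK : K = K₁ ++ .fpar s₀ r :: K₂) {q : N × Bool} (hq : IStep r (lab q) r₁) {α : IAct N}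
    (hr : IStep r₁ α r₂) {l : N × Bool} (hl : Img K₁ α (lab (bar l))) {t : Bool}
    (hx : Img Ξ (.vis G.c t) (lab l)) : False := by
  obtain ⟨κ, rfl⟩ := Img_lab hl
  have hcov : ∀ b, b ≠ G.a → ∃ (ζ : N × Bool) (s : Bool), Img (E ++ K₁) (lab ζ) (.vis b s) := by
    refine C.cov (Δ := .fpar s₀ r :: K₂) ?_
    intro α β h
    rw [hK] at h
    rwa [List.append_assoc]
  have hname : q.1 = κ.1 := by
    refine three_names hcov ?_ ?_
    · rintro ⟨β, h⟩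
      obtain ⟨μ, rfl⟩ := Img_act h
      refine C.noact (μ := μ) (q := plug (E ++ .fpar (!sd) (plug Ξ X0T) ::
        (K₁ ++ .fpar s₀ r₁ :: K₂)) (D G.n)) ?_
      rw [two_flip, hK]
      refine step_plugC _ ?_
      have := CStep_of_split (Γ₁ := E ++ .fpar (!sd) (plug Ξ X0T) :: K₁) (Γ₂ := K₂) (sd := s₀)
        hq (Img_fpar.2 h)
      simpa using this
    · rintro ⟨β, h⟩
      rw [Img_append] at h
      obtain ⟨γ, h1, h2⟩ := h
      cases Img_fun h1 hl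
      have h3 : Img E (lab l) β.compl := by
        have := Img_compl h2
        rwa [lab_compl, bar_bar] at this
      refine C.noev C.j₁_le le_rfl t (Or.inl ⟨β.compl, ?_⟩)
      rw [Img_fpar, Img_append]
      exact ⟨_, hx, h3⟩
  rcases eq_or_bar hname with h | h
  · subst h
    refine C.noev C.j₁_le le_rfl t
      (Or.inr ⟨E ++ .fpar sd (plug (K₁ ++ .fpar s₀ r₁ :: K₂) (D G.n)) :: Ξ, ?_⟩)
    refine MStep_of_split (Γ₁ := E) (Γ₂ := Ξ) (sd := sd) (b := l.1) (s := l.2)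
      (r' := plug (K₁ ++ .fpar s₀ r₁ :: K₂) (D G.n)) ?_ hx
    rw [hK]
    exact step_plugC _ (CStep_of_split hq hl)
  · subst h
    refine C.noev C.j₁_le le_rfl (!t)
      (Or.inr ⟨E ++ .fpar sd (plug (K₁ ++ .fpar s₀ r₁ :: K₂) (D G.n)) :: Ξ, ?_⟩)
    refine MStep_of_split (Γ₁ := E) (Γ₂ := Ξ) (sd := sd) (b := l.1) (s := !l.2)
      (r' := plug (K₁ ++ .fpar s₀ r₁ :: K₂) (D G.n)) ?_ ?_
    · rw [hK]
      refine step_plugC _ (CStep_of_split hq ?_)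
      have := Img_bar hl
      simpa [bar] using this
    · exact Img_bar (l := (G.c, t)) hx

/-- No component of `E` can, after a move, link with `XT`. -/
lemma noLinkE (C : Conf G E K Ξ sd j₁ D ρ) {E₁ E₂ : Ctx N F} {s₀ : Bool} {r r₁ r₂ : ITerm N F}
    (hE : E = E₁ ++ .fpar s₀ r :: E₂) {q : N × Bool} (hq : IStep r (lab q) r₁)
    {l : N × Bool} (hr : IStep r₁ (lab (bar l)) r₂) {t : Bool}
    (hx : Img (E₂ ++ Ξ) (.vis G.c t) (lab l)) : False := by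
  have hcov : ∀ b, b ≠ G.a → ∃ (ζ : N × Bool) (s : Bool), Img E₁ (lab ζ) (.vis b s) := by
    refine C.cov (Δ := .fpar s₀ r :: (E₂ ++ K)) ?_
    intro α β h
    rw [hE] at h
    simpa using h
  have hname : q.1 = (bar l).1 := by
    refine three_names hcov ?_ ?_
    · rintro ⟨β, h⟩
      obtain ⟨μ, rfl⟩ := Img_act h
      refine C.noact (μ := μ) (q := plug (E₁ ++ .fpar s₀ r₁ ::
        (E₂ ++ .fpar sd (plug K (D G.n)) :: Ξ)) X0T) ?_
      rw [hE]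
      refine step_plugC _ ?_
      have := CStep_of_split (Γ₁ := E₁) (Γ₂ := E₂ ++ .fpar sd (plug K (D G.n)) :: Ξ) (sd := s₀)
        hq h
      simpa using this
    · rintro ⟨β, h⟩
      have h3 : Img E₁ (lab l) β.compl := by
        have := Img_compl h
        rwa [lab_compl, bar_bar] at this
      refine C.noev C.j₁_le le_rfl t (Or.inl ⟨β.compl, ?_⟩)
      rw [Img_fpar, hE, List.append_assoc, List.cons_append, Img_fpar, Img_append]
      exact ⟨_, hx, h3⟩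
  rcases eq_or_bar hname with h | h
  · subst h
    refine C.noev C.j₁_le le_rfl t
      (Or.inr ⟨E₁ ++ .fpar s₀ r₁ :: (E₂ ++ .fpar sd (plug K (D G.n)) :: Ξ), ?_⟩)
    rw [hE, List.append_assoc, List.cons_append]
    refine MStep_of_split (Γ₁ := E₁) (Γ₂ := E₂ ++ .fpar sd (plug K (D G.n)) :: Ξ) (sd := s₀)
      (b := l.1) (s := l.2) hq ?_
    rw [Img_fpar]
    exact hx
  · rw [bar_bar] at h
    subst h
    refine C.noev C.j₁_le le_rfl (!t)
      (Or.inr ⟨E₁ ++ .fpar s₀ r₁ :: (E₂ ++ .fpar sd (plug K (D G.n)) :: Ξ), ?_⟩)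
    rw [hE, List.append_assoc, List.cons_append]
    refine MStep_of_split (Γ₁ := E₁) (Γ₂ := E₂ ++ .fpar sd (plug K (D G.n)) :: Ξ) (sd := s₀)
      (b := q.1) (s := !q.2) (r' := r₁) ?_ ?_
    · simpa using hq
    · rw [Img_fpar]
      exact Img_bar (l := (G.c, t)) hx

end Conf

end

end Pool.Agent.Lib.MP_1be8fd_lc
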