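import Pool.Agent.Lib.MP_1be8fd_lc.CoreA

set_option autoImplicit false
set_option linter.unusedSectionVars false

namespace Pool.Agent.Lib.MP_1be8fd_lc

variable {N : Type} {F : Set (Relabelling N)}

section

variable {R : ITerm N F → ITerm N F → Prop}

lemma CRel_mem {Γ Γ₁ : Ctx N F} (h : CRel R Γ Γ₁) {sd : Bool} {r₁ : ITerm N F}
    (hr : Frame.fpar sd r₁ ∈ Γ₁) : ∃ r, Frame.fpar sd r ∈ Γ ∧ R r r₁ := by
  induction h with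
  | nil => cases hr
  | cons hf _ ih =>
    rcases List.mem_cons.1 hr with hr | hr
    · subst hr
      cases hf with
      | fpar _ h => exact ⟨_, List.mem_cons_self, h⟩
    · obtain ⟨r, h1, h2⟩ := ih hr
      exact ⟨r, List.mem_cons_of_mem _ h1, h2⟩

lemma CRel_mem' {Γ Γ₁ : Ctx N F} (h : CRel R Γ Γ₁) {sd : Bool} {r : ITerm N F}
    (hr : Frame.fpar sd r ∈ Γ) : ∃ r₁, Frame.fpar sd r₁ ∈ Γ₁ ∧ R r r₁ := by
  induction h with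
  | nil => cases hr
  | cons hf _ ih =>
    rcases List.mem_cons.1 hr with hr | hr
    · subst hr
      cases hf with
      | fpar _ h => exact ⟨_, List.mem_cons_self, h⟩
    · obtain ⟨r, h1, h2⟩ := ih hr
      exact ⟨r, List.mem_cons_of_mem _ h1, h2⟩

lemma FRel_flip {f g : Frame N F (ITerm N F)} (h : FRel R f g) : FRel (flip R) g f := by
  cases h with
  | fpar sd h => exact .fpar sd h
  | fres L => exact .fres L
  | frel f => exact .frel f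

lemma CRel_flip {Γ Γ₁ : Ctx N F} (h : CRel R Γ Γ₁) : CRel (flip R) Γ₁ Γ := by
  induction h with
  | nil => exact .nil
  | cons hf _ ih => exact .cons (FRel_flip hf) ih

namespace MarkRel

variable (hR : MarkRel R)

include hR

lemma avail {p p₁ : ITerm N F} (h : R p p₁) {b : N} {s : Bool} {q₁ : ITerm N F}
    (hs : IStep p₁ (.vis b s) q₁) : ∃ q, IStep p (.vis b s) q := by
  rcases hR.bwd p p₁ h b s q₁ hs with ⟨q, h1, _⟩ | ⟨⟨q, h1⟩, _⟩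
  · exact ⟨q, h1⟩
  · exact ⟨q, h1⟩

lemma cnt1 {Γ Γ₁ : Ctx N F} (h : CRel R Γ Γ₁) {θ : Th N} (hθ : θ ≠ .z0) : CNt1 θ Γ := by
  intro sd r hr
  obtain ⟨r₁, _, h1⟩ := CRel_mem' h hr
  exact (hR.nt _ _ h1 θ hθ).1

lemma cnt1' {Γ Γ₁ : Ctx N F} (h : CRel R Γ Γ₁) {θ : Th N} (hθ : θ ≠ .z0) (hθ' : θ ≠ .mk) :
    CNt1 θ Γ₁ := by
  intro sd r hr
  obtain ⟨r₁, _, h1⟩ := CRel_mem h hr
  exact hR.nt1 _ _ h1 θ hθ hθ'

lemma cnt {Γ Γ₁ : Ctx N F} (h : CRel R Γ Γ₁) {θ : Th N} (hθ : θ ≠ .z0) : CNt θ Γ₁ := by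
  intro sd r hr
  obtain ⟨r₁, _, h1⟩ := CRel_mem h hr
  exact (hR.nt _ _ h1 θ hθ).2

lemma meetUp {Γ Γ₁ Θ : Ctx N F} (h : CRel R Γ Γ₁) {α : IAct N} (hm : MStep Γ₁ α Θ) :
    ∃ Θ', MStep Γ α Θ' :=
  CRel_MStep (R := flip R) (fun _ _ h _ _ _ hs => hR.avail h hs) (CRel_flip h) hm

lemma cstepUp {Γ Γ₁ Θ : Ctx N F} (h : CRel R Γ Γ₁) {b : N} {s : Bool}
    (hm : CStep Γ₁ (.vis b s) Θ) : ∃ Θ', CStep Γ (.vis b s) Θ' :=
  CRel_CStep (R := flip R) (fun _ _ h _ _ _ hs => hR.avail h hs) (CRel_flip h) hm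

lemma meetFwd {Γ Γ₁ Γ' : Ctx N F} (h : CRel R Γ Γ₁) {α : IAct N} (hm : MStep Γ α Γ') :
    ∃ Γ₁', MStep Γ₁ α Γ₁' ∧ CRel R Γ' Γ₁' := by
  obtain ⟨Δ₁, sd, r, r', Δ₂, b, s, rfl, rfl, hs, hi⟩ := MStep_split hm
  obtain ⟨Θ₁, r₁, Θ₂, rfl, h1, h2, h3⟩ := CRel_split h
  obtain ⟨r₁', hs', h4⟩ := hR.fwd _ _ h2 _ _ hs
  exact ⟨_, MStep_of_split hs' ((CRel_Img h3).1 hi), CRel_append h1 (.cons (.fpar sd h4) h3)⟩

lemma cstepFwd {Γ Γ₁ Γ' : Ctx N F} (h : CRel R Γ Γ₁) {l : N × Bool}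
    (hm : CStep Γ (lab l) Γ') : ∃ Γ₁', CStep Γ₁ (lab l) Γ₁' ∧ CRel R Γ' Γ₁' := by
  obtain ⟨Δ₁, sd, r, r', Δ₂, α, rfl, rfl, hs, hi⟩ := CStep_split hm
  obtain ⟨l', rfl⟩ := Img_lab hi
  obtain ⟨Θ₁, r₁, Θ₂, rfl, h1, h2, h3⟩ := CRel_split h
  obtain ⟨r₁', hs', h4⟩ := hR.fwd _ _ h2 _ _ hs
  exact ⟨_, CStep_of_split hs' ((CRel_Img h1).1 hi), CRel_append h1 (.cons (.fpar sd h4) h3)⟩

lemma meetBwd {Γ Γ₁ Γ₁' : Ctx N F} (h : CRel R Γ Γ₁) {α : IAct N} (hm : MStep Γ₁ α Γ₁') :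
    (∃ Γ', MStep Γ α Γ' ∧ CRel R Γ' Γ₁') ∨ ∀ g, ∃ q, IStep (plug Γ₁' g) (.th .mk) q := by
  obtain ⟨Δ₁, sd, r₁, r₁', Δ₂, b, s, rfl, rfl, hs, hi⟩ := MStep_split hm
  obtain ⟨Θ₁, r, Θ₂, rfl, h1, h2, h3⟩ := CRel_split' h
  rcases hR.bwd _ _ h2 _ _ _ hs with ⟨r', hs', h4⟩ | ⟨_, q, hq⟩
  · exact Or.inl ⟨_, MStep_of_split hs' ((CRel_Img h3).2 hi),
      CRel_append h1 (.cons (.fpar sd h4) h3)⟩
  · exact Or.inr fun g => ⟨_, step_plugC _ (CStep_of_split hq (Img_th.2 rfl))⟩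

lemma cstepBwd {Γ Γ₁ Γ₁' : Ctx N F} (h : CRel R Γ Γ₁) {l : N × Bool}
    (hm : CStep Γ₁ (lab l) Γ₁') :
    (∃ Γ', CStep Γ (lab l) Γ' ∧ CRel R Γ' Γ₁') ∨ ∀ g, ∃ q, IStep (plug Γ₁' g) (.th .mk) q := by
  obtain ⟨Δ₁, sd, r₁, r₁', Δ₂, α, rfl, rfl, hs, hi⟩ := CStep_split hm
  obtain ⟨l', rfl⟩ := Img_lab hi
  obtain ⟨Θ₁, r, Θ₂, rfl, h1, h2, h3⟩ := CRel_split' h
  rcases hR.bwd _ _ h2 _ _ _ hs with ⟨r', hs', h4⟩ | ⟨_, q, hq⟩
  · exact Or.inl ⟨_, CStep_of_split hs' ((CRel_Img h1).2 hi),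
      CRel_append h1 (.cons (.fpar sd h4) h3)⟩
  · exact Or.inr fun g => ⟨_, step_plugC _ (CStep_of_split hq (Img_th.2 rfl))⟩

end MarkRel

variable [Fintype N]

/-- the residual of the probe `ZT` -/
abbrev tzT (l : N × Bool) : ITerm N F := .pre (.th (.tz l.1 l.2)) .nil

lemma nolab_tz {l : N × Bool} {Γ : Ctx N F} {α : IAct N} {q : ITerm N F} {l' : N × Bool}
    (h : IStep (tzT l : ITerm N F) α q) : ¬ Img Γ α (lab l') := by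
  rw [step_pre] at h
  rw [h.1, Img_th]
  intro h
  cases h

namespace Conf

variable {G : Family N} {E K Ξ E₁ K₁ Ξ₁ : Ctx N F} {sd : Bool} {j₁ : ℕ} {D : ℕ → ITerm N F}
  {ρ : ℕ → N × Bool}

/-- In a marked configuration in which the probe synchronised with a component of `K`, there is
no link. -/
lemma noK (C : Conf G E K Ξ sd j₁ D ρ) (hR : MarkRel R) (hE : CRel R E E₁) (hΞ : CRel R Ξ Ξ₁)
    {γ : IAct N} {K' K₁' : Ctx N F} (hm : MStep K γ K') (hK' : CRel R K' K₁')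
    (l : N × Bool) :
    ¬ Lnk G (plug (E₁ ++ .fpar sd (plug K₁' (tzT l)) :: Ξ₁) X0T) := by
  intro hL
  obtain ⟨s, hs | ⟨Θ, hs⟩⟩ := lnk_LC
    (CNt_append (hR.cnt hE (by simp)) (CNt_cons (Nt_plug (hR.cnt hK' (by simp))
      (Nt1_tz (by simp)).1) (hR.cnt hΞ (by simp))))
    (fun s => CNt1_append (hR.cnt1' hE (by simp) (by simp)) (CNt1_cons
      (Nt1_plug (hR.cnt1' hK' (by simp) (by simp)) (Nt1_tz (by simp)))
      (hR.cnt1' hΞ (by simp) (by simp)))) hL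
  · rw [Img_fpar, ← CRel_Img (CRel_append hE hΞ)] at hs
    exact C.noev C.j₁_le le_rfl s (Or.inl ⟨_, Img_fpar.2 hs⟩)
  · rw [MStep_append] at hs
    rcases hs with ⟨γ', E', h1, h2, rfl⟩ | ⟨Δ', h1, rfl⟩
    · obtain ⟨γ'', h1, h3⟩ := h1
      cases h3
      obtain ⟨Θ, h4⟩ := hR.meetUp hE h2
      refine C.noev C.j₁_le le_rfl s (Or.inr ⟨_, MStep_append.2 (Or.inl ⟨_, _, ?_, h4, rfl⟩)⟩)
      exact ⟨_, (CRel_Img hΞ).2 h1, rfl⟩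
    · cases h1 with
      | @here _ _ r' _ _ b t hi hs =>
        rcases plug_inv_ne hs (by simp) with ⟨α, h', h2, h3, _⟩ | ⟨Θ, h2, _⟩
        · exact nolab_tz (l' := (b, !t)) h2 h3
        · obtain ⟨Θ', h3⟩ := hR.cstepUp hK' h2
          obtain ⟨Ka, s₀, r, r₁, Kb, b₀, t₀, rfl, rfl, hr, _⟩ := MStep_split hm
          rcases CStep_replace r h3 with ⟨Θ₂, h4⟩ | ⟨α, r₂, h4, h5⟩
          · refine C.noev C.j₁_le le_rfl s (Or.inr ⟨E ++ .fpar sd (plug Θ₂ (D G.n)) :: Ξ, ?_⟩)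
            exact MStep_of_split (step_plugC _ h4) ((CRel_Img hΞ).2 hi)
          · exact C.noLinkK rfl (q := (b₀, !t₀)) hr h4 (l := (b, t)) h5 ((CRel_Img hΞ).2 hi)
      | there h2 =>
        obtain ⟨Θ, h3⟩ := hR.meetUp hΞ h2
        exact C.noev C.j₁_le le_rfl s
          (Or.inr ⟨_, MStep_append.2 (Or.inr ⟨_, .there h3, rfl⟩)⟩)

/-- In a marked configuration in which the probe synchronised with a component of `E`, there is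
no link. -/
lemma noE (C : Conf G E K Ξ sd j₁ D ρ) (hR : MarkRel R) (hK : CRel R K K₁) (hΞ : CRel R Ξ Ξ₁)
    {γ : IAct N} {E' E₁' : Ctx N F} (hm : MStep E γ E') (hE' : CRel R E' E₁')
    (l : N × Bool) :
    ¬ Lnk G (plug (E₁' ++ .fpar sd (plug K₁ (tzT l)) :: Ξ₁) X0T) := by
  intro hL
  obtain ⟨s, hs | ⟨Θ, hs⟩⟩ := lnk_LC
    (CNt_append (hR.cnt hE' (by simp)) (CNt_cons (Nt_plug (hR.cnt hK (by simp))
      (Nt1_tz (by simp)).1) (hR.cnt hΞ (by simp))))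
    (fun s => CNt1_append (hR.cnt1' hE' (by simp) (by simp)) (CNt1_cons
      (Nt1_plug (hR.cnt1' hK (by simp) (by simp)) (Nt1_tz (by simp)))
      (hR.cnt1' hΞ (by simp) (by simp)))) hL
  · rw [Img_fpar, ← CRel_Img (CRel_append hE' hΞ), Img_append] at hs
    obtain ⟨γ', h1, h2⟩ := hs
    rw [MStep_Img hm] at h2
    exact C.noev C.j₁_le le_rfl s (Or.inl ⟨_, Img_fpar.2 (Img_append.2 ⟨_, h1, h2⟩)⟩)
  · rw [MStep_append] at hs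
    rcases hs with ⟨γ', E'', h1, h2, rfl⟩ | ⟨Δ', h1, rfl⟩
    · obtain ⟨γ'', h1, h3⟩ := h1
      cases h3
      obtain ⟨Θ, h4⟩ := hR.meetUp hE' h2
      obtain ⟨Ea, s₀, r, r₁, Eb, b₀, t₀, rfl, rfl, hr, _⟩ := MStep_split hm
      rcases MStep_replace r h4 with ⟨Θ₂, h5⟩ | ⟨b, t, r₂, h5, h6⟩
      · refine C.noev C.j₁_le le_rfl s (Or.inr ⟨_, MStep_append.2 (Or.inl ⟨_, _, ?_, h5, rfl⟩)⟩)
        exact ⟨_, (CRel_Img hΞ).2 h1, rfl⟩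
      · refine C.noLinkE rfl (q := (b₀, !t₀)) hr (l := (b, t)) h5 (t := s) ?_
        exact Img_append.2 ⟨_, (CRel_Img hΞ).2 h1, h6⟩
    · cases h1 with
      | @here _ _ r' _ _ b t hi hs =>
        rcases plug_inv_ne hs (by simp) with ⟨α, h', h2, h3, _⟩ | ⟨Θ, h2, _⟩
        · exact nolab_tz (l' := (b, !t)) h2 h3
        · obtain ⟨Θ', h3⟩ := hR.cstepUp hK h2
          refine C.noev C.j₁_le le_rfl s (Or.inr ⟨E ++ .fpar sd (plug Θ' (D G.n)) :: Ξ, ?_⟩)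
          exact MStep_of_split (step_plugC _ h3) ((CRel_Img hΞ).2 hi)
      | there h2 =>
        obtain ⟨Θ, h3⟩ := hR.meetUp hΞ h2
        exact C.noev C.j₁_le le_rfl s
          (Or.inr ⟨_, MStep_append.2 (Or.inr ⟨_, .there h3, rfl⟩)⟩)

end Conf

end

end Pool.Agent.Lib.MP_1be8fd_lc
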