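import Pool.Agent.Lib.MP_1be8fd_lc.CoreB

set_option autoImplicit false
set_option linter.unusedSectionVars false

namespace Pool.Agent.Lib.MP_1be8fd_lc

variable {N : Type} {F : Set (Relabelling N)} [Fintype N]

/-- Every step of `H` after which the marker `tz γ` is available is internal, and leads to a
linked term or to a term in which the marker `mk` is available. -/
def LP (G : Family N) (H : ITerm N F) (γ : N × Bool) : Prop :=
  ∀ μ Q Q', IStep H (.act μ) Q → IStep Q (.th (.tz γ.1 γ.2)) Q' →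
    μ = Action.tau ∧ (Lnk G Q ∨ ∃ Q'', IStep Q (.th .mk) Q'')

lemma LP_congr {G : Family N} {H H' : ITerm N F} {γ : N × Bool} (h : IBis H H')
    (hL : LP G H γ) : LP G H' γ := by
  intro μ Q Q' h1 h2
  obtain ⟨P, h3, h4⟩ := h.bwd h1
  obtain ⟨P', h5, _⟩ := h4.bwd h2
  obtain ⟨h6, h7 | ⟨P'', h7⟩⟩ := hL _ _ _ h3 h5
  · exact ⟨h6, Or.inl (Lnk_congr h4 h7)⟩
  · obtain ⟨Q'', h8, _⟩ := h4.fwd h7
    exact ⟨h6, Or.inr ⟨Q'', h8⟩⟩

/-- The hypotheses on the label `χ` in a configuration. -/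
structure Chi (G : Family N) (E K Ξ : Ctx N F) (D : ℕ → ITerm N F) (χ : N × Bool) : Prop where
  last : ∃ q, IStep (plug K (D G.n)) (lab χ) q
  early : ∀ j, G.m < j → j < G.n → ¬ ∃ q, IStep (plug K (D j)) (lab χ) q
  linkE : ∃ q, IStep (plug Ξ X0T) (lab χ) q
  linkA : ∀ q, IStep (plug Ξ X0T) (lab χ) q → Lnk G q
  nev : ¬ Ev E (lab χ)
  nev' : ¬ Ev E (lab (bar χ))

section

variable {R : ITerm N F → ITerm N F → Prop} {G : Family N} {E K Ξ E₁ K₁ Ξ₁ : Ctx N F}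
  {sd : Bool} {j₁ : ℕ} {D : ℕ → ITerm N F} {ρ : ℕ → N × Bool} {χ : N × Bool}

/-- label moves of `Ξ[X0T]` are moves of components -/
lemma A_inv {Ξ : Ctx N F} {l : N × Bool} {q : ITerm N F}
    (h : IStep (plug Ξ X0T) (lab l) q) : ∃ Ξ', CStep Ξ (lab l) Ξ' ∧ q = plug Ξ' X0T := by
  rcases plug_inv_ne h (by simp) with ⟨α, h', h1, h2, _⟩ | h1
  · rw [step_pre] at h1
    rw [h1.1, Img_th] at h2
    cases h2
  · exact h1

/-- `K` has no component that can do `χ`. -/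
lemma Chi.noK (X : Chi G E K Ξ D χ) {Θ : Ctx N F} : ¬ CStep K (lab χ) Θ := by
  intro h
  have := G.hn
  exact X.early (G.m + 1) (by omega) (by omega) ⟨_, step_plugC _ h⟩

/-- The last `χ` is performed by `D`. -/
lemma Chi.hole (X : Chi G E K Ξ D χ) :
    ∃ (r : N × Bool) (q : ITerm N F), IStep (D G.n) (lab r) q ∧ Img K (lab r) (lab χ) := by
  obtain ⟨q, h⟩ := X.last
  rcases plug_inv_ne h (by simp) with ⟨α, h', h1, h2, _⟩ | ⟨Γ', h1, _⟩
  · obtain ⟨r, rfl⟩ := Img_lab h2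
    exact ⟨r, h', h1, h2⟩
  · exact absurd h1 X.noK

/-- The conditions under which we may invert transitions of marked configurations. -/
lemma cnt1_tz (hR : MarkRel R) (hE : CRel R E E₁) (hK : CRel R K K₁) (hΞ : CRel R Ξ Ξ₁)
    (sd : Bool) (b : N) (s : Bool) :
    CNt1 (.tz b s) (E₁ ++ .fpar sd (plug Ξ₁ X0T) :: K₁) :=
  CNt1_append (hR.cnt1' hE (by simp) (by simp)) (CNt1_cons
    (Nt1_plug (hR.cnt1' hΞ (by simp) (by simp)) (Nt1_X0T (by simp)))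
    (hR.cnt1' hK (by simp) (by simp)))

/-- no `mk` in a related configuration with the probe used -/
lemma nomk (hR : MarkRel R) (hE : CRel R E E₁) (hK : CRel R K K₁) (hΞ : CRel R Ξ Ξ₁)
    (sd : Bool) (l : N × Bool) :
    Nt .mk (plug (E₁ ++ .fpar sd (plug Ξ₁ X0T) :: K₁) (tzT l)) := by
  refine Nt_plug (CNt_append (hR.cnt hE (by simp)) (CNt_cons
    (Nt_plug (hR.cnt hΞ (by simp)) (Nt1_X0T (by simp)).1) (hR.cnt hK (by simp)))) ?_
  exact (Nt1_tz (by simp)).1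

/-- a link of `A` gives a link of the whole -/
lemma link_up (hR : MarkRel R) {Ξ' Ξ₁' : Ctx N F} (hΞ' : CRel R Ξ' Ξ₁')
    (h : Lnk G (plug Ξ' X0T)) (E₁ K₁ : Ctx N F) (sd : Bool) (g : ITerm N F) :
    Lnk G (plug (E₁ ++ .fpar sd (plug Ξ₁' X0T) :: K₁) g) := by
  obtain ⟨s, h1⟩ := lnk_LC (hR.cnt1 hΞ' (by simp)).CNt (fun s => hR.cnt1 hΞ' (by simp)) h
  have h2 : LC G Ξ₁' := by
    refine ⟨s, ?_⟩
    rcases h1 with h1 | ⟨Γ', h1⟩
    · exact Or.inl ((CRel_Img hΞ').1 h1)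
    · obtain ⟨Γ'', h3, _⟩ := hR.meetFwd hΞ' h1
      exact Or.inr ⟨Γ'', h3⟩
  have h3 := Lnk_plug (E₁ ++ [.fpar (!sd) (plug K₁ g)]) (LC_lnk h2)
  have h4 : plug (E₁ ++ [.fpar (!sd) (plug K₁ g)]) (plug Ξ₁' X0T) =
      plug (E₁ ++ .fpar sd (plug Ξ₁' X0T) :: K₁) g := by
    rw [plug_append, plug_append]
    simp only [plug]
    congr 1
    rw [app_flip, Bool.not_not]
  rwa [h4] at h3

/-- The first main claim. -/
lemma E1 (X : Chi G E K Ξ D χ) (hR : MarkRel R) (hE : CRel R E E₁)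
    (hK : CRel R K K₁) (hΞ : CRel R Ξ Ξ₁) {r : N × Bool} (hr : Img K (lab r) (lab χ)) :
    LP G (plug (E₁ ++ .fpar (!sd) (plug Ξ₁ X0T) :: K₁) ZT) (bar r) := by
  intro μ Q Q' hs hq
  have hr' : Img K₁ (lab (bar r)) (lab (bar χ)) := Img_bar ((CRel_Img hK).1 hr)
  rcases probe_inv tz_inj (cnt1_tz hR hE hK hΞ _ _ _) hs hq with ⟨h1, _⟩ | ⟨rfl, Γ', h1, rfl⟩
  · exfalso
    rw [Img_fpar, Img_append] at h1
    obtain ⟨γ, h1, h2⟩ := h1
    cases Img_fun h1 hr'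
    exact X.nev' (Or.inl ⟨_, (CRel_Img hE).2 h2⟩)
  · refine ⟨rfl, ?_⟩
    rw [MStep_append] at h1
    rcases h1 with ⟨γ, E', h1, h2, rfl⟩ | ⟨Δ', h1, rfl⟩
    · exfalso
      obtain ⟨γ', h1, h3⟩ := h1
      cases h3
      cases Img_fun h1 hr'
      obtain ⟨Θ, h4⟩ := hR.meetUp hE h2
      exact X.nev' (Or.inr ⟨_, h4⟩)
    · cases h1 with
      | @here _ _ r' _ _ b t hi hs' =>
        have e := lab_inj (l := bar χ) (l' := (b, t)) (Img_fun hr' hi)
        have e' : (b, !t) = χ := by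
          have : bar (b, t) = χ := by rw [← e, bar_bar]
          exact this
        have hs2 : IStep (plug Ξ₁ X0T) (lab χ) r' := by
          rw [← e']
          exact hs'
        obtain ⟨Ξ₁', h3, rfl⟩ := A_inv hs2
        rcases hR.cstepBwd hΞ h3 with ⟨Ξ', h4, h5⟩ | h4
        · left
          exact link_up hR h5 (X.linkA _ (step_plugC _ h4)) _ _ _ _
        · right
          obtain ⟨q, hq⟩ := h4 X0T
          refine ⟨_, step_plugC _ (CStep_of_split hq (Img_th.2 rfl))⟩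
      | there h2 =>
        exfalso
        obtain ⟨Θ, h3⟩ := hR.meetUp hK h2
        obtain ⟨Ka, s₀, r₀, r₁, Kb, b, t, rfl, rfl, hs', hi⟩ := MStep_split h3
        rw [Img_append] at hr
        obtain ⟨δ, ⟨δ', h4, h5⟩, h6⟩ := hr
        cases h5
        have h7 : Img Kb (lab r) (lab (bar (b, t))) := Img_bar' (l' := (b, t)) hi
        cases Img_fun h4 h7
        exact X.noK (CStep_of_split (r' := r₁) hs' h6)

/-- An event: the probe synchronises with `A`. -/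
lemma event (hR : MarkRel R) (hΞ : CRel R Ξ Ξ₁) {l γ : N × Bool}
    (hi : Img K₁ (lab γ) (lab (bar l))) {Ξ' : Ctx N F} (hs : CStep Ξ (lab l) Ξ')
    (E₁ : Ctx N F) (sd : Bool) :
    ∃ Ξ₁', CRel R Ξ' Ξ₁' ∧ IStep (plug (E₁ ++ .fpar sd (plug Ξ₁ X0T) :: K₁) ZT) .tau
      (plug (E₁ ++ .fpar sd (plug Ξ₁' X0T) :: K₁) (tzT γ)) := by
  obtain ⟨Ξ₁', h1, h2⟩ := hR.cstepFwd hΞ hs
  refine ⟨Ξ₁', h2, ?_⟩
  refine probe_mk_meet Th.tz (MStep_append.2 (Or.inr ⟨_, .here (b := l.1) (s := !l.2) hi ?_,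
    rfl⟩))
  rw [Bool.not_not]
  exact step_plugC _ h1

end

end Pool.Agent.Lib.MP_1be8fd_lc
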