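import Pool.Agent.Lib.MP_1be8fd_lc.CoreC

set_option autoImplicit false
set_option linter.unusedSectionVars false

namespace Pool.Agent.Lib.MP_1be8fd_lc

variable {N : Type} {F : Set (Relabelling N)} [Fintype N]

section

variable {R : ITerm N F → ITerm N F → Prop} {G : Family N} {E K Ξ E₁ K₁ Ξ₁ : Ctx N F}
  {sd : Bool} {j₁ : ℕ} {D : ℕ → ITerm N F} {ρ : ℕ → N × Bool} {χ : N × Bool}

/-- No component of `K` can synchronise with the probe doing `γ`. -/
lemma noMeetK (C : Conf G E K Ξ sd j₁ D ρ) (hR : MarkRel R) (hE : CRel R E E₁)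
    (hK : CRel R K K₁) (hΞ : CRel R Ξ Ξ₁) {γ : N × Bool}
    (hLP : LP G (plug (E₁ ++ .fpar (!sd) (plug Ξ₁ X0T) :: K₁) ZT) γ) {Θ : Ctx N F} :
    ¬ MStep K (lab γ) Θ := by
  intro h
  obtain ⟨K₁', h1, h2⟩ := hR.meetFwd hK h
  have h3 : MStep (E₁ ++ .fpar (!sd) (plug Ξ₁ X0T) :: K₁) (lab γ)
      (E₁ ++ .fpar (!sd) (plug Ξ₁ X0T) :: K₁') := MStep_append.2 (Or.inr ⟨_, .there h1, rfl⟩)
  rcases (hLP _ _ _ (probe_mk_meet Th.tz h3) (th_avail _ _ _)).2 with h4 | ⟨Q, h4⟩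
  · have e := two_flip E₁ sd K₁' Ξ₁ (tzT γ) X0T
    rw [← e] at h4
    exact C.noK hR hE hΞ h h2 γ h4
  · exact nomk hR hE h2 hΞ _ _ _ h4

/-- No component of `E` can synchronise with the probe doing `γ`. -/
lemma noMeetE (C : Conf G E K Ξ sd j₁ D ρ) (hR : MarkRel R) (hE : CRel R E E₁)
    (hK : CRel R K K₁) (hΞ : CRel R Ξ Ξ₁) {γ : N × Bool}
    (hLP : LP G (plug (E₁ ++ .fpar (!sd) (plug Ξ₁ X0T) :: K₁) ZT) γ) {δ : IAct N}
    (hδ : Img K (lab γ) δ) {Θ : Ctx N F} : ¬ MStep E δ Θ := by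
  intro h
  obtain ⟨E₁', h1, h2⟩ := hR.meetFwd hE h
  have h3 : MStep (E₁ ++ .fpar (!sd) (plug Ξ₁ X0T) :: K₁) (lab γ)
      (E₁' ++ .fpar (!sd) (plug Ξ₁ X0T) :: K₁) :=
    MStep_append.2 (Or.inl ⟨δ, _, ⟨_, (CRel_Img hK).1 hδ, rfl⟩, h1, rfl⟩)
  rcases (hLP _ _ _ (probe_mk_meet Th.tz h3) (th_avail _ _ _)).2 with h4 | ⟨Q, h4⟩
  · have e := two_flip E₁' sd K₁ Ξ₁ (tzT γ) X0T
    rw [← e] at h4
    exact C.noE hR hK hΞ h h2 γ h4
  · exact nomk hR h2 hK hΞ _ _ _ h4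

/-- `A` is willing to do the image of `r`. -/
lemma find_chi (C : Conf G E K Ξ sd j₁ D ρ) (hR : MarkRel R) (hE : CRel R E E₁)
    (hK : CRel R K K₁) (hΞ : CRel R Ξ Ξ₁) {r : N × Bool}
    (hLP : LP G (plug (E₁ ++ .fpar (!sd) (plug Ξ₁ X0T) :: K₁) ZT) (bar r))
    {Q Q' q : ITerm N F}
    (hQ : IStep (plug (E₁ ++ .fpar (!sd) (plug Ξ₁ X0T) :: K₁) ZT) .tau Q)
    (hQ' : IStep Q (.th (.tz (bar r).1 (bar r).2)) Q') (hr : IStep (D G.n) (lab r) q) :
    ∃ χ : N × Bool, Img K (lab r) (lab χ) ∧ ∃ Ξ', CStep Ξ (lab χ) Ξ' := by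
  rcases probe_inv tz_inj (cnt1_tz hR hE hK hΞ _ _ _) hQ hQ' with ⟨h1, _⟩ | ⟨_, Γ', h1, _⟩
  · exfalso
    have h2 : Img (E ++ K) (lab r) .tau := by
      refine Img_bar_tau ?_
      rw [Img_fpar, ← CRel_Img (CRel_append hE hK)] at h1
      exact h1
    refine C.noact (μ := Action.tau) (q := plug (E ++ .fpar (!sd) (plug Ξ X0T) :: K) q) ?_
    rw [two_flip]
    exact step_plug hr (Img_fpar.2 h2)
  · rw [MStep_append] at h1
    rcases h1 with ⟨γ, E', h1, h2, rfl⟩ | ⟨Δ', h1, rfl⟩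
    · exfalso
      obtain ⟨γ', h1, h3⟩ := h1
      cases h3
      obtain ⟨Θ, h4⟩ := hR.meetUp hE h2
      exact noMeetE C hR hE hK hΞ hLP ((CRel_Img hK).2 h1) h4
    · cases h1 with
      | @here _ _ r' _ _ b t hi hs' =>
        have h5 : Img K (lab r) (lab (bar (b, t))) := Img_bar' ((CRel_Img hK).2 hi)
        refine ⟨bar (b, t), h5, ?_⟩
        obtain ⟨Ξ₁', h3, _⟩ := A_inv (l := (b, !t)) hs'
        exact hR.cstepUp hΞ h3
      | there h2 =>
        exfalso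
        obtain ⟨Θ, h3⟩ := hR.meetUp hK h2
        exact noMeetK C hR hE hK hΞ hLP h3

/-- Every `χ` of `A` is linked. -/
lemma link_chi (C : Conf G E K Ξ sd j₁ D ρ) (hR : MarkRel R) (hE : CRel R E E₁)
    (hK : CRel R K K₁) (hΞ : CRel R Ξ Ξ₁) {r χ : N × Bool}
    (hLP : LP G (plug (E₁ ++ .fpar (!sd) (plug Ξ₁ X0T) :: K₁) ZT) (bar r))
    (hr : Img K (lab r) (lab χ)) {q : ITerm N F} (hq : IStep (plug Ξ X0T) (lab χ) q) :
    Lnk G q := by
  obtain ⟨Ξ', h1, rfl⟩ := A_inv hq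
  have hi : Img K₁ (lab (bar r)) (lab (bar χ)) := Img_bar ((CRel_Img hK).1 hr)
  obtain ⟨Ξ₁', h2, h3⟩ := event hR hΞ hi h1 E₁ (!sd)
  rcases (hLP _ _ _ h3 (th_avail _ _ _)).2 with h4 | ⟨Q, h4⟩
  · have e := two_flip E₁ sd K₁ Ξ₁' (tzT (bar r)) X0T
    rw [← e] at h4
    obtain ⟨s, hs | ⟨Θ, hs⟩⟩ := lnk_LC
      (CNt_append (hR.cnt hE (by simp)) (CNt_cons (Nt_plug (hR.cnt hK (by simp))
        (Nt1_tz (by simp)).1) (hR.cnt h2 (by simp))))
      (fun s => CNt1_append (hR.cnt1' hE (by simp) (by simp)) (CNt1_cons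
        (Nt1_plug (hR.cnt1' hK (by simp) (by simp)) (Nt1_tz (by simp)))
        (hR.cnt1' h2 (by simp) (by simp)))) h4
    · exfalso
      rw [Img_fpar, ← CRel_Img (CRel_append hE h2), Img_append] at hs
      obtain ⟨γ', h5, h6⟩ := hs
      rw [CStep_Img h1] at h5
      exact C.noev C.j₁_le le_rfl s (Or.inl ⟨_, Img_fpar.2 (Img_append.2 ⟨_, h5, h6⟩)⟩)
    · rw [MStep_append] at hs
      rcases hs with ⟨γ', E', h5, h6, rfl⟩ | ⟨Δ', h5, rfl⟩
      · exfalso
        obtain ⟨γ'', h5, h7⟩ := h5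
        cases h7
        obtain ⟨Θ, h8⟩ := hR.meetUp hE h6
        refine C.noev C.j₁_le le_rfl s
          (Or.inr ⟨_, MStep_append.2 (Or.inl ⟨_, _, ?_, h8, rfl⟩)⟩)
        refine ⟨_, ?_, rfl⟩
        rw [← CStep_Img h1]
        exact (CRel_Img h2).2 h5
      · cases h5 with
        | @here _ _ r' _ _ b t hi' hs' =>
          exfalso
          rcases plug_inv_ne hs' (by simp) with ⟨α, h', h6, h7, _⟩ | ⟨Θ, h6, _⟩
          · exact nolab_tz (l' := (b, !t)) h6 h7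
          · obtain ⟨Θ', h7⟩ := hR.cstepUp hK h6
            refine C.noev C.j₁_le le_rfl s (Or.inr ⟨E ++ .fpar sd (plug Θ' (D G.n)) :: Ξ, ?_⟩)
            refine MStep_of_split (step_plugC _ h7) ?_
            rw [← CStep_Img h1]
            exact (CRel_Img h2).2 hi'
        | there h6 =>
          obtain ⟨Θ, h7⟩ := hR.meetUp h2 h6
          exact LC_lnk ⟨s, Or.inr ⟨_, h7⟩⟩
  · exfalso
    exact nomk hR hE hK h2 _ _ _ h4

end

/-- The core of the argument. -/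
theorem core {G : Family N} {R : ITerm N F → ITerm N F → Prop} (hR : MarkRel R)
    {E K Ξ E₁ K₁ Ξ₁ : Ctx N F} (hE : CRel R E E₁) (hK : CRel R K K₁) (hΞ : CRel R Ξ Ξ₁)
    {E' P' Ξ' E₁' P₁' Ξ₁' : Ctx N F} (hE' : CRel R E' E₁') (hP' : CRel R P' P₁')
    (hΞ' : CRel R Ξ' Ξ₁') {sd sd' : Bool} {j₁ : ℕ} {D : ℕ → ITerm N F} {ρ : ℕ → N × Bool}
    (hD : ∀ j, j₁ ≤ j → j < G.n → IStep (D j) (lab (ρ j)) (D (j + 1)))
    (C : Conf G E K Ξ sd j₁ D ρ)
    (hT' : AtR G j₁ (plug (E' ++ .fpar sd' (plug P' (D j₁)) :: Ξ') X0T))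
    (hH : IBis (plug (E₁ ++ .fpar sd (plug K₁ ZT) :: Ξ₁) X0T)
      (plug (E₁' ++ .fpar sd' (plug P₁' ZT) :: Ξ₁') X0T))
    {χ : N × Bool} (X : Chi G E K Ξ D χ) :
    Conf G E' P' Ξ' sd' j₁ D ρ ∧ ∃ χ', Chi G E' P' Ξ' D χ' := by
  rw [two_flip E₁ sd K₁ Ξ₁, two_flip E₁' sd' P₁' Ξ₁'] at hH
  -- images of the letters
  have himg : ∀ j, j₁ ≤ j → j < G.n → Img (E' ++ P') (lab (ρ j)) (lab (G.w j)) := by
    intro j h1 h2
    have h3 : Img (E₁ ++ .fpar (!sd) (plug Ξ₁ X0T) :: K₁) (lab (ρ j)) (lab (G.w j)) := by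
      rw [Img_fpar, ← CRel_Img (CRel_append hE hK)]
      exact C.img j h1 h2
    obtain ⟨Q, h4, h5⟩ := hH.fwd (probe_mk_img Th.tz h3)
    obtain ⟨Q', h6, _⟩ := h5.fwd (th_avail _ _ _)
    rcases probe_inv tz_inj (cnt1_tz hR hE' hP' hΞ' _ _ _) h4 h6 with ⟨h7, _⟩ | ⟨h7, _⟩
    · rw [Img_fpar, ← CRel_Img (CRel_append hE' hP')] at h7
      exact h7
    · cases h7
  -- the run
  have hat : ∀ k, j₁ + k ≤ G.n →
      AtR G (j₁ + k) (plug (E' ++ .fpar sd' (plug P' (D (j₁ + k))) :: Ξ') X0T) := by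
    intro k
    induction k with
    | zero => intro _; exact hT'
    | succ k ih =>
      intro hk
      have h1 := ih (by omega)
      have h2 : IStep (plug (E' ++ .fpar sd' (plug P' (D (j₁ + k))) :: Ξ') X0T)
          (lab (G.w (j₁ + k)))
          (plug (E' ++ .fpar sd' (plug P' (D (j₁ + (k + 1)))) :: Ξ') X0T) := by
        rw [two_flip E' sd' P' Ξ' (D (j₁ + k)), two_flip E' sd' P' Ξ' (D (j₁ + (k + 1)))]
        exact step_plug (hD (j₁ + k) (by omega) (by omega))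
          (Img_fpar.2 (himg (j₁ + k) (by omega) (by omega)))
      exact (AtR_step (by omega) h1 h2).2.2
  have C' : Conf G E' P' Ξ' sd' j₁ D ρ := by
    refine ⟨C.hj, ?_, himg⟩
    intro j h1 h2
    have := hat (j - j₁) (by omega)
    rwa [Nat.add_sub_cancel' h1] at this
  refine ⟨C', ?_⟩
  obtain ⟨r, qr, hDr, hKr⟩ := X.hole
  have hLP := E1 (sd := sd) X hR hE hK hΞ hKr
  have hLP' := LP_congr hH hLP
  -- existence of an event
  obtain ⟨q, hq⟩ := X.linkE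
  obtain ⟨Ξx, hx, rfl⟩ := A_inv hq
  obtain ⟨Ξx₁, _, hev⟩ := event hR hΞ (γ := bar r) (l := χ)
    (Img_bar ((CRel_Img hK).1 hKr)) hx E₁ (!sd)
  obtain ⟨Q, hQ, hQb⟩ := hH.fwd hev
  obtain ⟨Q', hQ', _⟩ := hQb.fwd (th_avail _ _ _)
  obtain ⟨χ', hPr, Ξ'', hχ'⟩ := find_chi C' hR hE' hP' hΞ' hLP' hQ hQ' hDr
  have hlink : ∀ q, IStep (plug Ξ' X0T) (lab χ') q → Lnk G q :=
    fun q hq => link_chi C' hR hE' hP' hΞ' hLP' hPr hq
  -- no visible image of `χ'`
  have hnoimg : ∀ β, ¬ Img E' (lab χ') β := by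
    intro β hβ
    obtain ⟨μ, rfl⟩ := Img_act hβ
    refine C'.noact (μ := μ) (q := plug (E' ++ .fpar (!sd') (plug Ξ' X0T) :: P') qr) ?_
    rw [two_flip]
    exact step_plug hDr (Img_fpar.2 (Img_append.2 ⟨_, hPr, hβ⟩))
  have hnev : ¬ Ev E' (lab χ') := by
    rintro (⟨β, h⟩ | ⟨Γ', h⟩)
    · exact hnoimg β h
    · refine C'.noact (μ := Action.tau)
        (q := plug (Γ' ++ .fpar (!sd') (plug Ξ' X0T) :: P') qr) ?_
      rw [two_flip]
      obtain ⟨μ, rfl⟩ : ∃ μ, r = μ := ⟨_, rfl⟩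
      refine step_plugM hDr (MStep_append.2 (Or.inl ⟨lab χ', _, ⟨_, hPr, rfl⟩, h, rfl⟩))
  have hnev' : ¬ Ev E' (lab (bar χ')) := by
    rintro (⟨β, h⟩ | ⟨Γ', h⟩)
    · refine hnoimg β.compl ?_
      have := Img_compl h
      rwa [lab_compl, bar_bar] at this
    · exact noMeetE C' hR hE' hP' hΞ' hLP' (Img_bar hPr) h
  refine ⟨χ', ⟨?_, ?_, ⟨_, step_plugC _ hχ'⟩, hlink, hnev, hnev'⟩⟩
  · exact ⟨_, step_plug hDr hPr⟩
  · rintro j hj1 hj2 ⟨q, hq⟩
    have hj3 : j₁ ≤ j := C.hj.trans hj1.le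
    rcases plug_inv_ne hq (by simp) with ⟨α, d', hd, hi, _⟩ | ⟨Θ, hc, _⟩
    · -- the hole
      obtain ⟨δ, rfl⟩ := Img_lab hi
      obtain ⟨Ξy₁, hy, hevy⟩ := event hR hΞ' (γ := bar δ) (l := χ')
        (Img_bar ((CRel_Img hP').1 hi)) hχ' E₁' (!sd')
      have hLy := link_up hR hy (hlink _ (step_plugC _ hχ')) E₁' P₁' (!sd') (tzT (bar δ))
      obtain ⟨Q₀, hQ₀, hQ₀b⟩ := hH.bwd hevy
      obtain ⟨Q₀', hQ₀', _⟩ := hQ₀b.bwd (th_avail _ _ _)
      have hL₀ : Lnk G Q₀ := Lnk_congr hQ₀b.symm hLy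
      have hmk₀ : Nt .mk Q₀ := by
        intro z hz
        obtain ⟨z', hz', _⟩ := hQ₀b.fwd hz
        exact nomk hR hE' hP' hy _ _ _ hz'
      rcases probe_inv tz_inj (cnt1_tz hR hE hK hΞ _ _ _) hQ₀ hQ₀' with
        ⟨h1, _⟩ | ⟨_, Γ', h1, rfl⟩
      · -- seen outside as an internal step
        have h2 : Img (E ++ K) (lab δ) .tau := by
          refine Img_bar_tau ?_
          rw [Img_fpar, ← CRel_Img (CRel_append hE hK)] at h1
          exact h1
        refine C.notau hj3 hj2.le (q := plug (E ++ .fpar (!sd) (plug Ξ X0T) :: K) d') ?_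
        rw [two_flip]
        exact step_plug hd (Img_fpar.2 h2)
      · rw [MStep_append] at h1
        rcases h1 with ⟨γ, E'', h1, h2, rfl⟩ | ⟨Δ', h1, rfl⟩
        · rcases hR.meetBwd hE h2 with ⟨E₂, h3, h4⟩ | h3
          · have e := two_flip E'' sd K₁ Ξ₁ (tzT (bar δ)) X0T
            rw [← e] at hL₀
            exact C.noE hR hK hΞ h3 h4 _ hL₀
          · obtain ⟨z, hz⟩ := h3 (plug (.fpar (!sd) (plug Ξ₁ X0T) :: K₁) (tzT (bar δ)))
            rw [← plug_append] at hz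
            exact hmk₀ _ hz
        · cases h1 with
          | @here _ _ r' _ _ b t hi' hs' =>
            have h5 : Img K (lab δ) (lab (bar (b, t))) := Img_bar' ((CRel_Img hK).2 hi')
            obtain ⟨Ξz₁, h6, _⟩ := A_inv (l := (b, !t)) hs'
            obtain ⟨Ξz, h7⟩ := hR.cstepUp hΞ h6
            have h7' : CStep Ξ (lab (bar (b, t))) Ξz := h7
            have hname : χ.1 = (bar (b, t)).1 := by
              refine three_names (Γ := E) (a := G.a)
                (C.cov (Δ := K) fun _ _ h => h) ?_ ?_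
              · rintro ⟨β, h⟩
                exact X.nev (Or.inl ⟨β, h⟩)
              · rintro ⟨β, h⟩
                obtain ⟨μ, rfl⟩ := Img_act h
                refine C.noact (μ := μ)
                  (q := plug (E ++ .fpar sd (plug K (D G.n)) :: Ξz) X0T) ?_
                exact step_plugC _ (CStep_append.2 (Or.inr ⟨_, _, .there h7' rfl, h, rfl⟩))
            rcases eq_or_bar hname with h | h
            · rw [← h] at h5
              exact X.early j hj1 hj2 ⟨_, step_plug hd h5⟩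
            · have h8 : bar (b, t) = bar χ := by rw [h, bar_bar]
              rw [h8] at h7'
              obtain ⟨ql, hql⟩ := X.last
              refine C.noact (μ := Action.tau)
                (q := plug E (plug [.fpar sd ql] (plug Ξz X0T))) ?_
              rw [plug_append]
              refine step_plug (α := .tau) ?_ (Img_tau.2 rfl)
              have h9 : IStep (plug Ξ X0T) (.vis χ.1 (!χ.2)) (plug Ξz X0T) :=
                step_plugC _ h7'
              refine step_plugM (Γ := [.fpar sd (plug K (D G.n))]) h9 (.here (b := χ.1)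
                (s := !χ.2) rfl ?_)
              rw [Bool.not_not]
              exact hql
          | @there _ _ K₁' _ h2 =>
            rcases hR.meetBwd hK h2 with ⟨K₂, h3, h4⟩ | h3
            · have e := two_flip E₁ sd K₁' Ξ₁ (tzT (bar δ)) X0T
              rw [← e] at hL₀
              exact C.noK hR hE hΞ h3 h4 _ hL₀
            · obtain ⟨z, hz⟩ := h3 (tzT (bar δ))
              have := step_plug (Γ := E₁ ++ [.fpar (!sd) (plug Ξ₁ X0T)]) hz (Img_th.2 rfl)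
              rw [← plug_append, List.append_assoc] at this
              exact hmk₀ _ this
    · -- a component
      obtain ⟨Pa, s₀, c, c', Pb, α, rfl, rfl, hs, hi⟩ := CStep_split hc
      obtain ⟨r₃, rfl⟩ := Img_lab hi
      have hPr' := hPr
      rw [Img_append] at hPr'
      obtain ⟨δ, ⟨δ', h4, h5⟩, h6⟩ := hPr'
      cases h5
      obtain ⟨ρ', rfl⟩ := Img_lab h6
      have hname : r₃.1 = ρ'.1 := by
        refine three_names (Γ := E' ++ Pa) (a := G.a)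
          (C'.cov (Δ := .fpar s₀ c :: Pb) fun _ _ h => by rwa [List.append_assoc]) ?_ ?_
        · rintro ⟨β, h⟩
          rw [Img_append] at h
          obtain ⟨γ, h7, h8⟩ := h
          cases Img_fun h7 hi
          exact hnoimg _ h8
        · rintro ⟨β, h⟩
          rw [Img_append] at h
          obtain ⟨γ, h7, h8⟩ := h
          cases Img_fun h7 h6
          exact hnoimg _ h8
      rcases eq_or_bar hname with h | h
      · subst h
        refine noMeetK C' hR hE' hP' hΞ' hLP' (Θ := Pa ++ .fpar s₀ c' :: Pb) ?_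
        refine MStep_of_split (b := r₃.1) (s := !r₃.2) ?_ (Img_bar h4)
        rw [Bool.not_not]
        exact hs
      · subst h
        have := Img_fun hi (Img_bar h6)
        exact bar_ne _ (lab_inj this).symm

end Pool.Agent.Lib.MP_1be8fd_lc
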