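import Pool.Agent.Lib.MP_1be8fd_lc.Syn

set_option autoImplicit false

namespace Pool.Agent.Lib.MP_1be8fd_lc

variable {N : Type} {F : Set (Relabelling N)}

/-- Frames of (static) contexts; `side = false` means that the hole is on the left. -/
inductive Frame (N : Type) (F : Set (Relabelling N)) (S : Type) : Type
  | fpar (side : Bool) (r : S)
  | fres (L : Set N)
  | frel (f : F)

namespace Frame

variable {S T : Type}

def map (g : S → T) : Frame N F S → Frame N F T
  | fpar sd r => fpar sd (g r)
  | fres L => fres L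
  | frel f => frel f

/-- `fr.Img α β`: an action `α` of the hole of `fr` is seen as `β` outside. -/
def Img : Frame N F S → IAct N → IAct N → Prop
  | fpar _ _, α, β => β = α
  | fres L, α, β => β = α ∧ α.Allowed L
  | frel f, α, β => β = α.map f.1

def app : Frame N F (ITerm N F) → ITerm N F → ITerm N F
  | fpar false r, h => .par h r
  | fpar true r, h => .par r h
  | fres L, h => .res L h
  | frel f, h => .rel f h

end Frame

/-- Contexts: lists of frames, the outermost first. -/
abbrev Ctx (N : Type) (F : Set (Relabelling N)) : Type := List (Frame N F (ITerm N F))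

def plug : Ctx N F → ITerm N F → ITerm N F
  | [], h => h
  | fr :: Γ, h => fr.app (plug Γ h)

/-- `Img Γ α β`: an action `α` of the hole of `Γ` is seen as `β` outside. -/
def Img {S : Type} : List (Frame N F S) → IAct N → IAct N → Prop
  | [], α, β => β = α
  | fr :: Γ, α, β => ∃ γ, Img Γ α γ ∧ fr.Img γ β

/-- One component (side term) of a context moves; seen from outside as the action. -/
inductive CStep : Ctx N F → IAct N → Ctx N F → Prop
  | here {sd : Bool} {r r' : ITerm N F} {α : IAct N} {Γ : Ctx N F} :
      IStep r α r' → CStep (.fpar sd r :: Γ) α (.fpar sd r' :: Γ)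
  | there {fr : Frame N F (ITerm N F)} {Γ Γ' : Ctx N F} {α β : IAct N} :
      CStep Γ α Γ' → fr.Img α β → CStep (fr :: Γ) β (fr :: Γ')

/-- The hole performs `α` and synchronises with a component. -/
inductive MStep : Ctx N F → IAct N → Ctx N F → Prop
  | here {sd : Bool} {r r' : ITerm N F} {α : IAct N} {Γ : Ctx N F} {b : N} {s : Bool} :
      Img Γ α (.vis b s) → IStep r (.vis b (!s)) r' →
        MStep (.fpar sd r :: Γ) α (.fpar sd r' :: Γ)
  | there {fr : Frame N F (ITerm N F)} {Γ Γ' : Ctx N F} {α : IAct N} :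
      MStep Γ α Γ' → MStep (fr :: Γ) α (fr :: Γ')

/-- Two components synchronise. -/
inductive SStep : Ctx N F → Ctx N F → Prop
  | here {sd : Bool} {r r' : ITerm N F} {Γ Γ' : Ctx N F} {b : N} {s : Bool} :
      CStep Γ (.vis b s) Γ' → IStep r (.vis b (!s)) r' →
        SStep (.fpar sd r :: Γ) (.fpar sd r' :: Γ')
  | there {fr : Frame N F (ITerm N F)} {Γ Γ' : Ctx N F} :
      SStep Γ Γ' → SStep (fr :: Γ) (fr :: Γ')

/-- Labels. -/
abbrev lab (l : N × Bool) : IAct N := .vis l.1 l.2

/-- Complement of a label. -/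
def bar (l : N × Bool) : N × Bool := (l.1, !l.2)

/-- Some action `α` of the hole is seen outside or can synchronise. -/
def Ev (Γ : Ctx N F) (α : IAct N) : Prop := (∃ β, Img Γ α β) ∨ (∃ Γ', MStep Γ α Γ')

/-- `p` cannot perform the marker `θ`. -/
def Nt (θ : Th N) (p : ITerm N F) : Prop := ∀ q, ¬ IStep p (.th θ) q

/-- Neither `p` nor its successors (under ordinary actions) can perform the marker `θ`. -/
def Nt1 (θ : Th N) (p : ITerm N F) : Prop :=
  Nt θ p ∧ ∀ μ q, IStep p (.act μ) q → Nt θ q

def CNt (θ : Th N) (Γ : Ctx N F) : Prop := ∀ sd r, Frame.fpar sd r ∈ Γ → Nt θ r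
def CNt1 (θ : Th N) (Γ : Ctx N F) : Prop := ∀ sd r, Frame.fpar sd r ∈ Γ → Nt1 θ r

/-- Finite sums. -/
def sumL : List (ITerm N F) → ITerm N F
  | [] => .nil
  | p :: l => .add p (sumL l)

/-- The probe: the sum of all `l.(t l).0` over all labels `l`. -/
noncomputable def Pr [Fintype N] (t : N → Bool → Th N) : ITerm N F :=
  sumL ((Finset.univ : Finset (N × Bool)).toList.map
    fun l => .pre (lab l) (.pre (.th (t l.1 l.2)) .nil))

noncomputable abbrev XT [Fintype N] : ITerm N F := Pr Th.tx
noncomputable abbrev ZT [Fintype N] : ITerm N F := Pr Th.tz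
noncomputable abbrev X0T [Fintype N] : ITerm N F := .pre (.th .z1) XT
noncomputable abbrev xT [Fintype N] : ITerm N F := .pre (.th .z0) X0T

/-- A relation on terms, extended to frames. -/
inductive FRel (R : ITerm N F → ITerm N F → Prop) :
    Frame N F (ITerm N F) → Frame N F (ITerm N F) → Prop
  | fpar (sd : Bool) {r r' : ITerm N F} : R r r' → FRel R (.fpar sd r) (.fpar sd r')
  | fres (L : Set N) : FRel R (.fres L) (.fres L)
  | frel (f : F) : FRel R (.frel f) (.frel f)

/-- A relation on terms, extended to contexts. -/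
abbrev CRel (R : ITerm N F → ITerm N F → Prop) : Ctx N F → Ctx N F → Prop :=
  List.Forall₂ (FRel R)

end Pool.Agent.Lib.MP_1be8fd_lc
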