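import Mathlib

set_option autoImplicit false

namespace Pool.Agent.Lib.MP_1be8fd_lc

/-- Actions over a set `N` of names: the names (`co = false`), the co-names (`co = true`), and
the silent action `tau`. -/
inductive Action (N : Type) : Type
  | vis (a : N) (co : Bool)
  | tau

namespace Action

variable {N : Type}

/-- Complementation: it swaps a name and its co-name, and fixes `tau`. -/
def compl : Action N → Action N
  | vis a co => vis a (!co)
  | tau => tau

/-- The action may be performed under the restriction to the complement of `L`. -/
def Allowed (L : Set N) : Action N → Prop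
  | vis a _ => a ∉ L
  | tau => True

end Action

/-- Relabelling functions: maps on actions that commute with complementation and fix `tau`. -/
structure Relabelling (N : Type) where
  /-- the map -/
  toFun : Action N → Action N
  map_compl : ∀ μ : Action N, toFun μ.compl = (toFun μ).compl
  map_tau : toFun Action.tau = Action.tau

/-- Terms of recursion-free CCS over the names `N` and the relabelling functions in `F`, with
variables from `X`, extended with left merge and communication merge. -/
inductive Term (N : Type) (F : Set (Relabelling N)) (X : Type) : Type
  | var (x : X)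
  | nil
  | pre (μ : Action N) (t : Term N F X)
  | add (t u : Term N F X)
  | par (t u : Term N F X)
  | lmerge (t u : Term N F X)
  | cmerge (t u : Term N F X)
  | res (L : Set N) (t : Term N F X)
  | rel (f : F) (t : Term N F X)

variable {N : Type} {F : Set (Relabelling N)}

namespace Term

variable {X Y : Type}

/-- Substitution. -/
def subst (σ : X → Term N F Y) : Term N F X → Term N F Y
  | var x => σ x
  | nil => nil
  | pre μ t => pre μ (subst σ t)
  | add t u => add (subst σ t) (subst σ u)
  | par t u => par (subst σ t) (subst σ u)
  | lmerge t u => lmerge (subst σ t) (subst σ u)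
  | cmerge t u => cmerge (subst σ t) (subst σ u)
  | res L t => res L (subst σ t)
  | rel f t => rel f (subst σ t)

/-- The transition relation of structural operational semantics (variables have no
transitions). -/
inductive Step : Term N F X → Action N → Term N F X → Prop
  | pre (μ : Action N) (t : Term N F X) : Step (pre μ t) μ t
  | addL {μ : Action N} {t t' : Term N F X} (u : Term N F X) :
      Step t μ t' → Step (add t u) μ t'
  | addR {μ : Action N} {u u' : Term N F X} (t : Term N F X) :
      Step u μ u' → Step (add t u) μ u'
  | parL {μ : Action N} {t t' : Term N F X} (u : Term N F X) :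
      Step t μ t' → Step (par t u) μ (par t' u)
  | parR {μ : Action N} {u u' : Term N F X} (t : Term N F X) :
      Step u μ u' → Step (par t u) μ (par t u')
  | parC {a : N} {co : Bool} {t t' u u' : Term N F X} :
      Step t (Action.vis a co) t' → Step u (Action.vis a (!co)) u' →
        Step (par t u) Action.tau (par t' u')
  | lmerge {μ : Action N} {t t' : Term N F X} (u : Term N F X) :
      Step t μ t' → Step (lmerge t u) μ (par t' u)
  | cmerge {a : N} {co : Bool} {t t' u u' : Term N F X} :
      Step t (Action.vis a co) t' → Step u (Action.vis a (!co)) u' →
        Step (cmerge t u) Action.tau (par t' u')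
  | res {μ : Action N} {t t' : Term N F X} (L : Set N) :
      Step t μ t' → μ.Allowed L → Step (res L t) μ (res L t')
  | rel {μ : Action N} {t t' : Term N F X} (f : F) :
      Step t μ t' → Step (rel f t) (f.1.toFun μ) (rel f t')

end Term

/-- Closed terms. -/
abbrev CTerm (N : Type) (F : Set (Relabelling N)) : Type := Term N F Empty

/-- (Strong) bisimulations between closed terms. -/
def IsBisimulation (R : CTerm N F → CTerm N F → Prop) : Prop :=
  ∀ p q : CTerm N F, R p q →
    (∀ (μ : Action N) (p' : CTerm N F), p.Step μ p' → ∃ q', q.Step μ q' ∧ R p' q') ∧
    (∀ (μ : Action N) (q' : CTerm N F), q.Step μ q' → ∃ p', p.Step μ p' ∧ R p' q')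

/-- Strong bisimilarity of closed terms. -/
def Bisimilar (p q : CTerm N F) : Prop :=
  ∃ R : CTerm N F → CTerm N F → Prop, IsBisimulation R ∧ R p q

/-- An equation between terms with variables from `ℕ` is sound if all its closed instances are
bisimilar. -/
def Sound (s t : Term N F ℕ) : Prop :=
  ∀ σ : ℕ → CTerm N F, Bisimilar (s.subst σ) (t.subst σ)

/-- Derivability from a set `E` of equations in equational logic. -/
inductive Derives (E : Set (Term N F ℕ × Term N F ℕ)) : Term N F ℕ → Term N F ℕ → Prop
  | ax {s t : Term N F ℕ} (h : (s, t) ∈ E) (σ : ℕ → Term N F ℕ) :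
      Derives E (s.subst σ) (t.subst σ)
  | refl (t : Term N F ℕ) : Derives E t t
  | symm {t u : Term N F ℕ} : Derives E t u → Derives E u t
  | trans {t u v : Term N F ℕ} : Derives E t u → Derives E u v → Derives E t v
  | pre (μ : Action N) {t u : Term N F ℕ} : Derives E t u → Derives E (t.pre μ) (u.pre μ)
  | add {t t' u u' : Term N F ℕ} :
      Derives E t t' → Derives E u u' → Derives E (t.add u) (t'.add u')
  | par {t t' u u' : Term N F ℕ} :
      Derives E t t' → Derives E u u' → Derives E (t.par u) (t'.par u')
  | lmerge {t t' u u' : Term N F ℕ} :
      Derives E t t' → Derives E u u' → Derives E (t.lmerge u) (t'.lmerge u')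
  | cmerge {t t' u u' : Term N F ℕ} :
      Derives E t t' → Derives E u u' → Derives E (t.cmerge u) (t'.cmerge u')
  | res (L : Set N) {t u : Term N F ℕ} : Derives E t u → Derives E (t.res L) (u.res L)
  | rel (f : F) {t u : Term N F ℕ} : Derives E t u → Derives E (t.rel f) (u.rel f)

end Pool.Agent.Lib.MP_1be8fd_lc
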