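import Pool.Agent.Lib.MP_1be8fd_lc.Syn

set_option autoImplicit false

namespace Pool.Agent.Lib.MP_1be8fd_lc

variable {N : Type} {F : Set (Relabelling N)}

/-! ### Sizes and Grundy values -/

lemma IStep.size_lt {p q : ITerm N F} {α : IAct N} (h : IStep p α q) : q.size < p.size := by
  induction h with
  | pre α p => simp [ITerm.size]
  | addL q _ ih => simp only [ITerm.size]; omega
  | addR p _ ih => simp only [ITerm.size]; omega
  | parL q _ ih => simp only [ITerm.size]; omega
  | parR p _ ih => simp only [ITerm.size]; omega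
  | parC _ _ ih1 ih2 => simp only [ITerm.size]; omega
  | lm q _ ih => simp only [ITerm.size]; omega
  | cm _ _ ih1 ih2 => simp only [ITerm.size]; omega
  | res L _ _ ih => simp only [ITerm.size]; omega
  | rel f _ ih => simp only [ITerm.size]; omega

/-- Grundy value of a term with respect to silent steps. -/
noncomputable def gru (p : ITerm N F) : ℕ :=
  sInf {n : ℕ | ∀ q : ITerm N F, (h : IStep p .tau q) → gru q ≠ n}
termination_by p.size
decreasing_by exact h.size_lt

lemma gru_le (p : ITerm N F) : gru p ≤ p.size := by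
  induction hn : p.size using Nat.strong_induction_on generalizing p with
  | _ n ih =>
    rw [gru]
    apply Nat.sInf_le
    intro q h
    have h1 := h.size_lt
    have h2 := ih q.size (by omega) q rfl
    omega

lemma gru_mem (p : ITerm N F) :
    gru p ∈ {n : ℕ | ∀ q : ITerm N F, (h : IStep p .tau q) → gru q ≠ n} := by
  have h : ({n : ℕ | ∀ q : ITerm N F, (h : IStep p .tau q) → gru q ≠ n}).Nonempty := by
    refine ⟨p.size, ?_⟩
    intro q h
    have h1 := h.size_lt
    have h2 := gru_le q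
    omega
  have := Nat.sInf_mem h
  rw [gru]
  exact this

lemma gru_ne {p q : ITerm N F} (h : IStep p .tau q) : gru q ≠ gru p :=
  gru_mem p q h

lemma gru_ex {p : ITerm N F} {n : ℕ} (h : n < gru p) : ∃ q, IStep p .tau q ∧ gru q = n := by
  by_contra hc
  push Not at hc
  have : gru p ≤ n := by
    rw [gru]
    exact Nat.sInf_le (fun q hq => hc q hq)
  omega

lemma gru_eq {p : ITerm N F} {v : ℕ} (h1 : ∀ q, IStep p .tau q → gru q ≠ v)
    (h2 : ∀ m < v, ∃ q, IStep p .tau q ∧ gru q = m) : gru p = v := by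
  rcases lt_trichotomy (gru p) v with h | h | h
  · obtain ⟨q, hq, he⟩ := h2 _ h
    exact absurd he (gru_ne hq)
  · exact h
  · obtain ⟨q, hq, he⟩ := gru_ex h
    exact absurd he (h1 q hq)

lemma IBis.gru {p q : ITerm N F} (h : IBis p q) : gru p = gru q := by
  induction hn : p.size using Nat.strong_induction_on generalizing p q with
  | _ n ih =>
    rcases lt_trichotomy (MP_1be8fd_lc.gru p) (MP_1be8fd_lc.gru q) with hlt | he | hlt
    · obtain ⟨q', hq', he⟩ := gru_ex hlt
      obtain ⟨p', hp', hb⟩ := h.bwd hq'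
      have h3 := ih p'.size (by have := hp'.size_lt; omega) hb rfl
      exact absurd (h3.trans he) (gru_ne hp')
    · exact he
    · obtain ⟨p', hp', he⟩ := gru_ex hlt
      obtain ⟨q', hq', hb⟩ := h.fwd hp'
      have h3 := ih p'.size (by have := hp'.size_lt; omega) hb rfl
      exact absurd (h3.symm.trans he) (gru_ne hq')

/-! ### The nimbers -/

/-- The nimbers. -/
def nim : ℕ → ITerm N F
  | 0 => .nil
  | n + 1 => .add (nim n) (.pre .tau (nim n))

lemma step_nim {n : ℕ} {α : IAct N} {r : ITerm N F} :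
    IStep (nim n : ITerm N F) α r ↔ α = .tau ∧ ∃ j < n, r = nim j := by
  induction n with
  | zero =>
    constructor
    · intro h; exact absurd h step_nil
    · rintro ⟨_, j, hj, _⟩; omega
  | succ n ih =>
    rw [nim, step_add, ih, step_pre]
    constructor
    · rintro (⟨h1, j, hj, h2⟩ | ⟨h1, h2⟩)
      · exact ⟨h1, j, by omega, h2⟩
      · exact ⟨h1, n, by omega, h2⟩
    · rintro ⟨h1, j, hj, h2⟩
      rcases Nat.lt_succ_iff_lt_or_eq.1 hj with h | h
      · exact Or.inl ⟨h1, j, h, h2⟩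
      · subst h; exact Or.inr ⟨h1, h2⟩

lemma step_par_nim {n : ℕ} {α : IAct N} {p r : ITerm N F} :
    IStep (.par p (nim n)) α r ↔
      (∃ p', IStep p α p' ∧ r = .par p' (nim n)) ∨ (α = .tau ∧ ∃ j < n, r = .par p (nim j)) := by
  rw [step_par]
  constructor
  · rintro (h | ⟨q', h, rfl⟩ | ⟨rfl, b, s, p', q', h1, h2, rfl⟩)
    · exact Or.inl h
    · obtain ⟨h1, j, hj, rfl⟩ := step_nim.1 h
      exact Or.inr ⟨h1, j, hj, rfl⟩
    · have := (step_nim.1 h2).1
      simp at this
  · rintro (h | ⟨rfl, j, hj, rfl⟩)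
    · exact Or.inl h
    · exact Or.inr (Or.inl ⟨_, step_nim.2 ⟨rfl, j, hj, rfl⟩, rfl⟩)

lemma gru_par_nim (p : ITerm N F) (n : ℕ) : gru (.par p (nim n)) = gru p ^^^ n := by
  induction hs : p.size + n using Nat.strong_induction_on generalizing p n with
  | _ s ih =>
    apply gru_eq
    · intro q hq
      rw [step_par_nim] at hq
      rcases hq with ⟨p', h, rfl⟩ | ⟨_, j, hj, rfl⟩
      · have := h.size_lt
        rw [ih (p'.size + n) (by omega) p' n rfl]
        intro he
        exact gru_ne h (Nat.xor_left_injective he)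
      · rw [ih (p.size + j) (by omega) p j rfl]
        intro he
        have := Nat.xor_right_injective he
        omega
    · intro m hm
      rcases Nat.lt_xor_cases hm with h | h
      · obtain ⟨p', hp', he⟩ := gru_ex h
        have := hp'.size_lt
        refine ⟨.par p' (nim n), .parL _ hp', ?_⟩
        rw [ih (p'.size + n) (by omega) p' n rfl, he, Nat.xor_assoc, Nat.xor_self, Nat.xor_zero]
      · refine ⟨.par p (nim (m ^^^ gru p)), step_par_nim.2 (Or.inr ⟨rfl, _, h, rfl⟩), ?_⟩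
        rw [ih (p.size + (m ^^^ gru p)) (by omega) p _ rfl, Nat.xor_comm m, ← Nat.xor_assoc,
          Nat.xor_self, Nat.zero_xor]

/-! ### Cancellation -/

lemma cancel_aux {A B : ITerm N F} {k : ℕ} : ∀ {n : ℕ}, k < n →
    IBis (.par A (nim n)) (.par B (nim k)) →
    ∃ B' m, IStep B .tau B' ∧ IBis (.par A (nim m)) (.par B' (nim m)) := by
  induction k using Nat.strong_induction_on with
  | _ k ih =>
    intro n hkn h
    obtain ⟨Z, hZ, hb⟩ := h.fwd (step_par_nim.2 (Or.inr ⟨rfl, k, hkn, rfl⟩))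
    rw [step_par_nim] at hZ
    rcases hZ with ⟨B', hB, rfl⟩ | ⟨_, j, hj, rfl⟩
    · exact ⟨B', k, hB, hb⟩
    · exact ih j hj hj hb

lemma cancel_nim {A B : ITerm N F} {n : ℕ} (h : IBis (.par A (nim n)) (.par B (nim n))) :
    IBis A B := by
  have key : ∀ {A B : ITerm N F} {n : ℕ}, IBis (.par A (nim n)) (.par B (nim n)) →
      ∀ (α : IAct N) (A' : ITerm N F), IStep A α A' →
        ∃ B', IStep B α B' ∧ ∃ m, IBis (.par A' (nim m)) (.par B' (nim m)) := by
    intro A B n h α A' hA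
    obtain ⟨Z, hZ, hb⟩ := h.fwd (.parL (nim n) hA)
    rw [step_par_nim] at hZ
    rcases hZ with ⟨B', hB, rfl⟩ | ⟨rfl, j, hj, rfl⟩
    · exact ⟨B', hB, n, hb⟩
    · obtain ⟨B', m, h1, h2⟩ := cancel_aux hj hb
      exact ⟨B', h1, m, h2⟩
  refine ⟨fun A B => ∃ n, IBis (.par A (nim n)) (.par B (nim n)), ?_, n, h⟩
  rintro A B ⟨n, h⟩
  constructor
  · intro α A' hA
    exact key h α A' hA
  · intro α B' hB
    obtain ⟨A', h1, m, h2⟩ := key h.symm α B' hB
    exact ⟨A', h1, m, h2.symm⟩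

/-! ### Laws for nimbers -/

lemma nim_out_left (a b : ITerm N F) (n : ℕ) :
    IBis (.par (.par a (nim n)) b) (.par (.par a b) (nim n)) := by
  refine ⟨fun x y => ∃ a b n, x = .par (.par a (nim n)) b ∧ y = .par (.par a b) (nim n), ?_,
    a, b, n, rfl, rfl⟩
  rintro _ _ ⟨a, b, n, rfl, rfl⟩
  constructor
  · intro α r hs
    rw [step_par] at hs
    rcases hs with ⟨x, h, rfl⟩ | ⟨b', h, rfl⟩ | ⟨rfl, c, s, x, b', h, h2, rfl⟩
    · rcases step_par_nim.1 h with ⟨a', ha, rfl⟩ | ⟨rfl, j, hj, rfl⟩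
      · exact ⟨_, .parL _ (.parL _ ha), a', b, n, rfl, rfl⟩
      · exact ⟨_, step_par_nim.2 (Or.inr ⟨rfl, j, hj, rfl⟩), a, b, j, rfl, rfl⟩
    · exact ⟨_, .parL _ (.parR _ h), a, b', n, rfl, rfl⟩
    · rcases step_par_nim.1 h with ⟨a', ha, rfl⟩ | ⟨he, j, hj, rfl⟩
      · exact ⟨_, .parL _ (.parC ha h2), a', b', n, rfl, rfl⟩
      · simp at he
  · intro α r hs
    rcases step_par_nim.1 hs with ⟨x, h, rfl⟩ | ⟨rfl, j, hj, rfl⟩
    · rw [step_par] at h
      rcases h with ⟨a', h, rfl⟩ | ⟨b', h, rfl⟩ | ⟨rfl, c, s, a', b', h, h2, rfl⟩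
      · exact ⟨_, .parL _ (.parL _ h), a', b, n, rfl, rfl⟩
      · exact ⟨_, .parR _ h, a, b', n, rfl, rfl⟩
      · exact ⟨_, .parC (.parL _ h) h2, a', b', n, rfl, rfl⟩
    · exact ⟨_, .parL _ (step_par_nim.2 (Or.inr ⟨rfl, j, hj, rfl⟩)), a, b, j, rfl, rfl⟩

lemma nim_out_right (a b : ITerm N F) (n : ℕ) :
    IBis (.par b (.par a (nim n))) (.par (.par b a) (nim n)) := by
  refine ⟨fun x y => ∃ a b n, x = .par b (.par a (nim n)) ∧ y = .par (.par b a) (nim n), ?_,
    a, b, n, rfl, rfl⟩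
  rintro _ _ ⟨a, b, n, rfl, rfl⟩
  constructor
  · intro α r hs
    rw [step_par] at hs
    rcases hs with ⟨b', h, rfl⟩ | ⟨x, h, rfl⟩ | ⟨rfl, c, s, b', x, h2, h, rfl⟩
    · exact ⟨_, .parL _ (.parL _ h), a, b', n, rfl, rfl⟩
    · rcases step_par_nim.1 h with ⟨a', ha, rfl⟩ | ⟨rfl, j, hj, rfl⟩
      · exact ⟨_, .parL _ (.parR _ ha), a', b, n, rfl, rfl⟩
      · exact ⟨_, step_par_nim.2 (Or.inr ⟨rfl, j, hj, rfl⟩), a, b, j, rfl, rfl⟩
    · rcases step_par_nim.1 h with ⟨a', ha, rfl⟩ | ⟨he, j, hj, rfl⟩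
      · exact ⟨_, .parL _ (.parC h2 ha), a', b', n, rfl, rfl⟩
      · simp at he
  · intro α r hs
    rcases step_par_nim.1 hs with ⟨x, h, rfl⟩ | ⟨rfl, j, hj, rfl⟩
    · rw [step_par] at h
      rcases h with ⟨b', h, rfl⟩ | ⟨a', h, rfl⟩ | ⟨rfl, c, s, b', a', h2, h, rfl⟩
      · exact ⟨_, .parL _ h, a, b', n, rfl, rfl⟩
      · exact ⟨_, .parR _ (.parL _ h), a', b, n, rfl, rfl⟩
      · exact ⟨_, .parC h2 (.parL _ h), a', b', n, rfl, rfl⟩
    · exact ⟨_, .parR _ (step_par_nim.2 (Or.inr ⟨rfl, j, hj, rfl⟩)), a, b, j, rfl, rfl⟩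

lemma nim_out_res (L : Set N) (a : ITerm N F) (n : ℕ) :
    IBis (.res L (.par a (nim n))) (.par (.res L a) (nim n)) := by
  refine ⟨fun x y => ∃ a n, x = .res L (.par a (nim n)) ∧ y = .par (.res L a) (nim n), ?_,
    a, n, rfl, rfl⟩
  rintro _ _ ⟨a, n, rfl, rfl⟩
  constructor
  · intro α r hs
    rw [step_res] at hs
    obtain ⟨x, h, hL, rfl⟩ := hs
    rcases step_par_nim.1 h with ⟨a', ha, rfl⟩ | ⟨rfl, j, hj, rfl⟩
    · exact ⟨_, .parL _ (.res L ha hL), a', n, rfl, rfl⟩
    · exact ⟨_, step_par_nim.2 (Or.inr ⟨rfl, j, hj, rfl⟩), a, j, rfl, rfl⟩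
  · intro α r hs
    rcases step_par_nim.1 hs with ⟨x, h, rfl⟩ | ⟨rfl, j, hj, rfl⟩
    · rw [step_res] at h
      obtain ⟨a', h, hL, rfl⟩ := h
      exact ⟨_, .res L (.parL _ h) hL, a', n, rfl, rfl⟩
    · exact ⟨_, .res L (step_par_nim.2 (Or.inr ⟨rfl, j, hj, rfl⟩)) trivial, a, j, rfl, rfl⟩

lemma map_tau' (f : F) : (IAct.tau : IAct N).map f.1 = .tau := by
  simp [IAct.map, f.1.map_tau]

lemma nim_out_rel (f : F) (a : ITerm N F) (n : ℕ) :
    IBis (.rel f (.par a (nim n))) (.par (.rel f a) (nim n)) := by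
  refine ⟨fun x y => ∃ a n, x = .rel f (.par a (nim n)) ∧ y = .par (.rel f a) (nim n), ?_,
    a, n, rfl, rfl⟩
  rintro _ _ ⟨a, n, rfl, rfl⟩
  constructor
  · intro α r hs
    rw [step_rel] at hs
    obtain ⟨β, x, h, rfl, rfl⟩ := hs
    rcases step_par_nim.1 h with ⟨a', ha, rfl⟩ | ⟨rfl, j, hj, rfl⟩
    · exact ⟨_, .parL _ (.rel f ha), a', n, rfl, rfl⟩
    · exact ⟨_, step_par_nim.2 (Or.inr ⟨map_tau' f, j, hj, rfl⟩), a, j, rfl, rfl⟩
  · intro α r hs
    rcases step_par_nim.1 hs with ⟨x, h, rfl⟩ | ⟨rfl, j, hj, rfl⟩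
    · rw [step_rel] at h
      obtain ⟨β, a', h, rfl, rfl⟩ := h
      exact ⟨_, .rel f (.parL _ h), a', n, rfl, rfl⟩
    · refine ⟨.rel f (.par a (nim j)), ?_, a, j, rfl, rfl⟩
      have := IStep.rel f (step_par_nim.2 (Or.inr ⟨rfl, j, hj, rfl⟩) :
        IStep (.par a (nim n)) .tau (.par a (nim j)))
      rwa [map_tau'] at this

/-! ### The encoding of markers -/

/-- Encoding of markers by nimbers. -/
def enc (c : Th N → ℕ) (K : ℕ) : ITerm N F → ITerm N F
  | .nil => .nil
  | .pre (.act μ) p => .pre (.act μ) (enc c K p)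
  | .pre (.th θ) p => .pre .tau (.par (enc c K p) (nim (2 ^ (K + c θ))))
  | .add p q => .add (enc c K p) (enc c K q)
  | .par p q => .par (enc c K p) (enc c K q)
  | .lm p q => .lm (enc c K p) (enc c K q)
  | .cm p q => .cm (enc c K p) (enc c K q)
  | .res L p => .res L (enc c K p)
  | .rel f p => .rel f (enc c K p)

/-- Official nimbers. -/
def nimO : ℕ → CTerm N F
  | 0 => .nil
  | n + 1 => .add (nimO n) (.pre .tau (nimO n))

/-- Official form of the encoding. -/
def encO (c : Th N → ℕ) (K : ℕ) : ITerm N F → CTerm N F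
  | .nil => .nil
  | .pre (.act μ) p => .pre μ (encO c K p)
  | .pre (.th θ) p => .pre .tau (.par (encO c K p) (nimO (2 ^ (K + c θ))))
  | .add p q => .add (encO c K p) (encO c K q)
  | .par p q => .par (encO c K p) (encO c K q)
  | .lm p q => .lmerge (encO c K p) (encO c K q)
  | .cm p q => .cmerge (encO c K p) (encO c K q)
  | .res L p => .res L (encO c K p)
  | .rel f p => .rel f (encO c K p)

lemma emb_nimO (n : ℕ) : emb (nimO n : CTerm N F) = nim n := by
  induction n with
  | zero => rfl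
  | succ n ih =>
    simp only [emb] at ih
    simp only [nimO, nim, emb, inst, ih]

lemma emb_encO (c : Th N → ℕ) (K : ℕ) (p : ITerm N F) : emb (encO c K p) = enc c K p := by
  induction p with
  | nil => rfl
  | pre α p ih =>
    cases α with
    | act μ =>
      simp only [emb] at ih
      simp only [encO, enc, emb, inst, ih]
    | th θ =>
      have := emb_nimO (N := N) (F := F) (2 ^ (K + c θ))
      simp only [emb] at ih this
      simp only [encO, enc, emb, inst, ih, this]
  | add p q ih1 ih2 =>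
    simp only [emb] at ih1 ih2
    simp only [encO, enc, emb, inst, ih1, ih2]
  | par p q ih1 ih2 =>
    simp only [emb] at ih1 ih2
    simp only [encO, enc, emb, inst, ih1, ih2]
  | lm p q ih1 ih2 =>
    simp only [emb] at ih1 ih2
    simp only [encO, enc, emb, inst, ih1, ih2]
  | cm p q ih1 ih2 =>
    simp only [emb] at ih1 ih2
    simp only [encO, enc, emb, inst, ih1, ih2]
  | res L p ih =>
    simp only [emb] at ih
    simp only [encO, enc, emb, inst, ih]
  | rel f p ih =>
    simp only [emb] at ih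
    simp only [encO, enc, emb, inst, ih]

lemma enc_inst {X : Type} (c : Th N → ℕ) (K : ℕ) (τ : X → ITerm N F) (s : Term N F X) :
    enc c K (inst τ s) = inst (fun x => enc c K (τ x)) s := by
  induction s with
  | var x => rfl
  | nil => rfl
  | pre μ t ih => simp only [inst, enc, ih]
  | add t u ih1 ih2 => simp only [inst, enc, ih1, ih2]
  | par t u ih1 ih2 => simp only [inst, enc, ih1, ih2]
  | lmerge t u ih1 ih2 => simp only [inst, enc, ih1, ih2]
  | cmerge t u ih1 ih2 => simp only [inst, enc, ih1, ih2]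
  | res L t ih => simp only [inst, enc, ih]
  | rel f t ih => simp only [inst, enc, ih]

lemma enc_sound (c : Th N → ℕ) (K : ℕ) {s s' : Term N F ℕ} (hs : Sound s s')
    (τ : ℕ → ITerm N F) : IBis (enc c K (inst τ s)) (enc c K (inst τ s')) := by
  have h := IBis_emb (hs (fun x => encO c K (τ x)))
  have key : ∀ t : Term N F ℕ, emb (t.subst (fun x => encO c K (τ x))) =
      enc c K (inst τ t) := by
    intro t
    rw [enc_inst, emb, inst_subst]
    congr 1
    funext x
    exact emb_encO c K (τ x)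
  rwa [key, key] at h

/-! ### Correspondence of the steps -/

section corr

variable (c : Th N → ℕ) (K : ℕ)

lemma enc_fwd {p p' : ITerm N F} {α : IAct N} (h : IStep p α p') :
    (∀ μ, α = .act μ → IStep (enc c K p) (.act μ) (enc c K p')) ∧
    (∀ θ, α = .th θ → ∃ D, IStep (enc c K p) .tau D ∧
      IBis D (.par (enc c K p') (nim (2 ^ (K + c θ))))) := by
  induction h with
  | pre α p =>
    constructor
    · rintro μ rfl
      exact .pre _ _
    · rintro θ rfl
      exact ⟨_, .pre _ _, IBis.refl _⟩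
  | addL q _ ih =>
    constructor
    · intro μ hμ
      exact .addL _ (ih.1 μ hμ)
    · intro θ hθ
      obtain ⟨D, h1, h2⟩ := ih.2 θ hθ
      exact ⟨D, .addL _ h1, h2⟩
  | addR p _ ih =>
    constructor
    · intro μ hμ
      exact .addR _ (ih.1 μ hμ)
    · intro θ hθ
      obtain ⟨D, h1, h2⟩ := ih.2 θ hθ
      exact ⟨D, .addR _ h1, h2⟩
  | parL q _ ih =>
    constructor
    · intro μ hμ
      exact .parL _ (ih.1 μ hμ)
    · intro θ hθ
      obtain ⟨D, h1, h2⟩ := ih.2 θ hθ
      exact ⟨_, .parL _ h1, (h2.par (IBis.refl _)).trans (nim_out_left _ _ _)⟩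
  | parR p _ ih =>
    constructor
    · intro μ hμ
      exact .parR _ (ih.1 μ hμ)
    · intro θ hθ
      obtain ⟨D, h1, h2⟩ := ih.2 θ hθ
      exact ⟨_, .parR _ h1, ((IBis.refl _).par h2).trans (nim_out_right _ _ _)⟩
  | parC _ _ ih1 ih2 =>
    constructor
    · intro μ hμ
      cases hμ
      exact .parC (ih1.1 _ rfl) (ih2.1 _ rfl)
    · intro θ hθ
      simp at hθ
  | lm q _ ih =>
    constructor
    · intro μ hμ
      exact .lm _ (ih.1 μ hμ)
    · intro θ hθ
      obtain ⟨D, h1, h2⟩ := ih.2 θ hθ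
      exact ⟨_, .lm _ h1, (h2.par (IBis.refl _)).trans (nim_out_left _ _ _)⟩
  | cm _ _ ih1 ih2 =>
    constructor
    · intro μ hμ
      cases hμ
      exact .cm (ih1.1 _ rfl) (ih2.1 _ rfl)
    · intro θ hθ
      simp at hθ
  | res L _ ha ih =>
    constructor
    · rintro μ rfl
      exact .res L (ih.1 μ rfl) ha
    · intro θ hθ
      obtain ⟨D, h1, h2⟩ := ih.2 θ hθ
      exact ⟨_, .res L h1 trivial, (h2.res L).trans (nim_out_res _ _ _)⟩
  | @rel α p p' f _ ih =>
    constructor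
    · intro μ hμ
      cases α with
      | act ν =>
        simp only [IAct.map, IAct.act.injEq] at hμ
        subst hμ
        exact .rel f (ih.1 ν rfl)
      | th θ => simp [IAct.map] at hμ
    · intro θ hθ
      cases α with
      | act ν => simp [IAct.map] at hθ
      | th θ' =>
        simp only [IAct.map, IAct.th.injEq] at hθ
        subst hθ
        obtain ⟨D, h1, h2⟩ := ih.2 _ rfl
        refine ⟨.rel f D, ?_, (h2.rel f).trans (nim_out_rel _ _ _)⟩
        have := IStep.rel f h1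
        rwa [map_tau'] at this

lemma enc_bwd (p : ITerm N F) : ∀ {α : IAct N} {D : ITerm N F}, IStep (enc c K p) α D →
    (∃ μ p', α = .act μ ∧ D = enc c K p' ∧ IStep p (.act μ) p') ∨
    (α = .tau ∧ ∃ θ p', IStep p (.th θ) p' ∧
      IBis D (.par (enc c K p') (nim (2 ^ (K + c θ))))) := by
  induction p with
  | nil => intro α D h; exact absurd h step_nil
  | pre β p ih =>
    intro α D h
    cases β with
    | act μ =>
      rw [enc, step_pre] at h
      obtain ⟨rfl, rfl⟩ := h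
      exact Or.inl ⟨μ, p, rfl, rfl, .pre _ _⟩
    | th θ =>
      rw [enc, step_pre] at h
      obtain ⟨rfl, rfl⟩ := h
      exact Or.inr ⟨rfl, θ, p, .pre _ _, IBis.refl _⟩
  | add p q ihp ihq =>
    intro α D h
    rw [enc, step_add] at h
    rcases h with h | h
    · rcases ihp h with ⟨μ, p', rfl, rfl, h1⟩ | ⟨rfl, θ, p', h1, h2⟩
      · exact Or.inl ⟨μ, p', rfl, rfl, .addL _ h1⟩
      · exact Or.inr ⟨rfl, θ, p', .addL _ h1, h2⟩
    · rcases ihq h with ⟨μ, p', rfl, rfl, h1⟩ | ⟨rfl, θ, p', h1, h2⟩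
      · exact Or.inl ⟨μ, p', rfl, rfl, .addR _ h1⟩
      · exact Or.inr ⟨rfl, θ, p', .addR _ h1, h2⟩
  | par p q ihp ihq =>
    intro α D h
    rw [enc, step_par] at h
    rcases h with ⟨x, h, rfl⟩ | ⟨x, h, rfl⟩ | ⟨rfl, b, s, x, y, h, h', rfl⟩
    · rcases ihp h with ⟨μ, p', rfl, rfl, h1⟩ | ⟨rfl, θ, p', h1, h2⟩
      · exact Or.inl ⟨μ, .par p' q, rfl, rfl, .parL _ h1⟩
      · exact Or.inr ⟨rfl, θ, .par p' q, .parL _ h1,
          (h2.par (IBis.refl _)).trans (nim_out_left _ _ _)⟩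
    · rcases ihq h with ⟨μ, p', rfl, rfl, h1⟩ | ⟨rfl, θ, p', h1, h2⟩
      · exact Or.inl ⟨μ, .par p p', rfl, rfl, .parR _ h1⟩
      · exact Or.inr ⟨rfl, θ, .par p p', .parR _ h1,
          ((IBis.refl _).par h2).trans (nim_out_right _ _ _)⟩
    · rcases ihp h with ⟨μ, p', e1, rfl, h1⟩ | ⟨e1, _⟩
      · rcases ihq h' with ⟨μ', q', e2, rfl, h1'⟩ | ⟨e2, _⟩
        · cases e1
          cases e2
          exact Or.inl ⟨_, .par p' q', rfl, rfl, .parC h1 h1'⟩
        · simp at e2
      · simp at e1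
  | lm p q ihp ihq =>
    intro α D h
    rw [enc, step_lm] at h
    obtain ⟨x, h, rfl⟩ := h
    rcases ihp h with ⟨μ, p', rfl, rfl, h1⟩ | ⟨rfl, θ, p', h1, h2⟩
    · exact Or.inl ⟨μ, .par p' q, rfl, rfl, .lm _ h1⟩
    · exact Or.inr ⟨rfl, θ, .par p' q, .lm _ h1,
        (h2.par (IBis.refl _)).trans (nim_out_left _ _ _)⟩
  | cm p q ihp ihq =>
    intro α D h
    rw [enc, step_cm] at h
    obtain ⟨rfl, b, s, x, y, h, h', rfl⟩ := h
    rcases ihp h with ⟨μ, p', e1, rfl, h1⟩ | ⟨e1, _⟩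
    · rcases ihq h' with ⟨μ', q', e2, rfl, h1'⟩ | ⟨e2, _⟩
      · cases e1
        cases e2
        exact Or.inl ⟨_, .par p' q', rfl, rfl, .cm h1 h1'⟩
      · simp at e2
    · simp at e1
  | res L p ih =>
    intro α D h
    rw [enc, step_res] at h
    obtain ⟨x, h, ha, rfl⟩ := h
    rcases ih h with ⟨μ, p', rfl, rfl, h1⟩ | ⟨rfl, θ, p', h1, h2⟩
    · exact Or.inl ⟨μ, .res L p', rfl, rfl, .res L h1 ha⟩
    · exact Or.inr ⟨rfl, θ, .res L p', .res L h1 trivial,
        (h2.res L).trans (nim_out_res _ _ _)⟩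
  | rel f p ih =>
    intro α D h
    rw [enc, step_rel] at h
    obtain ⟨β, x, h, rfl, rfl⟩ := h
    rcases ih h with ⟨μ, p', rfl, rfl, h1⟩ | ⟨rfl, θ, p', h1, h2⟩
    · exact Or.inl ⟨_, .rel f p', rfl, rfl, .rel f h1⟩
    · exact Or.inr ⟨map_tau' f, θ, .rel f p', .rel f h1,
        (h2.rel f).trans (nim_out_rel _ _ _)⟩

lemma xor_ge {x i : ℕ} (hx : x < 2 ^ K) : 2 ^ (K + i) ≤ x ^^^ 2 ^ (K + i) := by
  apply Nat.ge_two_pow_of_testBit
  rw [Nat.testBit_xor, Nat.testBit_two_pow_self, Nat.testBit_lt_two_pow]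
  · rfl
  · exact lt_of_lt_of_le hx (Nat.pow_le_pow_right (by norm_num) (by omega))

lemma gru_enc_le (p : ITerm N F) (hp : p.size ≤ K) : gru (enc c K p) ≤ p.size := by
  induction hn : p.size using Nat.strong_induction_on generalizing p with
  | _ n ih =>
    by_contra hc
    push Not at hc
    obtain ⟨D, hD, hg⟩ := gru_ex hc
    rcases enc_bwd c K p hD with ⟨μ, p', e, rfl, h1⟩ | ⟨_, θ, p', h1, h2⟩
    · have h3 := h1.size_lt
      have h4 := ih p'.size (by omega) p' (by omega) rfl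
      omega
    · have h3 := h1.size_lt
      have h4 := ih p'.size (by omega) p' (by omega) rfl
      rw [h2.gru, gru_par_nim] at hg
      have h5 : gru (enc c K p') < 2 ^ K :=
        lt_of_le_of_lt (le_trans h4 (by omega)) (Nat.lt_two_pow_self : K < 2 ^ K)
      have h6 := xor_ge K (i := c θ) h5
      have h7 : 2 ^ K ≤ 2 ^ (K + c θ) := Nat.pow_le_pow_right (by norm_num) (by omega)
      have h8 : K < 2 ^ K := Nat.lt_two_pow_self
      omega

lemma gru_enc_lt (p : ITerm N F) (hp : p.size ≤ K) : gru (enc c K p) < 2 ^ K := by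
  have h8 : K < 2 ^ K := Nat.lt_two_pow_self
  have := gru_enc_le c K p hp
  omega

lemma xor_two_pow_inj {x y i j : ℕ} (hx : x < 2 ^ K) (hy : y < 2 ^ K)
    (h : x ^^^ 2 ^ (K + i) = y ^^^ 2 ^ (K + j)) : i = j := by
  have h1 := congrArg (fun z => Nat.testBit z (K + i)) h
  have hx' : x < 2 ^ (K + i) :=
    lt_of_lt_of_le hx (Nat.pow_le_pow_right (by norm_num) (by omega))
  have hy' : y < 2 ^ (K + i) :=
    lt_of_lt_of_le hy (Nat.pow_le_pow_right (by norm_num) (by omega))
  simp only [Nat.testBit_xor, Nat.testBit_two_pow_self, Nat.testBit_lt_two_pow hx',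
    Nat.testBit_lt_two_pow hy', Nat.testBit_two_pow] at h1
  simp at h1
  omega

lemma enc_reflect (hc : Function.Injective c) {p q : ITerm N F} (hp : p.size ≤ K)
    (hq : q.size ≤ K) (h : IBis (enc c K p) (enc c K q)) : IBis p q := by
  have key : ∀ {p q : ITerm N F}, p.size ≤ K → q.size ≤ K →
      IBis (enc c K p) (enc c K q) → ∀ (α : IAct N) (p' : ITerm N F), IStep p α p' →
      ∃ q', IStep q α q' ∧ (p'.size ≤ K ∧ q'.size ≤ K ∧ IBis (enc c K p') (enc c K q')) := by
    intro p q hp hq h α p' hs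
    have hsz := hs.size_lt
    have hgp := gru_enc_lt c K p' (by omega)
    cases α with
    | act μ =>
      obtain ⟨D, hD, hb⟩ := h.fwd ((enc_fwd c K hs).1 μ rfl)
      rcases enc_bwd c K q hD with ⟨μ', q', e, rfl, h1⟩ | ⟨_, θ, q', h1, h2⟩
      · cases e
        have := h1.size_lt
        exact ⟨q', h1, by omega, by omega, hb⟩
      · exfalso
        have h3 := h1.size_lt
        have hgq := gru_enc_lt c K q' (by omega)
        have h4 := (hb.trans h2).gru
        rw [gru_par_nim] at h4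
        have h6 := xor_ge K (i := c θ) hgq
        have h7 : 2 ^ K ≤ 2 ^ (K + c θ) := Nat.pow_le_pow_right (by norm_num) (by omega)
        omega
    | th θ =>
      obtain ⟨D₀, hD₀, hb₀⟩ := (enc_fwd c K hs).2 θ rfl
      obtain ⟨D, hD, hb⟩ := h.fwd hD₀
      rcases enc_bwd c K q hD with ⟨μ', q', e, rfl, h1⟩ | ⟨_, θ', q', h1, h2⟩
      · exfalso
        have h3 := h1.size_lt
        have hgq := gru_enc_lt c K q' (by omega)
        have h4 := (hb₀.symm.trans hb).gru
        rw [gru_par_nim] at h4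
        have h6 := xor_ge K (i := c θ) hgp
        have h7 : 2 ^ K ≤ 2 ^ (K + c θ) := Nat.pow_le_pow_right (by norm_num) (by omega)
        omega
      · have h3 := h1.size_lt
        have hgq := gru_enc_lt c K q' (by omega)
        have h4 := (hb₀.symm.trans hb).trans h2
        have h5 := h4.gru
        rw [gru_par_nim, gru_par_nim] at h5
        have h6 := hc (xor_two_pow_inj K hgp hgq h5)
        subst h6
        exact ⟨q', h1, by omega, by omega, cancel_nim h4⟩
  refine ⟨fun p q => p.size ≤ K ∧ q.size ≤ K ∧ IBis (enc c K p) (enc c K q), ?_, hp, hq, h⟩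
  rintro p q ⟨hp, hq, h⟩
  constructor
  · intro α p' hs
    exact key hp hq h α p' hs
  · intro α q' hs
    obtain ⟨p', h1, h2, h3, h4⟩ := key hq hp h.symm α q' hs
    exact ⟨p', h1, h3, h2, h4.symm⟩

end corr

instance [Finite N] : Finite (Th N) := by
  classical
  let e : Th N → Option (Option (Option (Bool × N × Bool))) := fun θ => match θ with
    | .z0 => none
    | .z1 => some none
    | .mk => some (some none)
    | .tx b s => some (some (some (true, b, s)))
    | .tz b s => some (some (some (false, b, s)))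
  refine Finite.of_injective e ?_
  intro x y h
  cases x <;> cases y <;> simp_all [e]

/-- Sound equations hold also for internal terms with markers. -/
theorem marker [Finite N] {s s' : Term N F ℕ} (hs : Sound s s') (τ : ℕ → ITerm N F) :
    IBis (inst τ s) (inst τ s') := by
  obtain ⟨c, hc⟩ := exists_injective_nat (Th N)
  exact enc_reflect c (ITerm.size (inst τ s) + ITerm.size (inst τ s')) hc (by omega) (by omega)
    (enc_sound c _ hs τ)

end Pool.Agent.Lib.MP_1be8fd_lc
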