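import Pool.Agent.Lib.MP_1be8fd_lc.StepB
import Pool.Agent.Lib.MP_1be8fd_lc.Marker

set_option autoImplicit false
set_option linter.unusedSectionVars false

namespace Pool.Agent.Lib.MP_1be8fd_lc

variable {N : Type} {F : Set (Relabelling N)}

lemma list_split {S : Type} {P Q E X : List S} {x : S} (h : P ++ Q = E ++ x :: X) :
    (∃ A, P = E ++ x :: A ∧ X = A ++ Q) ∨ (∃ A, E = P ++ A ∧ Q = A ++ x :: X) := by
  rw [List.append_eq_append_iff] at h
  rcases h with ⟨A, h1, h2⟩ | ⟨A, h1, h2⟩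
  · exact Or.inr ⟨A, h1, h2⟩
  · cases A with
    | nil =>
      refine Or.inr ⟨[], ?_, ?_⟩
      · simpa using h1.symm
      · simpa using h2.symm
    | cons y A =>
      rw [List.cons_append, List.cons.injEq] at h2
      obtain ⟨rfl, rfl⟩ := h2
      exact Or.inl ⟨A, h1, rfl⟩

section

variable [Fintype N]

/-- Replacing an occurrence of `s` by `s'` preserves the invariant, if `s ≈ s'` holds and `s` is
small. -/
theorem step_inv {G : Family N} {s s' : Term N F ℕ} (hsize : tsize s ≤ G.m)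
    {τ : ℕ → ITerm N F} (hτ : ∀ k, Adm (τ k))
    (hs : ∀ τ' : ℕ → ITerm N F, IBis (inst τ' s) (inst τ' s'))
    {t u : Sym N F} (hrw : RwS s s' t u) (ht : AdmS t) (hu : AdmS u)
    (hI : Inv G (inst2 τ t)) : Inv G (inst2 τ u) := by
  obtain ⟨hb, E, sd, B, Ξ, χ, hact, hG⟩ := hI
  have hbu : IBis (inst2 τ u) (RI G.a G.c G.w G.n xT G.n) :=
    (RwS_bis hrw (hs τ)).symm.trans hb
  rcases RwS_path hrw (hs τ) hact with ⟨Δ', h1, h2⟩ | ⟨P, Δs, hPt, hPu, h3, h4⟩
  · obtain ⟨E', B', Ξ', rfl, k1, k2, k3⟩ := CRel_split h2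
    exact ⟨hbu, E', sd, B', Ξ', χ, h1, Good_congr hG k1 k2 ((IBis.refl _).plug k3)⟩
  · rcases list_split h4.symm with ⟨A, h5, rfl⟩ | ⟨A, rfl, h5⟩
    · obtain ⟨Ξ', k1, k2⟩ := step_outer hτ (hs τ) hPu h5 h3 hG
      exact ⟨hbu, E, sd, B, Ξ', χ, k1, k2⟩
    · obtain ⟨k, P₂, Δk, h6, h7, h8⟩ := ActI_inst s h3
      rw [h5] at h8
      rcases list_split h8.symm with ⟨A', h9, rfl⟩ | ⟨A', rfl, h9⟩
      · obtain ⟨Pc, e, Pa, rfl, rfl, rfl, rfl⟩ := map_eq_split h9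
        exact step_explicit hsize hτ hs hrw ht hu hPt h6 h7 hb hG
      · subst h9
        obtain ⟨E', k1, k2⟩ := step_var hτ hs (AdmS_Act ht hPt).1 hPu h6 h7 hG
        exact ⟨hbu, E', sd, B, Ξ, χ, k1, k2⟩

end

/-! ### Derivations as chains of replacements -/

/-- `u` results from `t` by replacing one occurrence of `s σ` by `s' σ`. -/
inductive RSt (s s' : Term N F ℕ) (σ : ℕ → Term N F ℕ) : Term N F ℕ → Term N F ℕ → Prop
  | base : RSt s s' σ (s.subst σ) (s'.subst σ)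
  | pre (μ : Action N) {t u : Term N F ℕ} : RSt s s' σ t u → RSt s s' σ (t.pre μ) (u.pre μ)
  | addL {t u : Term N F ℕ} (v : Term N F ℕ) : RSt s s' σ t u → RSt s s' σ (t.add v) (u.add v)
  | addR {t u : Term N F ℕ} (v : Term N F ℕ) : RSt s s' σ t u → RSt s s' σ (v.add t) (v.add u)
  | parL {t u : Term N F ℕ} (v : Term N F ℕ) : RSt s s' σ t u → RSt s s' σ (t.par v) (u.par v)
  | parR {t u : Term N F ℕ} (v : Term N F ℕ) : RSt s s' σ t u → RSt s s' σ (v.par t) (v.par u)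
  | lmL {t u : Term N F ℕ} (v : Term N F ℕ) :
      RSt s s' σ t u → RSt s s' σ (t.lmerge v) (u.lmerge v)
  | lmR {t u : Term N F ℕ} (v : Term N F ℕ) :
      RSt s s' σ t u → RSt s s' σ (v.lmerge t) (v.lmerge u)
  | cmL {t u : Term N F ℕ} (v : Term N F ℕ) :
      RSt s s' σ t u → RSt s s' σ (t.cmerge v) (u.cmerge v)
  | cmR {t u : Term N F ℕ} (v : Term N F ℕ) :
      RSt s s' σ t u → RSt s s' σ (v.cmerge t) (v.cmerge u)
  | res (L : Set N) {t u : Term N F ℕ} : RSt s s' σ t u → RSt s s' σ (t.res L) (u.res L)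
  | rel (f : F) {t u : Term N F ℕ} : RSt s s' σ t u → RSt s s' σ (t.rel f) (u.rel f)

/-- One-step rewriting with the equations of `E`, in both directions. -/
def RStep (E : Set (Term N F ℕ × Term N F ℕ)) (t u : Term N F ℕ) : Prop :=
  ∃ s s' σ, ((s, s') ∈ E ∨ (s', s) ∈ E) ∧ RSt s s' σ t u

abbrev Chain (E : Set (Term N F ℕ × Term N F ℕ)) : Term N F ℕ → Term N F ℕ → Prop :=
  Relation.ReflTransGen (RStep E)

lemma RSt_symm {s s' : Term N F ℕ} {σ : ℕ → Term N F ℕ} {t u : Term N F ℕ}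
    (h : RSt s s' σ t u) : RSt s' s σ u t := by
  induction h with
  | base => exact .base
  | pre μ _ ih => exact .pre μ ih
  | addL v _ ih => exact .addL v ih
  | addR v _ ih => exact .addR v ih
  | parL v _ ih => exact .parL v ih
  | parR v _ ih => exact .parR v ih
  | lmL v _ ih => exact .lmL v ih
  | lmR v _ ih => exact .lmR v ih
  | cmL v _ ih => exact .cmL v ih
  | cmR v _ ih => exact .cmR v ih
  | res L _ ih => exact .res L ih
  | rel f _ ih => exact .rel f ih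

lemma RStep_symm {E : Set (Term N F ℕ × Term N F ℕ)} {t u : Term N F ℕ} (h : RStep E t u) :
    RStep E u t := by
  obtain ⟨s, s', σ, h1, h2⟩ := h
  exact ⟨s', s, σ, h1.symm, RSt_symm h2⟩

lemma Chain_map {E : Set (Term N F ℕ × Term N F ℕ)} {C : Term N F ℕ → Term N F ℕ}
    (hC : ∀ s s' σ t u, RSt s s' σ t u → RSt s s' σ (C t) (C u)) {t u : Term N F ℕ}
    (h : Chain E t u) : Chain E (C t) (C u) := by
  induction h with
  | refl => exact .refl
  | tail _ h ih =>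
    obtain ⟨s, s', σ, h1, h2⟩ := h
    exact ih.tail ⟨s, s', σ, h1, hC _ _ _ _ _ h2⟩

lemma Chain_symm {E : Set (Term N F ℕ × Term N F ℕ)} {t u : Term N F ℕ} (h : Chain E t u) :
    Chain E u t := by
  induction h with
  | refl => exact .refl
  | tail _ h ih => exact ih.head (RStep_symm h)

lemma chain_of_derives {E : Set (Term N F ℕ × Term N F ℕ)} {t u : Term N F ℕ}
    (h : Derives E t u) : Chain E t u := by
  induction h with
  | ax h σ => exact .single ⟨_, _, σ, Or.inl h, .base⟩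
  | refl t => exact .refl
  | symm _ ih => exact Chain_symm ih
  | trans _ _ ih1 ih2 => exact ih1.trans ih2
  | pre μ _ ih => exact Chain_map (fun _ _ _ _ _ h => .pre μ h) ih
  | add _ _ ih1 ih2 =>
    exact (Chain_map (C := fun z => z.add _) (fun _ _ _ _ _ h => .addL _ h) ih1).trans
      (Chain_map (C := fun z => Term.add _ z) (fun _ _ _ _ _ h => .addR _ h) ih2)
  | par _ _ ih1 ih2 =>
    exact (Chain_map (C := fun z => z.par _) (fun _ _ _ _ _ h => .parL _ h) ih1).trans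
      (Chain_map (C := fun z => Term.par _ z) (fun _ _ _ _ _ h => .parR _ h) ih2)
  | lmerge _ _ ih1 ih2 =>
    exact (Chain_map (C := fun z => z.lmerge _) (fun _ _ _ _ _ h => .lmL _ h) ih1).trans
      (Chain_map (C := fun z => Term.lmerge _ z) (fun _ _ _ _ _ h => .lmR _ h) ih2)
  | cmerge _ _ ih1 ih2 =>
    exact (Chain_map (C := fun z => z.cmerge _) (fun _ _ _ _ _ h => .cmL _ h) ih1).trans
      (Chain_map (C := fun z => Term.cmerge _ z) (fun _ _ _ _ _ h => .cmR _ h) ih2)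
  | res L _ ih => exact Chain_map (C := fun z => z.res L) (fun _ _ _ _ _ h => .res L h) ih
  | rel f _ ih => exact Chain_map (C := fun z => z.rel f) (fun _ _ _ _ _ h => .rel f h) ih

section

variable [Fintype N]

/-- the symbolic constant term of a term -/
def toConst (ρ₀ : ℕ → ITerm N F) (t : Term N F ℕ) : Sym N F :=
  t.subst fun k => .var (.inr (ρ₀ k))

lemma inst2_toConst (ρ₀ τ : ℕ → ITerm N F) (t : Term N F ℕ) :
    inst2 τ (toConst ρ₀ t) = inst ρ₀ t := by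
  rw [inst2, toConst, inst_subst]
  rfl

lemma AdmS_toConst {ρ₀ : ℕ → ITerm N F} (hρ : ∀ k, Adm (ρ₀ k)) (t : Term N F ℕ) :
    AdmS (toConst ρ₀ t) := by
  induction t with
  | var k => exact hρ k
  | nil => trivial
  | pre μ t ih => exact ih
  | add t u iht ihu => exact ⟨iht, ihu⟩
  | par t u iht ihu => exact ⟨iht, ihu⟩
  | lmerge t u iht ihu => exact ⟨iht, ihu⟩
  | cmerge t u iht ihu => exact ⟨iht, ihu⟩
  | res L t ih => exact ih
  | rel f t ih => exact ih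

/-- A replacement in a term gives a symbolic replacement. -/
lemma RSt_sym {s s' : Term N F ℕ} {σ : ℕ → Term N F ℕ} {ρ₀ : ℕ → ITerm N F}
    (hρ : ∀ k, Adm (ρ₀ k)) {t u : Term N F ℕ} (h : RSt s s' σ t u) :
    ∃ t' u' : Sym N F, RwS s s' t' u' ∧ AdmS t' ∧ AdmS u' ∧
      inst2 (fun k => inst ρ₀ (σ k)) t' = inst ρ₀ t ∧
      inst2 (fun k => inst ρ₀ (σ k)) u' = inst ρ₀ u := by
  induction h with
  | base =>
    refine ⟨toSym s, toSym s', .base, AdmS_toSym _, AdmS_toSym _, ?_, ?_⟩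
    · rw [inst2_toSym, inst_subst]
    · rw [inst2_toSym, inst_subst]
  | pre μ _ ih =>
    obtain ⟨t', u', h1, h2, h3, h4, h5⟩ := ih
    refine ⟨_, _, .pre μ h1, h2, h3, ?_, ?_⟩
    · simp only [inst, inst2] at h4 ⊢; rw [h4]
    · simp only [inst, inst2] at h5 ⊢; rw [h5]
  | addL v _ ih =>
    obtain ⟨t', u', h1, h2, h3, h4, h5⟩ := ih
    have e := inst2_toConst ρ₀ (fun k => inst ρ₀ (σ k)) v
    have a := AdmS_toConst hρ v
    refine ⟨_, _, .addL (toConst ρ₀ v) h1, ⟨h2, a⟩, ⟨h3, a⟩, ?_, ?_⟩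
    · simp only [inst, inst2] at h4 e ⊢; rw [h4, e]
    · simp only [inst, inst2] at h5 e ⊢; rw [h5, e]
  | addR v _ ih =>
    obtain ⟨t', u', h1, h2, h3, h4, h5⟩ := ih
    have e := inst2_toConst ρ₀ (fun k => inst ρ₀ (σ k)) v
    have a := AdmS_toConst hρ v
    refine ⟨_, _, .addR (toConst ρ₀ v) h1, ⟨a, h2⟩, ⟨a, h3⟩, ?_, ?_⟩
    · simp only [inst, inst2] at h4 e ⊢; rw [h4, e]
    · simp only [inst, inst2] at h5 e ⊢; rw [h5, e]
  | parL v _ ih =>
    obtain ⟨t', u', h1, h2, h3, h4, h5⟩ := ih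
    have e := inst2_toConst ρ₀ (fun k => inst ρ₀ (σ k)) v
    have a := AdmS_toConst hρ v
    refine ⟨_, _, .parL (toConst ρ₀ v) h1, ⟨h2, a⟩, ⟨h3, a⟩, ?_, ?_⟩
    · simp only [inst, inst2] at h4 e ⊢; rw [h4, e]
    · simp only [inst, inst2] at h5 e ⊢; rw [h5, e]
  | parR v _ ih =>
    obtain ⟨t', u', h1, h2, h3, h4, h5⟩ := ih
    have e := inst2_toConst ρ₀ (fun k => inst ρ₀ (σ k)) v
    have a := AdmS_toConst hρ v
    refine ⟨_, _, .parR (toConst ρ₀ v) h1, ⟨a, h2⟩, ⟨a, h3⟩, ?_, ?_⟩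
    · simp only [inst, inst2] at h4 e ⊢; rw [h4, e]
    · simp only [inst, inst2] at h5 e ⊢; rw [h5, e]
  | lmL v _ ih =>
    obtain ⟨t', u', h1, h2, h3, h4, h5⟩ := ih
    have e := inst2_toConst ρ₀ (fun k => inst ρ₀ (σ k)) v
    have a := AdmS_toConst hρ v
    refine ⟨_, _, .lmL (toConst ρ₀ v) h1, ⟨h2, a⟩, ⟨h3, a⟩, ?_, ?_⟩
    · simp only [inst, inst2] at h4 e ⊢; rw [h4, e]
    · simp only [inst, inst2] at h5 e ⊢; rw [h5, e]
  | lmR v _ ih =>
    obtain ⟨t', u', h1, h2, h3, h4, h5⟩ := ih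
    have e := inst2_toConst ρ₀ (fun k => inst ρ₀ (σ k)) v
    have a := AdmS_toConst hρ v
    refine ⟨_, _, .lmR (toConst ρ₀ v) h1, ⟨a, h2⟩, ⟨a, h3⟩, ?_, ?_⟩
    · simp only [inst, inst2] at h4 e ⊢; rw [h4, e]
    · simp only [inst, inst2] at h5 e ⊢; rw [h5, e]
  | cmL v _ ih =>
    obtain ⟨t', u', h1, h2, h3, h4, h5⟩ := ih
    have e := inst2_toConst ρ₀ (fun k => inst ρ₀ (σ k)) v
    have a := AdmS_toConst hρ v
    refine ⟨_, _, .cmL (toConst ρ₀ v) h1, ⟨h2, a⟩, ⟨h3, a⟩, ?_, ?_⟩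
    · simp only [inst, inst2] at h4 e ⊢; rw [h4, e]
    · simp only [inst, inst2] at h5 e ⊢; rw [h5, e]
  | cmR v _ ih =>
    obtain ⟨t', u', h1, h2, h3, h4, h5⟩ := ih
    have e := inst2_toConst ρ₀ (fun k => inst ρ₀ (σ k)) v
    have a := AdmS_toConst hρ v
    refine ⟨_, _, .cmR (toConst ρ₀ v) h1, ⟨a, h2⟩, ⟨a, h3⟩, ?_, ?_⟩
    · simp only [inst, inst2] at h4 e ⊢; rw [h4, e]
    · simp only [inst, inst2] at h5 e ⊢; rw [h5, e]
  | res L _ ih =>
    obtain ⟨t', u', h1, h2, h3, h4, h5⟩ := ih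
    refine ⟨_, _, .res L h1, h2, h3, ?_, ?_⟩
    · simp only [inst, inst2] at h4 ⊢; rw [h4]
    · simp only [inst, inst2] at h5 ⊢; rw [h5]
  | rel f _ ih =>
    obtain ⟨t', u', h1, h2, h3, h4, h5⟩ := ih
    refine ⟨_, _, .rel f h1, h2, h3, ?_, ?_⟩
    · simp only [inst, inst2] at h4 ⊢; rw [h4]
    · simp only [inst, inst2] at h5 ⊢; rw [h5]

lemma chain_inv {G : Family N} {E : Set (Term N F ℕ × Term N F ℕ)}
    (hE : ∀ e ∈ E, Sound e.1 e.2) (hsize : ∀ e ∈ E, tsize e.1 ≤ G.m ∧ tsize e.2 ≤ G.m)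
    {ρ₀ : ℕ → ITerm N F} (hρ : ∀ k, Adm (ρ₀ k)) {t u : Term N F ℕ} (h : Chain E t u)
    (hI : Inv G (inst ρ₀ t)) : Inv G (inst ρ₀ u) := by
  induction h with
  | refl => exact hI
  | tail _ h ih =>
    obtain ⟨s, s', σ, h1, h2⟩ := h
    obtain ⟨t', u', h3, h4, h5, h6, h7⟩ := RSt_sym hρ h2
    rw [← h7]
    rw [← h6] at ih
    have hsz : tsize s ≤ G.m := by
      rcases h1 with h1 | h1
      · exact (hsize _ h1).1
      · exact (hsize _ h1).2
    have hsd : ∀ τ' : ℕ → ITerm N F, IBis (inst τ' s) (inst τ' s') := by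
      intro τ'
      rcases h1 with h1 | h1
      · exact marker (hE _ h1) τ'
      · exact (marker (hE _ h1) τ').symm
    exact step_inv hsz (fun k => Adm_inst hρ (σ k)) hsd h3 h4 h5 ih

end

/-- There is no finite complete set of sound equations. -/
theorem no_finite_basis [Finite N] [Nontrivial N] (F : Set (Relabelling N)) :
    ¬ ∃ E : Set (Term N F ℕ × Term N F ℕ), E.Finite ∧ (∀ e ∈ E, Sound e.1 e.2) ∧
      ∀ s t : Term N F ℕ, Sound s t → Derives E s t := by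
  rintro ⟨E, hfin, hsound, hcomp⟩
  have := Fintype.ofFinite N
  obtain ⟨m, hm⟩ : ∃ m, ∀ e ∈ E, tsize e.1 ≤ m ∧ tsize e.2 ≤ m := by
    obtain ⟨m, hm⟩ := (hfin.image fun e => max (tsize e.1) (tsize e.2)).bddAbove
    refine ⟨m, fun e he => ?_⟩
    have := hm (Set.mem_image_of_mem _ he)
    exact ⟨(le_max_left _ _).trans this, (le_max_right _ _).trans this⟩
  obtain ⟨G, rfl⟩ := exists_family (N := N) m
  have hd := hcomp _ _ (sound_family G)
  have h1 := Inv_LI (F := F) G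
  have hρ : ∀ k : ℕ, Adm ((fun _ => xT : ℕ → ITerm N F) k) := fun _ => Adm_xT
  have h2 := chain_inv (G := G) hsound hm hρ (chain_of_derives hd)
    (by rw [inst_LE]; exact h1)
  rw [inst_RE] at h2
  exact not_Inv_RI G h2

end Pool.Agent.Lib.MP_1be8fd_lc
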