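import Pool.Agent.Lib.MP_1be8fd_lc.SymB

set_option autoImplicit false

namespace Pool.Agent.Lib.MP_1be8fd_lc

variable {N : Type} {F : Set (Relabelling N)}

/-- A run whose first move is made by the hole of a context `K`, and in which every move is newly
enabled, stays in the hole. -/
lemma comp_run {K : Ctx N F} {V : ℕ → ITerm N F} {l : ℕ → IAct N} {J : ℕ}
    (hl : ∀ i < J, l i ≠ .tau)
    (hrun : ∀ i < J, IStep (V i) (l i) (V (i + 1)))
    (hadj : ∀ i, i + 1 < J → ¬ ∃ q, IStep (V i) (l (i + 1)) q)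
    {u₀ : ITerm N F} (h0 : V 0 = plug K u₀)
    (h1 : 0 < J → ∃ α u₁, IStep u₀ α u₁ ∧ Img K α (l 0) ∧ V 1 = plug K u₁) :
    ∃ U : ℕ → ITerm N F, U 0 = u₀ ∧ (∀ j ≤ J, V j = plug K (U j)) ∧
      ∀ j < J, ∃ α, IStep (U j) α (U (j + 1)) ∧ Img K α (l j) := by
  classical
  have key : ∀ i u, i + 1 < J → V i = plug K u → ∀ u', V (i + 1) = plug K u' →
      ∃ α u'', IStep u' α u'' ∧ Img K α (l (i + 1)) ∧ V (i + 2) = plug K u'' := by
    intro i u hi hu u' hu'
    have hs := hrun (i + 1) hi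
    rw [hu'] at hs
    rcases plug_inv_ne hs (hl _ hi) with ⟨α, h', h1, h2, h3⟩ | ⟨Γ', hc, _⟩
    · exact ⟨α, h', h1, h2, h3⟩
    · exact absurd ⟨_, hu ▸ step_plugC u hc⟩ (hadj i hi)
  have ex : ∀ j ≤ J, ∃ u, V j = plug K u := by
    have : ∀ j, (j ≤ J → ∃ u, V j = plug K u) ∧ (j + 1 ≤ J → ∃ u, V (j + 1) = plug K u) := by
      intro j
      induction j with
      | zero =>
        refine ⟨fun _ => ⟨u₀, h0⟩, fun h => ?_⟩
        obtain ⟨α, u₁, _, _, h⟩ := h1 (by omega)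
        exact ⟨u₁, h⟩
      | succ j ih =>
        refine ⟨ih.2, fun h => ?_⟩
        obtain ⟨u, hu⟩ := ih.1 (by omega)
        obtain ⟨u', hu'⟩ := ih.2 (by omega)
        obtain ⟨α, u'', _, _, h⟩ := key j u (by omega) hu u' hu'
        exact ⟨u'', h⟩
    exact fun j hj => (this j).1 hj
  have : Nonempty (ITerm N F) := ⟨.nil⟩
  choose! U hU using ex
  have hU0 : U 0 = u₀ := plug_inj ((hU 0 (Nat.zero_le _)).symm.trans h0)
  refine ⟨U, hU0, hU, ?_⟩
  intro j hj
  cases j with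
  | zero =>
    obtain ⟨α, u₁, hs, hi, h⟩ := h1 hj
    have : U 1 = u₁ := plug_inj ((hU 1 hj).symm.trans h)
    exact ⟨α, by rw [hU0, zero_add, this]; exact hs, hi⟩
  | succ j =>
    obtain ⟨α, u'', hs, hi, h⟩ := key j (U j) hj (hU j (by omega)) (U (j + 1)) (hU (j + 1) hj.le)
    have : U (j + 2) = u'' := plug_inj ((hU (j + 2) hj).symm.trans h)
    exact ⟨α, by rw [this]; exact hs, hi⟩

/-- Symbolic version of `plug`. -/
def plugS : SCtx N F → Sym N F → Sym N F
  | [], v => v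
  | .fpar false r :: P, v => .par (plugS P v) r
  | .fpar true r :: P, v => .par r (plugS P v)
  | .fres L :: P, v => .res L (plugS P v)
  | .frel f :: P, v => .rel f (plugS P v)

lemma inst2_plugS (τ : ℕ → ITerm N F) (P : SCtx N F) (v : Sym N F) :
    inst2 τ (plugS P v) = plug (instC τ P) (inst2 τ v) := by
  induction P with
  | nil => rfl
  | cons fr P ih =>
    rcases fr with ⟨sd, r⟩ | L | f
    · cases sd
      · show inst2 τ (.par (plugS P v) r) = _
        show ITerm.par (inst2 τ (plugS P v)) (inst2 τ r) = _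
        rw [ih]; rfl
      · show ITerm.par (inst2 τ r) (inst2 τ (plugS P v)) = _
        rw [ih]; rfl
    · show ITerm.res L (inst2 τ (plugS P v)) = _
      rw [ih]; rfl
    · show ITerm.rel f (inst2 τ (plugS P v)) = _
      rw [ih]; rfl

lemma lab_ne_tau (l : N × Bool) : lab l ≠ .tau := by
  intro h; cases h

lemma lab_map_inv {f : Relabelling N} {β : IAct N} {l : N × Bool} (h : lab l = β.map f) :
    ∃ l', β = lab l' := by
  rcases β with μ | θ
  · rcases μ with ⟨a, co⟩ | _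
    · exact ⟨(a, co), rfl⟩
    · exfalso
      have h' : IAct.act (Action.vis l.1 l.2) = IAct.act (f.toFun Action.tau) := h
      rw [f.map_tau] at h'
      cases h'
  · exfalso
    have h' : IAct.act (Action.vis l.1 l.2) = IAct.th θ := h
    cases h'

section

variable [Fintype N]

lemma AdmS_plugS {P : SCtx N F} (hP : AdmSC P) {v : Sym N F} (hv : AdmS v) :
    AdmS (plugS P v) := by
  induction P with
  | nil => exact hv
  | cons fr P ih =>
    have hP' : AdmSC P := fun sd w hw => hP sd w (List.mem_cons_of_mem _ hw)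
    rcases fr with ⟨sd, r⟩ | L | f
    · have hr : AdmS r := hP sd r List.mem_cons_self
      cases sd
      · exact ⟨ih hP', hr⟩
      · exact ⟨hr, ih hP'⟩
    · exact ih hP'
    · exact ih hP'

lemma AdmSC_nil : AdmSC ([] : SCtx N F) := by
  intro sd v h; simp at h

lemma AdmSC_append {P Q : SCtx N F} (hP : AdmSC P) (hQ : AdmSC Q) : AdmSC (P ++ Q) := by
  intro sd v h
  rcases List.mem_append.1 h with h | h
  · exact hP sd v h
  · exact hQ sd v h

lemma AdmSC_cons_par {P : SCtx N F} {sd : Bool} {r : Sym N F} (hr : AdmS r) (hP : AdmSC P) :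
    AdmSC (.fpar sd r :: P) := by
  intro sd' v h
  rcases List.mem_cons.1 h with h | h
  · cases h; exact hr
  · exact hP sd' v h

lemma AdmSC_cons_res {P : SCtx N F} {L : Set N} (hP : AdmSC P) :
    AdmSC (.fres L :: P) := by
  intro sd' v h
  rcases List.mem_cons.1 h with h | h
  · cases h
  · exact hP sd' v h

lemma AdmSC_cons_rel {P : SCtx N F} {f : F} (hP : AdmSC P) :
    AdmSC (.frel f :: P) := by
  intro sd' v h
  rcases List.mem_cons.1 h with h | h
  · cases h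
  · exact hP sd' v h

/-- The conclusion of `newly`. -/
def NewlyC (τ : ℕ → ITerm N F) (e : Term N F ℕ) (V₁ V₂ : ITerm N F) (l₀ l₁ : N × Bool) : Prop :=
    (∃ (K : SCtx N F) (e' : Term N F ℕ) (r : ITerm N F) (l' : N × Bool), AdmSC K ∧
      tsize e' < tsize e ∧ V₁ = plug (instC τ K) (inst τ e') ∧ V₂ = plug (instC τ K) r ∧
      IStep (inst τ e') (lab l') r ∧ Img K (lab l') (lab l₁) ∧
      ∀ τ₂, Above τ τ₂ → IStep (inst τ₂ e) (lab l₀) (plug (instC τ₂ K) (inst τ₂ e'))) ∨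
    (∃ (K : SCtx N F) (x : ℕ) (ν l' : N × Bool) (D D' : ITerm N F), AdmSC K ∧
      IStep (τ x) (lab ν) D ∧ V₁ = plug (instC τ K) D ∧ IStep D (lab l') D' ∧
      V₂ = plug (instC τ K) D' ∧ Img K (lab l') (lab l₁) ∧
      ∀ τ₂, Above τ τ₂ → ∀ Y, IStep (τ₂ x) (lab ν) Y →
        IStep (inst τ₂ e) (lab l₀) (plug (instC τ₂ K) Y))

/-- Transfer of the conclusion of `newly` from a subterm through a frame (or no frame). -/
lemma NewlyC.lift {τ : ℕ → ITerm N F} {t e : Term N F ℕ} {V₁ V₂ W₁ W₂ : ITerm N F}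
    {l₀ l₁ m₀ m₁ : N × Bool} (h : NewlyC τ t V₁ V₂ l₀ l₁) (Q : SCtx N F) (hQ : AdmSC Q)
    (hsz : tsize t < tsize e) (h1 : W₁ = plug (instC τ Q) V₁) (h2 : W₂ = plug (instC τ Q) V₂)
    (him : Img Q (lab l₁) (lab m₁))
    (hstep : ∀ τ₂, Above τ τ₂ → ∀ Y, IStep (inst τ₂ t) (lab l₀) Y →
      IStep (inst τ₂ e) (lab m₀) (plug (instC τ₂ Q) Y)) :
    NewlyC τ e W₁ W₂ m₀ m₁ := by
  rcases h with ⟨K, e', r, l', hK, hs, e1, e2, hst, hi, hab⟩ |
    ⟨K, x, ν, l', D, D', hK, hx, e1, hst, e2, hi, hab⟩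
  · refine Or.inl ⟨Q ++ K, e', r, l', AdmSC_append hQ hK, hs.trans hsz, ?_, ?_, hst, ?_, ?_⟩
    · rw [instC_append, plug_append, ← e1, h1]
    · rw [instC_append, plug_append, ← e2, h2]
    · exact Img_append.2 ⟨_, hi, him⟩
    · intro τ₂ h₂
      rw [instC_append, plug_append]
      exact hstep τ₂ h₂ _ (hab τ₂ h₂)
  · refine Or.inr ⟨Q ++ K, x, ν, l', D, D', AdmSC_append hQ hK, hx, ?_, hst, ?_, ?_, ?_⟩
    · rw [instC_append, plug_append, ← e1, h1]
    · rw [instC_append, plug_append, ← e2, h2]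
    · exact Img_append.2 ⟨_, hi, him⟩
    · intro τ₂ h₂ Y hY
      rw [instC_append, plug_append]
      exact hstep τ₂ h₂ _ (hab τ₂ h₂ Y hY)

lemma newly_aux {τ : ℕ → ITerm N F} (hτ : ∀ k, Adm (τ k)) (e : Term N F ℕ) :
    ∀ {V₁ V₂ : ITerm N F} {l₀ l₁ : N × Bool}, IStep (inst τ e) (lab l₀) V₁ →
      IStep V₁ (lab l₁) V₂ → (¬ ∃ q, IStep (inst τ e) (lab l₁) q) →
      NewlyC τ e V₁ V₂ l₀ l₁ := by
  induction e with
  | var x =>
    intro V₁ V₂ l₀ l₁ h0 h1 _
    refine Or.inr ⟨[], x, l₀, l₁, V₁, V₂, AdmSC_nil, h0, rfl, h1, rfl, rfl, ?_⟩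
    intro τ₂ _ Y hY
    exact hY
  | nil =>
    intro V₁ V₂ l₀ l₁ h0
    exact absurd h0 step_nil
  | pre μ t _ =>
    intro V₁ V₂ l₀ l₁ h0 h1 _
    rw [inst, step_pre] at h0
    obtain ⟨hμ, rfl⟩ := h0
    refine Or.inl ⟨[], t, V₂, l₁, AdmSC_nil, by simp [tsize], rfl, rfl, h1, rfl, ?_⟩
    intro τ₂ _
    rw [hμ]
    exact .pre _ _
  | add t u iht ihu =>
    intro V₁ V₂ l₀ l₁ h0 h1 hn
    rw [inst, step_add] at h0
    rcases h0 with h0 | h0
    · refine (iht h0 h1 (fun ⟨q, hq⟩ => hn ⟨q, .addL _ hq⟩)).lift [] AdmSC_nil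
        (by simp only [tsize]; omega) rfl rfl rfl ?_
      intro τ₂ _ Y hY
      exact .addL _ hY
    · refine (ihu h0 h1 (fun ⟨q, hq⟩ => hn ⟨q, .addR _ hq⟩)).lift [] AdmSC_nil
        (by simp only [tsize]; omega) rfl rfl rfl ?_
      intro τ₂ _ Y hY
      exact .addR _ hY
  | par t u iht ihu =>
    intro V₁ V₂ l₀ l₁ h0 h1 hn
    rw [inst, step_par] at h0
    rcases h0 with ⟨p', h0, rfl⟩ | ⟨q', h0, rfl⟩ | ⟨h0, _⟩
    · rw [step_par] at h1
      rcases h1 with ⟨p'', h1, rfl⟩ | ⟨q'', h1, rfl⟩ | ⟨h1, _⟩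
      · refine (iht h0 h1 (fun ⟨q, hq⟩ => hn ⟨_, .parL _ hq⟩)).lift [.fpar false (toSym u)]
          (AdmSC_cons_par (AdmS_toSym u) AdmSC_nil) (by simp only [tsize]; omega) ?_ ?_ ?_ ?_
        · show _ = ITerm.par p' (inst2 τ (toSym u)); rw [inst2_toSym]
        · show _ = ITerm.par p'' (inst2 τ (toSym u)); rw [inst2_toSym]
        · exact ⟨_, rfl, rfl⟩
        · intro τ₂ _ Y hY
          show IStep _ _ (ITerm.par Y (inst2 τ₂ (toSym u)))
          rw [inst2_toSym]
          exact .parL _ hY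
      · exact absurd ⟨_, .parR _ h1⟩ hn
      · exact absurd h1 (lab_ne_tau _)
    · rw [step_par] at h1
      rcases h1 with ⟨p'', h1, rfl⟩ | ⟨q'', h1, rfl⟩ | ⟨h1, _⟩
      · exact absurd ⟨_, .parL _ h1⟩ hn
      · refine (ihu h0 h1 (fun ⟨q, hq⟩ => hn ⟨_, .parR _ hq⟩)).lift [.fpar true (toSym t)]
          (AdmSC_cons_par (AdmS_toSym t) AdmSC_nil) (by simp only [tsize]; omega) ?_ ?_ ?_ ?_
        · show _ = ITerm.par (inst2 τ (toSym t)) q'; rw [inst2_toSym]
        · show _ = ITerm.par (inst2 τ (toSym t)) q''; rw [inst2_toSym]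
        · exact ⟨_, rfl, rfl⟩
        · intro τ₂ _ Y hY
          show IStep _ _ (ITerm.par (inst2 τ₂ (toSym t)) Y)
          rw [inst2_toSym]
          exact .parR _ hY
      · exact absurd h1 (lab_ne_tau _)
    · exact absurd h0 (lab_ne_tau _)
  | lmerge t u iht _ =>
    intro V₁ V₂ l₀ l₁ h0 h1 hn
    rw [inst, step_lm] at h0
    obtain ⟨p', h0, rfl⟩ := h0
    rw [step_par] at h1
    rcases h1 with ⟨p'', h1, rfl⟩ | ⟨q'', h1, rfl⟩ | ⟨h1, _⟩
    · refine (iht h0 h1 (fun ⟨q, hq⟩ => hn ⟨_, .lm _ hq⟩)).lift [.fpar false (toSym u)]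
        (AdmSC_cons_par (AdmS_toSym u) AdmSC_nil) (by simp only [tsize]; omega) ?_ ?_ ?_ ?_
      · show _ = ITerm.par p' (inst2 τ (toSym u)); rw [inst2_toSym]
      · show _ = ITerm.par p'' (inst2 τ (toSym u)); rw [inst2_toSym]
      · exact ⟨_, rfl, rfl⟩
      · intro τ₂ _ Y hY
        show IStep _ _ (ITerm.par Y (inst2 τ₂ (toSym u)))
        rw [inst2_toSym]
        exact .lm _ hY
    · have h0' : IStep (inst2 τ (toSym t)) (.act (Action.vis l₀.1 l₀.2)) p' := by
        rw [inst2_toSym]; exact h0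
      obtain ⟨v', hv', rfl, hab⟩ := symS hτ (AdmS_toSym t) h0'
      refine Or.inl ⟨[.fpar true v'], u, q'', l₁, AdmSC_cons_par hv' AdmSC_nil,
        by simp only [tsize]; omega, rfl, rfl, h1, ⟨_, rfl, rfl⟩, ?_⟩
      intro τ₂ h₂
      have := hab τ₂ h₂
      rw [inst2_toSym] at this
      exact .lm _ this
    · exact absurd h1 (lab_ne_tau _)
  | cmerge t u _ _ =>
    intro V₁ V₂ l₀ l₁ h0
    rw [inst, step_cm] at h0
    exact absurd h0.1 (lab_ne_tau _)
  | res L t ih =>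
    intro V₁ V₂ l₀ l₁ h0 h1 hn
    rw [inst, step_res] at h0
    obtain ⟨p', h0, ha0, rfl⟩ := h0
    rw [step_res] at h1
    obtain ⟨p'', h1, ha1, rfl⟩ := h1
    refine (ih h0 h1 (fun ⟨q, hq⟩ => hn ⟨_, .res _ hq ha1⟩)).lift [.fres L]
      (AdmSC_cons_res AdmSC_nil) (by simp [tsize]) rfl rfl ⟨_, rfl, rfl, ha1⟩ ?_
    intro τ₂ _ Y hY
    exact .res _ hY ha0
  | rel f t ih =>
    intro V₁ V₂ l₀ l₁ h0 h1 hn
    rw [inst, step_rel] at h0
    obtain ⟨β, p', h0, hβ, rfl⟩ := h0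
    rw [step_rel] at h1
    obtain ⟨β', p'', h1, hβ', rfl⟩ := h1
    obtain ⟨m₀, rfl⟩ := lab_map_inv hβ
    obtain ⟨m₁, rfl⟩ := lab_map_inv hβ'
    refine (ih h0 h1 (fun ⟨q, hq⟩ => hn ⟨.rel f q, by rw [hβ']; exact .rel _ hq⟩)).lift [.frel f]
      (AdmSC_cons_rel AdmSC_nil) (by simp [tsize]) rfl rfl ⟨_, rfl, hβ'⟩ ?_
    intro τ₂ _ Y hY
    rw [hβ]
    exact .rel _ hY

/-- Two consecutive moves of an instance of a term, the second one newly enabled. -/
lemma newly {τ : ℕ → ITerm N F} (hτ : ∀ k, Adm (τ k)) (e : Term N F ℕ) {V₁ V₂ : ITerm N F}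
    {l₀ l₁ : N × Bool} (h0 : IStep (inst τ e) (lab l₀) V₁) (h1 : IStep V₁ (lab l₁) V₂)
    (hn : ¬ ∃ q, IStep (inst τ e) (lab l₁) q) :
    (∃ (K : SCtx N F) (e' : Term N F ℕ) (r : ITerm N F) (l' : N × Bool), AdmSC K ∧
      tsize e' < tsize e ∧ V₁ = plug (instC τ K) (inst τ e') ∧ V₂ = plug (instC τ K) r ∧
      IStep (inst τ e') (lab l') r ∧ Img K (lab l') (lab l₁) ∧
      ∀ τ₂, Above τ τ₂ → IStep (inst τ₂ e) (lab l₀) (plug (instC τ₂ K) (inst τ₂ e'))) ∨
    (∃ (K : SCtx N F) (x : ℕ) (ν l' : N × Bool) (D D' : ITerm N F), AdmSC K ∧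
      IStep (τ x) (lab ν) D ∧ V₁ = plug (instC τ K) D ∧ IStep D (lab l') D' ∧
      V₂ = plug (instC τ K) D' ∧ Img K (lab l') (lab l₁) ∧
      ∀ τ₂, Above τ τ₂ → ∀ Y, IStep (τ₂ x) (lab ν) Y →
        IStep (inst τ₂ e) (lab l₀) (plug (instC τ₂ K) Y)) :=
  newly_aux hτ e h0 h1 hn

omit [Fintype N] in
/-- The run after the first move, all in the hole of a context. -/
lemma tail_run {τ : ℕ → ITerm N F} {K : SCtx N F} (V : ℕ → ITerm N F) (l : ℕ → N × Bool) (J : ℕ)
    (hJ : 1 < J) (hrun : ∀ i < J, IStep (V i) (lab (l i)) (V (i + 1)))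
    (hadj : ∀ i, i + 1 < J → ¬ ∃ q, IStep (V i) (lab (l (i + 1))) q)
    {u₀ u₁ : ITerm N F} {l' : N × Bool} (h0 : V 1 = plug (instC τ K) u₀)
    (h1 : V 2 = plug (instC τ K) u₁) (hs : IStep u₀ (lab l') u₁)
    (hi : Img K (lab l') (lab (l 1))) :
    ∃ (U : ℕ → ITerm N F) (m : ℕ → N × Bool), U 0 = u₀ ∧
      (∀ j ≤ J - 1, V (j + 1) = plug (instC τ K) (U j)) ∧
      ∀ j < J - 1, IStep (U j) (lab (m j)) (U (j + 1)) ∧ Img K (lab (m j)) (lab (l (j + 1))) := by
  obtain ⟨U, hU0, hU, hU'⟩ := comp_run (K := instC τ K) (V := fun i => V (i + 1))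
    (l := fun i => lab (l (i + 1))) (J := J - 1) (fun i _ => lab_ne_tau _)
    (fun i hi => hrun (i + 1) (by omega)) (fun i hi => hadj (i + 1) (by omega)) (u₀ := u₀) h0
    (fun _ => ⟨lab l', u₁, hs, Img_instC.2 hi, h1⟩)
  have : ∀ j, ∃ m : N × Bool, j < J - 1 →
      IStep (U j) (lab m) (U (j + 1)) ∧ Img K (lab m) (lab (l (j + 1))) := by
    intro j
    by_cases hj : j < J - 1
    · obtain ⟨α, h1, h2⟩ := hU' j hj
      have h2' : Img K α (lab (l (j + 1))) := Img_instC.1 h2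
      obtain ⟨b, s, rfl⟩ := Img_vis h2'
      exact ⟨(b, s), fun _ => ⟨h1, h2'⟩⟩
    · exact ⟨l 0, fun h => absurd h hj⟩
  choose m hm using this
  exact ⟨U, m, hU0, hU, hm⟩

lemma inner_aux {τ : ℕ → ITerm N F} (hτ : ∀ k, Adm (τ k)) (n : ℕ) :
    ∀ (e : Term N F ℕ), tsize e ≤ n → ∀ (V : ℕ → ITerm N F)
    (l : ℕ → N × Bool) (J : ℕ), tsize e < J → V 0 = inst τ e →
    (∀ i < J, IStep (V i) (lab (l i)) (V (i + 1))) →
    (∀ i, i + 1 < J → ¬ ∃ q, IStep (V i) (lab (l (i + 1))) q) →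
    ∃ (j : ℕ) (v : ℕ → Sym N F) (x : ℕ) (ν : N × Bool) (K : SCtx N F) (D : ℕ → ITerm N F)
      (ρ : ℕ → N × Bool),
      j < tsize e ∧ v 0 = toSym e ∧ (∀ i ≤ j, AdmS (v i) ∧ V i = inst2 τ (v i)) ∧
      AdmSC K ∧
      (∀ τ₂, Above τ τ₂ →
        (∀ i < j, IStep (inst2 τ₂ (v i)) (lab (l i)) (inst2 τ₂ (v (i + 1)))) ∧
        ∀ Y, IStep (τ₂ x) (lab ν) Y →
          IStep (inst2 τ₂ (v j)) (lab (l j)) (plug (instC τ₂ K) Y)) ∧
      IStep (τ x) (lab ν) (D (j + 1)) ∧
      (∀ i, j < i → i ≤ J → V i = plug (instC τ K) (D i)) ∧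
      (∀ i, j < i → i < J → IStep (D i) (lab (ρ i)) (D (i + 1)) ∧
        Img K (lab (ρ i)) (lab (l i))) := by
  induction n with
  | zero =>
    intro e he
    exfalso
    cases e <;> simp [tsize] at he
  | succ n IH =>
    intro e he V l J hJ h0 hrun hadj
    have hpos : 0 < tsize e := by cases e <;> simp [tsize]
    have s0 : IStep (inst τ e) (lab (l 0)) (V 1) := by
      rw [← h0]; exact hrun 0 (by omega)
    have hn : ¬ ∃ q, IStep (inst τ e) (lab (l 1)) q := by
      rw [← h0]; exact hadj 0 (by omega)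
    rcases newly hτ e s0 (hrun 1 (by omega)) hn with
      ⟨K, e', r, l', hK, hsz, e1, e2, hst, him, hab⟩ |
      ⟨K, x, ν, l', D, D', hK, hx, e1, hst, e2, him, hab⟩
    · obtain ⟨U, m, hU0, hU, hm⟩ := tail_run (τ := τ) (K := K) V l J (by omega) hrun hadj
        e1 e2 hst him
      obtain ⟨j, v, x, ν, K', D, ρ, hj, hv0, hv, hK', hab', hx, hD, hρ⟩ :=
        IH e' (by omega) U m (J - 1) (by omega) hU0 (fun i hi => (hm i hi).1) (by
          rintro i hi ⟨q, hq⟩
          refine hadj (i + 1) (by omega) ⟨plug (instC τ K) q, ?_⟩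
          rw [hU i (by omega)]
          exact step_plug hq (Img_instC.2 (hm (i + 1) hi).2))
      refine ⟨j + 1, fun i => if i = 0 then toSym e else plugS K (v (i - 1)), x, ν, K ++ K',
        fun i => D (i - 1), fun i => ρ (i - 1), by omega, by simp, ?_, AdmSC_append hK hK', ?_,
        ?_, ?_, ?_⟩
      · intro i hi
        cases i with
        | zero => exact ⟨by simpa using AdmS_toSym e, by simp [h0, inst2_toSym]⟩
        | succ i =>
          simp only [Nat.add_eq_zero_iff, one_ne_zero, and_false, if_false, Nat.add_sub_cancel]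
          refine ⟨AdmS_plugS hK (hv i (by omega)).1, ?_⟩
          rw [inst2_plugS, ← (hv i (by omega)).2]
          exact hU i (by omega)
      · intro τ₂ h₂
        obtain ⟨ha, hb⟩ := hab' τ₂ h₂
        constructor
        · intro i hi
          cases i with
          | zero =>
            simp only [if_true, Nat.add_eq_zero_iff, one_ne_zero, and_false, if_false,
              Nat.add_sub_cancel]
            rw [inst2_plugS, hv0, inst2_toSym, inst2_toSym]
            exact hab τ₂ h₂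
          | succ i =>
            simp only [Nat.add_eq_zero_iff, one_ne_zero, and_false, if_false,
              Nat.add_sub_cancel]
            rw [inst2_plugS, inst2_plugS]
            exact step_plug (ha i (by omega)) (Img_instC.2 (hm i (by omega)).2)
        · intro Y hY
          simp only [Nat.add_eq_zero_iff, one_ne_zero, and_false, if_false,
              Nat.add_sub_cancel]
          rw [inst2_plugS, instC_append, plug_append]
          exact step_plug (hb Y hY) (Img_instC.2 (hm j (by omega)).2)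
      · simpa using hx
      · intro i hi hiJ
        obtain ⟨i, rfl⟩ : ∃ k, i = k + 1 := ⟨i - 1, by omega⟩
        simp only [Nat.add_sub_cancel]
        rw [instC_append, plug_append, ← hD i (by omega) (by omega)]
        exact hU i (by omega)
      · intro i hi hiJ
        obtain ⟨i, rfl⟩ : ∃ k, i = k + 1 := ⟨i - 1, by omega⟩
        simp only [Nat.add_sub_cancel]
        have := hρ i (by omega) (by omega)
        exact ⟨this.1, Img_append.2 ⟨_, this.2, (hm i (by omega)).2⟩⟩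
    · obtain ⟨U, m, hU0, hU, hm⟩ := tail_run (τ := τ) (K := K) V l J (by omega) hrun hadj
        e1 e2 hst him
      refine ⟨0, fun _ => toSym e, x, ν, K, fun i => U (i - 1), fun i => m (i - 1), hpos, rfl,
        ?_, hK, ?_, ?_, ?_, ?_⟩
      · intro i hi
        obtain rfl : i = 0 := by omega
        exact ⟨AdmS_toSym e, by rw [inst2_toSym, h0]⟩
      · intro τ₂ h₂
        refine ⟨fun i hi => absurd hi (by omega), fun Y hY => ?_⟩
        rw [inst2_toSym]
        exact hab τ₂ h₂ Y hY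
      · show IStep (τ x) (lab ν) (U 0)
        rw [hU0]; exact hx
      · intro i hi hiJ
        obtain ⟨i, rfl⟩ : ∃ k, i = k + 1 := ⟨i - 1, by omega⟩
        exact hU i (by omega)
      · intro i hi hiJ
        obtain ⟨i, rfl⟩ : ∃ k, i = k + 1 := ⟨i - 1, by omega⟩
        exact hm i (by omega)

/-- A long run of an instance of a small term, in which every move is newly enabled, enters a
variable early and then stays in it. -/
lemma inner {τ : ℕ → ITerm N F} (hτ : ∀ k, Adm (τ k)) (e : Term N F ℕ) (V : ℕ → ITerm N F)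
    (l : ℕ → N × Bool) (J : ℕ) (hJ : tsize e < J) (h0 : V 0 = inst τ e)
    (hrun : ∀ i < J, IStep (V i) (lab (l i)) (V (i + 1)))
    (hadj : ∀ i, i + 1 < J → ¬ ∃ q, IStep (V i) (lab (l (i + 1))) q) :
    ∃ (j : ℕ) (v : ℕ → Sym N F) (x : ℕ) (ν : N × Bool) (K : SCtx N F) (D : ℕ → ITerm N F)
      (ρ : ℕ → N × Bool),
      j < tsize e ∧ v 0 = toSym e ∧ (∀ i ≤ j, AdmS (v i) ∧ V i = inst2 τ (v i)) ∧
      AdmSC K ∧
      (∀ τ₂, Above τ τ₂ →
        (∀ i < j, IStep (inst2 τ₂ (v i)) (lab (l i)) (inst2 τ₂ (v (i + 1)))) ∧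
        ∀ Y, IStep (τ₂ x) (lab ν) Y →
          IStep (inst2 τ₂ (v j)) (lab (l j)) (plug (instC τ₂ K) Y)) ∧
      IStep (τ x) (lab ν) (D (j + 1)) ∧
      (∀ i, j < i → i ≤ J → V i = plug (instC τ K) (D i)) ∧
      (∀ i, j < i → i < J → IStep (D i) (lab (ρ i)) (D (i + 1)) ∧
        Img K (lab (ρ i)) (lab (l i))) :=
  inner_aux hτ (tsize e) e le_rfl V l J hJ h0 hrun hadj

/-- A run of a marked instance ending with the marker `mk`, which is not available before: the
mark is used in the last move. -/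
lemma track {τ : ℕ → ITerm N F} (hτ : ∀ k, Adm (τ k)) {x : ℕ} {ν : N × Bool} {Z : ITerm N F}
    {D : ITerm N F} (_hD : IStep (τ x) (lab ν) D) {b₀ : Sym N F} (hb : AdmS b₀) (V : ℕ → ITerm N F) (l : ℕ → N × Bool) (j : ℕ)
    (h0 : V 0 = inst2 (mark τ x (lab ν) (.pre (.th .mk) Z)) b₀)
    (hrun : ∀ i ≤ j, IStep (V i) (lab (l i)) (V (i + 1)))
    (hmk : ∀ i ≤ j, Nt .mk (V i)) {H : ITerm N F} (hH : IStep (V (j + 1)) (.th .mk) H) :
    ∃ (v : ℕ → Sym N F) (P : SCtx N F), v 0 = b₀ ∧ (∀ i ≤ j, AdmS (v i)) ∧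
      (∀ i < j, IStep (inst2 τ (v i)) (lab (l i)) (inst2 τ (v (i + 1)))) ∧
      Act (v j) P (.var (.inl x)) ∧ Img P (lab ν) (lab (l j)) ∧ AdmSC P ∧
      H = plug (instC (mark τ x (lab ν) (.pre (.th .mk) Z)) P) Z := by
  have hM : MarkRel (MkR τ x (lab ν) (.pre (.th .mk) Z)) := markRel_MkR hτ _hD
  have hnt : ∀ w : Sym N F, AdmS w → Nt .mk (inst2 (mark τ x (lab ν) (.pre (.th .mk) Z)) w) := by
    intro w hw
    exact (hM.nt _ _ ⟨w, hw, rfl, rfl⟩ .mk (by simp)).2
  induction j generalizing b₀ V l with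
  | zero =>
    have hs := hrun 0 le_rfl
    rw [h0] at hs
    rcases symP hτ hb (lab_ne_tau _) hs with ⟨v', e, _, ha⟩ | ⟨P, hP, hi, e⟩
    · exfalso
      rw [zero_add] at hH
      rw [zero_add] at e
      rw [e] at hH
      exact hnt v' (ha _ rfl) _ hH
    · refine ⟨fun _ => b₀, P, rfl, fun _ _ => hb, fun i hi => absurd hi (by omega), hP, hi,
        (AdmS_Act hb hP).1, ?_⟩
      rw [e] at hH
      have hC : CNt .mk (instC (mark τ x (lab ν) (.pre (.th .mk) Z)) P) := by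
        intro sd r hr
        unfold instC at hr
        rw [List.mem_map] at hr
        obtain ⟨fr, hfr, hfr'⟩ := hr
        rcases fr with ⟨sd', w⟩ | L | f
        · have hw := (AdmS_Act hb hP).1 sd' w hfr
          have : r = inst2 (mark τ x (lab ν) (.pre (.th .mk) Z)) w := by
            simp only [Frame.map, Frame.fpar.injEq] at hfr'
            exact hfr'.2.symm
          rw [this]
          exact hnt w hw
        · simp [Frame.map] at hfr'
        · simp [Frame.map] at hfr'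
      obtain ⟨h', h1, h2⟩ := plug_th hC hH
      rw [step_pre] at h1
      rw [h2, h1.2]
  | succ j ih =>
    have hs := hrun 0 (Nat.zero_le _)
    rw [h0] at hs
    rcases symP hτ hb (lab_ne_tau _) hs with ⟨v', e, hst, ha⟩ | ⟨P, hP, hi, e⟩
    · obtain ⟨v, P, hv0, hv, hv2, hact, himg, hPP, hHH⟩ := ih (ha _ rfl) (fun i => V (i + 1))
        (fun i => l (i + 1)) e (fun i hi => hrun (i + 1) (by omega))
        (fun i hi => hmk (i + 1) (by omega)) hH
      refine ⟨fun i => if i = 0 then b₀ else v (i - 1), P, by simp, ?_, ?_, ?_, himg, hPP, hHH⟩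
      · intro i hi
        cases i with
        | zero => simpa using hb
        | succ i => simpa using hv i (by omega)
      · intro i hi
        cases i with
        | zero =>
          simp only [if_true, Nat.add_eq_zero_iff, one_ne_zero, and_false, if_false,
              Nat.add_sub_cancel]
          rw [hv0]; exact hst
        | succ i =>
          simp only [Nat.add_eq_zero_iff, one_ne_zero, and_false, if_false,
              Nat.add_sub_cancel]
          exact hv2 i (by omega)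
      · simpa using hact
    · exfalso
      refine hmk 1 (by omega) (plug (instC (mark τ x (lab ν) (.pre (.th .mk) Z)) P) Z) ?_
      rw [zero_add] at e
      rw [e]
      exact th_avail _ _ _

end

end Pool.Agent.Lib.MP_1be8fd_lc
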