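import Pool.Agent.Lib.MP_1be8fd_lc.CoreC

set_option autoImplicit false
set_option linter.unusedSectionVars false

namespace Pool.Agent.Lib.MP_1be8fd_lc

variable {N : Type} {F : Set (Relabelling N)}

/-- `u` results from `t` by replacing one occurrence of `s` by `s'`. -/
inductive RwS (s s' : Term N F ℕ) : Sym N F → Sym N F → Prop
  | base : RwS s s' (toSym s) (toSym s')
  | pre (μ : Action N) {t u : Sym N F} : RwS s s' t u → RwS s s' (t.pre μ) (u.pre μ)
  | addL {t u : Sym N F} (v : Sym N F) : RwS s s' t u → RwS s s' (t.add v) (u.add v)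
  | addR {t u : Sym N F} (v : Sym N F) : RwS s s' t u → RwS s s' (v.add t) (v.add u)
  | parL {t u : Sym N F} (v : Sym N F) : RwS s s' t u → RwS s s' (t.par v) (u.par v)
  | parR {t u : Sym N F} (v : Sym N F) : RwS s s' t u → RwS s s' (v.par t) (v.par u)
  | lmL {t u : Sym N F} (v : Sym N F) : RwS s s' t u → RwS s s' (t.lmerge v) (u.lmerge v)
  | lmR {t u : Sym N F} (v : Sym N F) : RwS s s' t u → RwS s s' (v.lmerge t) (v.lmerge u)
  | cmL {t u : Sym N F} (v : Sym N F) : RwS s s' t u → RwS s s' (t.cmerge v) (u.cmerge v)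
  | cmR {t u : Sym N F} (v : Sym N F) : RwS s s' t u → RwS s s' (v.cmerge t) (v.cmerge u)
  | res (L : Set N) {t u : Sym N F} : RwS s s' t u → RwS s s' (t.res L) (u.res L)
  | rel (f : F) {t u : Sym N F} : RwS s s' t u → RwS s s' (t.rel f) (u.rel f)

lemma RwS_bis {s s' : Term N F ℕ} {t u : Sym N F} (h : RwS s s' t u) {τ : ℕ → ITerm N F}
    (hs : IBis (inst τ s) (inst τ s')) : IBis (inst2 τ t) (inst2 τ u) := by
  induction h with
  | base => rw [inst2_toSym, inst2_toSym]; exact hs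
  | pre μ _ ih => exact ih.pre _
  | addL v _ ih => exact ih.add (IBis.refl _)
  | addR v _ ih => exact (IBis.refl _).add ih
  | parL v _ ih => exact ih.par (IBis.refl _)
  | parR v _ ih => exact (IBis.refl _).par ih
  | lmL v _ ih => exact ih.lm (IBis.refl _)
  | lmR v _ ih => exact (IBis.refl _).lm ih
  | cmL v _ ih => exact ih.cm (IBis.refl _)
  | cmR v _ ih => exact (IBis.refl _).cm ih
  | res L _ ih => exact ih.res L
  | rel f _ ih => exact ih.rel f

section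

variable [Fintype N]

lemma ActI_add {p q : ITerm N F} {Δ : Ctx N F} :
    ActI (.add p q) Δ ↔ ActI p Δ ∨ ActI q Δ := by
  constructor
  · intro h
    cases h with
    | addL _ h => exact Or.inl h
    | addR _ h => exact Or.inr h
  · rintro (h | h)
    · exact .addL _ h
    · exact .addR _ h

lemma ActI_par {p q : ITerm N F} {Δ : Ctx N F} :
    ActI (.par p q) Δ ↔ (∃ Δ', ActI p Δ' ∧ Δ = .fpar false q :: Δ') ∨
      (∃ Δ', ActI q Δ' ∧ Δ = .fpar true p :: Δ') := by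
  constructor
  · intro h
    cases h with
    | parL _ h => exact Or.inl ⟨_, h, rfl⟩
    | parR _ h => exact Or.inr ⟨_, h, rfl⟩
  · rintro (⟨Δ', h, rfl⟩ | ⟨Δ', h, rfl⟩)
    · exact .parL _ h
    · exact .parR _ h

lemma ActI_lm {p q : ITerm N F} {Δ : Ctx N F} :
    ActI (.lm p q) Δ ↔ ∃ Δ', ActI p Δ' ∧ Δ = .fpar false q :: Δ' := by
  constructor
  · intro h
    cases h with
    | lm _ h => exact ⟨_, h, rfl⟩
  · rintro ⟨Δ', h, rfl⟩
    exact .lm _ h

lemma ActI_cm {p q : ITerm N F} {Δ : Ctx N F} : ¬ ActI (.cm p q) Δ := by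
  intro h; cases h

lemma ActI_pre_act {μ : Action N} {p : ITerm N F} {Δ : Ctx N F} :
    ¬ ActI (.pre (.act μ) p) Δ := by
  intro h; cases h

lemma ActI_res {L : Set N} {p : ITerm N F} {Δ : Ctx N F} :
    ActI (.res L p) Δ ↔ ∃ Δ', ActI p Δ' ∧ Δ = .fres L :: Δ' := by
  constructor
  · intro h
    cases h with
    | res _ h => exact ⟨_, h, rfl⟩
  · rintro ⟨Δ', h, rfl⟩
    exact .res _ h

lemma ActI_rel {f : F} {p : ITerm N F} {Δ : Ctx N F} :
    ActI (.rel f p) Δ ↔ ∃ Δ', ActI p Δ' ∧ Δ = .frel f :: Δ' := by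
  constructor
  · intro h
    cases h with
    | rel _ h => exact ⟨_, h, rfl⟩
  · rintro ⟨Δ', h, rfl⟩
    exact .rel _ h

/-- The conclusion of the path lemma. -/
def PathOut (s s' : Term N F ℕ) (τ : ℕ → ITerm N F) (t u : Sym N F) (Δ : Ctx N F) : Prop :=
  (∃ Δ', ActI (inst2 τ u) Δ' ∧ CRel IBis Δ Δ') ∨
  (∃ (P : SCtx N F) (Δs : Ctx N F), Act t P (toSym s) ∧ Act u P (toSym s') ∧
    ActI (inst τ s) Δs ∧ Δ = instC τ P ++ Δs)

lemma PathOut.mono {s s' : Term N F ℕ} {τ : ℕ → ITerm N F} {t u t' u' : Sym N F} {Δ : Ctx N F}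
    (h : PathOut s s' τ t u Δ)
    (h1 : ∀ Δ', ActI (inst2 τ u) Δ' → ActI (inst2 τ u') Δ')
    (h2 : ∀ P l, Act t P l → Act t' P l)
    (h3 : ∀ P l, Act u P l → Act u' P l) : PathOut s s' τ t' u' Δ := by
  rcases h with ⟨Δ', h4, h5⟩ | ⟨P, Δs, h4, h5, h6, h7⟩
  · exact Or.inl ⟨Δ', h1 _ h4, h5⟩
  · exact Or.inr ⟨P, Δs, h2 _ _ h4, h3 _ _ h5, h6, h7⟩

lemma PathOut.cons {s s' : Term N F ℕ} {τ : ℕ → ITerm N F} {t u t' u' : Sym N F} {Δ : Ctx N F}
    (fr : Frame N F (Sym N F)) (h : PathOut s s' τ t u Δ)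
    (h1 : ∀ Δ', ActI (inst2 τ u) Δ' → ActI (inst2 τ u') (fr.map (inst2 τ) :: Δ'))
    (h2 : ∀ P l, Act t P l → Act t' (fr :: P) l)
    (h3 : ∀ P l, Act u P l → Act u' (fr :: P) l) :
    PathOut s s' τ t' u' (fr.map (inst2 τ) :: Δ) := by
  rcases h with ⟨Δ', h4, h5⟩ | ⟨P, Δs, h4, h5, h6, h7⟩
  · refine Or.inl ⟨_, h1 _ h4, .cons ?_ h5⟩
    cases fr with
    | fpar sd r => exact .fpar _ (IBis.refl _)
    | fres L => exact .fres _
    | frel f => exact .frel _
  · exact Or.inr ⟨fr :: P, Δs, h2 _ _ h4, h3 _ _ h5, h6, by rw [h7]; rfl⟩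

/-- Where an active occurrence of `xT` can be, relative to a replaced subterm. -/
lemma RwS_path {s s' : Term N F ℕ} {t u : Sym N F} (h : RwS s s' t u) {τ : ℕ → ITerm N F}
    (hs : IBis (inst τ s) (inst τ s')) {Δ : Ctx N F} (hΔ : ActI (inst2 τ t) Δ) :
    PathOut s s' τ t u Δ := by
  have refl_rel : ∀ Γ : Ctx N F, CRel IBis Γ Γ := CRel.refl_of IBis.refl
  induction h generalizing Δ with
  | base =>
    rw [inst2_toSym] at hΔ
    exact Or.inr ⟨[], Δ, .refl _, .refl _, hΔ, rfl⟩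
  | pre μ _ ih => exact absurd hΔ ActI_pre_act
  | @addL t u v h ih =>
    rcases ActI_add.1 hΔ with h1 | h1
    · exact (ih h1).mono (fun _ h => ActI_add.2 (Or.inl h)) (fun _ _ h => .addL _ h)
        (fun _ _ h => .addL _ h)
    · exact Or.inl ⟨Δ, ActI_add.2 (Or.inr h1), refl_rel _⟩
  | @addR t u v h ih =>
    rcases ActI_add.1 hΔ with h1 | h1
    · exact Or.inl ⟨Δ, ActI_add.2 (Or.inl h1), refl_rel _⟩
    · exact (ih h1).mono (fun _ h => ActI_add.2 (Or.inr h)) (fun _ _ h => .addR _ h)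
        (fun _ _ h => .addR _ h)
  | @parL t u v h ih =>
    rcases ActI_par.1 hΔ with ⟨Δ', h1, rfl⟩ | ⟨Δ', h1, rfl⟩
    · exact (ih h1).cons (.fpar false v) (fun _ h => .parL _ h) (fun _ _ h => .parL _ h)
        (fun _ _ h => .parL _ h)
    · exact Or.inl ⟨_, .parR _ h1, .cons (.fpar _ (RwS_bis h hs)) (refl_rel _)⟩
  | @parR t u v h ih =>
    rcases ActI_par.1 hΔ with ⟨Δ', h1, rfl⟩ | ⟨Δ', h1, rfl⟩
    · exact Or.inl ⟨_, .parL _ h1, .cons (.fpar _ (RwS_bis h hs)) (refl_rel _)⟩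
    · exact (ih h1).cons (.fpar true v) (fun _ h => .parR _ h) (fun _ _ h => .parR _ h)
        (fun _ _ h => .parR _ h)
  | @lmL t u v h ih =>
    obtain ⟨Δ', h1, rfl⟩ := ActI_lm.1 hΔ
    exact (ih h1).cons (.fpar false v) (fun _ h => .lm _ h) (fun _ _ h => .lm _ h)
        (fun _ _ h => .lm _ h)
  | @lmR t u v h ih =>
    obtain ⟨Δ', h1, rfl⟩ := ActI_lm.1 hΔ
    exact Or.inl ⟨_, .lm _ h1, .cons (.fpar _ (RwS_bis h hs)) (refl_rel _)⟩
  | cmL v _ ih => exact absurd hΔ ActI_cm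
  | cmR v _ ih => exact absurd hΔ ActI_cm
  | @res L t u h ih =>
    obtain ⟨Δ', h1, rfl⟩ := ActI_res.1 hΔ
    exact (ih h1).cons (.fres L) (fun _ h => .res _ h) (fun _ _ h => .res _ h)
        (fun _ _ h => .res _ h)
  | @rel f t u h ih =>
    obtain ⟨Δ', h1, rfl⟩ := ActI_rel.1 hΔ
    exact (ih h1).cons (.frel f) (fun _ h => .rel _ h) (fun _ _ h => .rel _ h)
        (fun _ _ h => .rel _ h)

/-! ### The invariant on decompositions is invariant under bisimilarity -/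

/-- Runs are transferred along bisimilarity. -/
lemma run_congr (V : ℕ → ITerm N F) (l : ℕ → IAct N) (n : ℕ)
    (hV : ∀ j < n, IStep (V j) (l j) (V (j + 1))) {B : ITerm N F} (hB : IBis (V 0) B) :
    ∃ W : ℕ → ITerm N F, W 0 = B ∧ (∀ j ≤ n, IBis (V j) (W j)) ∧
      ∀ j < n, IStep (W j) (l j) (W (j + 1)) := by
  induction n with
  | zero =>
    refine ⟨fun _ => B, rfl, ?_, ?_⟩
    · intro j hj
      obtain rfl : j = 0 := by omega
      exact hB
    · intro j hj; omega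
  | succ n ih =>
    obtain ⟨W, h0, h1, h2⟩ := ih (fun j hj => hV j (by omega))
    obtain ⟨q, h3, h4⟩ := (h1 n le_rfl).fwd (hV n (by omega))
    refine ⟨Function.update W (n + 1) q, ?_, ?_, ?_⟩
    · rw [Function.update_of_ne (by omega)]
      exact h0
    · intro j hj
      rcases Nat.lt_or_ge j (n + 1) with h | h
      · rw [Function.update_of_ne (by omega)]
        exact h1 j (by omega)
      · obtain rfl : j = n + 1 := by omega
        rw [Function.update_self]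
        exact h4
    · intro j hj
      rcases Nat.lt_or_ge j n with h | h
      · rw [Function.update_of_ne (by omega), Function.update_of_ne (by omega)]
        exact h2 j h
      · obtain rfl : j = n := by omega
        rw [Function.update_self, Function.update_of_ne (by omega)]
        exact h3

lemma Ev_congr {E E' : Ctx N F} (hE : CRel IBis E E') {α : IAct N} (h : Ev E' α) :
    Ev E α := by
  rcases h with ⟨β, h⟩ | ⟨Γ', h⟩
  · exact Or.inl ⟨β, (CRel_Img hE).2 h⟩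
  · right
    refine CRel_MStep (R := flip IBis) ?_ (CRel_flip hE) h
    intro r r' hr b s q hq
    obtain ⟨q', h1, _⟩ := IBis.bwd hr hq
    exact ⟨q', h1⟩

lemma Good_congr {G : Family N} {E E' : Ctx N F} {B B' A A' : ITerm N F} {χ : N × Bool}
    (h : Good G E B A χ) (hE : CRel IBis E E') (hB : IBis B B') (hA : IBis A A') :
    Good G E' B' A' χ := by
  obtain ⟨⟨V, l, h0, h1, h2, h3⟩, h4, h5, h6, h7⟩ := h
  refine ⟨?_, ?_, ?_, ?_, ?_⟩
  · subst h0
    obtain ⟨W, k0, k1, k2⟩ := run_congr V (fun j => lab (l j)) G.n (fun j hj => (h1 j hj).1) hB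
    refine ⟨W, l, k0, ?_, ?_, ?_⟩
    · intro j hj
      exact ⟨k2 j hj, (CRel_Img hE).1 (h1 j hj).2⟩
    · obtain ⟨q, hq⟩ := h2
      obtain ⟨q', hq', _⟩ := (k1 G.n le_rfl).fwd hq
      exact ⟨q', hq'⟩
    · rintro j hj1 hj2 ⟨q, hq⟩
      obtain ⟨q', hq', _⟩ := (k1 j hj2.le).bwd hq
      exact h3 j hj1 hj2 ⟨q', hq'⟩
  · obtain ⟨q, hq⟩ := h4
    obtain ⟨q', hq', _⟩ := hA.fwd hq
    exact ⟨q', hq'⟩
  · intro q hq
    obtain ⟨q', hq', hb⟩ := hA.bwd hq
    exact Lnk_congr hb (h5 q' hq')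
  · exact fun h => h6 (Ev_congr hE h)
  · exact fun h => h7 (Ev_congr hE h)

end

end Pool.Agent.Lib.MP_1be8fd_lc
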