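import Pool.Agent.Lib.MP_1be8fd_lc.Rw
import Pool.Agent.Lib.MP_1be8fd_lc.CoreD

set_option autoImplicit false
set_option linter.unusedSectionVars false

namespace Pool.Agent.Lib.MP_1be8fd_lc

variable {N : Type} {F : Set (Relabelling N)}

/-! ### Constants -/

/-- the symbolic context of a context -/
def constC (Δ : Ctx N F) : SCtx N F := Δ.map (Frame.map fun r => .var (.inr r))

lemma instC_constC (τ : ℕ → ITerm N F) (Δ : Ctx N F) : instC τ (constC Δ) = Δ := by
  induction Δ with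
  | nil => rfl
  | cons fr Δ ih =>
    have : fr.map (inst2 τ ∘ fun r => (Term.var (Sum.inr r) : Sym N F)) = fr := by
      cases fr <;> rfl
    simp only [constC, instC, List.map_cons, List.cons.injEq] at ih ⊢
    refine ⟨?_, ih⟩
    cases fr <;> rfl

lemma Act_toSym {t l : Term N F ℕ} {P : List (Frame N F (Term N F ℕ))} (h : Act t P l) :
    Act (toSym t) (P.map (Frame.map toSym)) (toSym l) := by
  induction h with
  | refl t => exact .refl _
  | addL u _ ih => exact .addL _ ih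
  | addR t _ ih => exact .addR _ ih
  | parL u _ ih => exact .parL _ ih
  | parR t _ ih => exact .parR _ ih
  | lm u _ ih => exact .lm _ ih
  | res L _ ih => exact .res _ ih
  | rel f _ ih => exact .rel _ ih

lemma instC_toSym (τ : ℕ → ITerm N F) (P : List (Frame N F (Term N F ℕ))) :
    instC τ (P.map (Frame.map toSym)) = P.map (Frame.map (inst τ)) := by
  induction P with
  | nil => rfl
  | cons fr P ih =>
    simp only [instC, List.map_cons, List.cons.injEq] at ih ⊢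
    refine ⟨?_, ih⟩
    cases fr with
    | fpar sd r => simp only [Frame.map, inst2_toSym]
    | fres L => rfl
    | frel f => rfl

section

variable [Fintype N]

lemma AdmSC_app {P Q : SCtx N F} (h : AdmSC P) (h' : AdmSC Q) : AdmSC (P ++ Q) := by
  intro sd v hv
  rcases List.mem_append.1 hv with hv | hv
  · exact h _ _ hv
  · exact h' _ _ hv

lemma AdmSC_par {sd : Bool} {v : Sym N F} {Q : SCtx N F} (h : AdmS v) (h' : AdmSC Q) :
    AdmSC (.fpar sd v :: Q) := by
  intro sd v' hv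
  rcases List.mem_cons.1 hv with hv | hv
  · cases hv
    exact h
  · exact h' _ _ hv

lemma AdmSC_toSym (P : List (Frame N F (Term N F ℕ))) : AdmSC (P.map (Frame.map toSym)) := by
  intro sd v hv
  rw [List.mem_map] at hv
  obtain ⟨fr, _, h⟩ := hv
  cases fr with
  | fpar sd' r =>
    simp only [Frame.map, Frame.fpar.injEq] at h
    rw [← h.2]
    exact AdmS_toSym _
  | fres L => cases h
  | frel f => cases h

lemma AdmSC_constC {Δ : Ctx N F} (h : AdmC Δ) : AdmSC (constC Δ) := by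
  intro sd v hv
  rw [constC, List.mem_map] at hv
  obtain ⟨fr, h1, h2⟩ := hv
  cases fr with
  | fpar sd' r =>
    simp only [Frame.map, Frame.fpar.injEq] at h2
    rw [← h2.2]
    exact h _ _ h1
  | fres L => cases h2
  | frel f => cases h2

/-! ### The step lemma: easy cases -/

/-- The frame of the invariant is outside the replaced subterm. -/
lemma step_outer {G : Family N} {s s' : Term N F ℕ} {τ : ℕ → ITerm N F}
    (hτ : ∀ k, Adm (τ k)) (hs : IBis (inst τ s) (inst τ s')) {u : Sym N F} {P : SCtx N F}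
    (hu : Act u P (toSym s')) {E Δ Δs : Ctx N F} {sd : Bool} {B : ITerm N F}
    (hP : instC τ P = E ++ .fpar sd B :: Δ) (hΔs : ActI (inst τ s) Δs) {χ : N × Bool}
    (hG : Good G E B (plug (Δ ++ Δs) X0T) χ) :
    ∃ Ξ, ActI (inst2 τ u) (E ++ .fpar sd B :: Ξ) ∧ Good G E B (plug Ξ X0T) χ := by
  obtain ⟨q, h1, h2⟩ := hs.fwd (ActI_step hΔs)
  obtain ⟨_, Δs', h3, _, rfl⟩ := Adm_th (Adm_inst hτ s') h1
  refine ⟨Δ ++ Δs', ?_, ?_⟩
  · have h4 : ActI (inst2 τ u) (instC τ P ++ Δs') := by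
      refine Act_ActI hu ?_
      rw [← inst2_toSym] at h3
      exact h3
    rw [hP] at h4
    simpa using h4
  · refine Good_congr hG (CRel.refl_of IBis.refl _) (IBis.refl _) ?_
    rw [plug_append, plug_append]
    exact h2.plug (CRel.refl_of IBis.refl _)

/-- Transfer of images and events along bisimilar probed contexts. -/
lemma probe_transfer {E E' : Ctx N F} (h : IBis (plug E ZT) (plug E' ZT))
    (hc : ∀ b s, CNt1 (.tz b s) E') (l : N × Bool) :
    (∀ l' : N × Bool, Img E (lab l) (lab l') → Img E' (lab l) (lab l')) ∧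
    (Ev E (lab l) → Ev E' (lab l)) := by
  constructor
  · intro l' hi
    obtain ⟨Q, h1, h2⟩ := h.fwd (probe_mk_img Th.tz hi)
    obtain ⟨Q', h3, _⟩ := h2.fwd (th_avail _ _ _)
    rcases probe_inv tz_inj (hc _ _) h1 h3 with ⟨h4, _⟩ | ⟨h4, _⟩
    · exact h4
    · cases h4
  · intro hi
    have : ∃ μ Q Q', IStep (plug E ZT) (.act μ) Q ∧ IStep Q (.th (.tz l.1 l.2)) Q' := by
      rcases hi with ⟨β, hi⟩ | ⟨Γ', hi⟩
      · obtain ⟨μ, rfl⟩ := Img_act hi
        exact ⟨_, _, _, probe_mk_img Th.tz hi, th_avail _ _ _⟩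
      · exact ⟨_, _, _, probe_mk_meet Th.tz hi, th_avail _ _ _⟩
    obtain ⟨μ, Q, Q', h1, h2⟩ := this
    obtain ⟨P, h3, h4⟩ := h.fwd h1
    obtain ⟨P', h5, _⟩ := h4.fwd h2
    rcases probe_inv tz_inj (hc _ _) h3 h5 with ⟨h6, _⟩ | ⟨_, Γ', h6, _⟩
    · exact Or.inl ⟨_, h6⟩
    · exact Or.inr ⟨_, h6⟩

lemma MkR_th_Ev {τ : ℕ → ITerm N F} (hτ : ∀ k, Adm (τ k)) {x : ℕ} {Y : ITerm N F}
    {Γ Γ₁ : Ctx N F} (h : CRel (MkR τ x (.th .mk) Y) Γ Γ₁) (α : IAct N) :
    Ev Γ α ↔ Ev Γ₁ α := by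
  constructor
  · rintro (⟨β, h1⟩ | ⟨Θ, h1⟩)
    · exact Or.inl ⟨β, (CRel_Img h).1 h1⟩
    · exact Or.inr (CRel_MStep (fun r r' hr b s q hq => (MkR_th_avail hτ hr b s).1 ⟨q, hq⟩)
        h h1)
  · rintro (⟨β, h1⟩ | ⟨Θ, h1⟩)
    · exact Or.inl ⟨β, (CRel_Img h).2 h1⟩
    · exact Or.inr (CRel_MStep (R := flip (MkR τ x (.th .mk) Y))
        (fun r r' hr b s q hq => (MkR_th_avail hτ hr b s).2 ⟨q, hq⟩) (CRel_flip h) h1)

/-- The frame of the invariant is inside the value of a variable. -/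
lemma step_var {G : Family N} {s s' : Term N F ℕ} {τ : ℕ → ITerm N F}
    (hτ : ∀ k, Adm (τ k)) (hs : ∀ τ' : ℕ → ITerm N F, IBis (inst τ' s) (inst τ' s'))
    {u : Sym N F} {P : SCtx N F} (hPa : AdmSC P)
    (hu : Act u P (toSym s')) {k : ℕ} {P₂ : List (Frame N F (Term N F ℕ))}
    (h₂ : Act s P₂ (.var k)) {Ek Ξ : Ctx N F} {sd : Bool} {B : ITerm N F}
    (hk : ActI (τ k) (Ek ++ .fpar sd B :: Ξ)) {A : ITerm N F} {χ : N × Bool}
    (hG : Good G (instC τ P ++ (P₂.map (Frame.map (inst τ)) ++ Ek)) B A χ) :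
    ∃ E, ActI (inst2 τ u) (E ++ .fpar sd B :: Ξ) ∧ Good G E B A χ := by
  have hEk : AdmC Ek := fun sd r hr =>
    Adm_ActI (hτ k) hk sd r (List.mem_append_left _ hr)
  set τ₁ := mark τ k (.th .mk) (plug Ek ZT) with hτ₁
  have h1 : IStep (inst τ₁ s) (.th .mk) (plug (P₂.map (Frame.map (inst τ₁))) (plug Ek ZT)) :=
    Act_step h₂ (mark_step _ _ _ _) (Img_th.2 rfl)
  obtain ⟨q, h2, h3⟩ := (hs τ₁).fwd h1
  rw [← inst2_toSym] at h2
  rcases symP hτ (AdmS_toSym s') (by simp) h2 with ⟨v', _, h4, _⟩ | ⟨P₃, h4, _, rfl⟩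
  · rw [inst2_toSym] at h4
    have := (Adm_th (Adm_inst hτ s') h4).1
    cases this
  · have hP₃ : AdmSC P₃ := (AdmS_Act (AdmS_toSym s') h4).1
    have h5 : ActI (inst2 τ u) (instC τ P ++ (instC τ P₃ ++ (Ek ++ .fpar sd B :: Ξ))) :=
      Act_ActI hu (Act_ActI h4 hk)
    refine ⟨instC τ P ++ (instC τ P₃ ++ Ek), ?_, ?_⟩
    · simpa using h5
    · -- the relation between the contexts
      have hE : CRel (MkR τ k (.th .mk) (plug Ek ZT))
          (instC τ P ++ (P₂.map (Frame.map (inst τ)) ++ Ek))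
          (instC τ₁ P ++ (P₂.map (Frame.map (inst τ₁)) ++ Ek)) := by
        have h6 := CRel_instC (τ := τ) (x := k) (ν := .th .mk) (Y := plug Ek ZT)
          (AdmSC_app hPa (AdmSC_app (AdmSC_toSym P₂) (AdmSC_constC hEk)))
        simpa only [instC_append, instC_constC, instC_toSym] using h6
      have hE' : CRel (MkR τ k (.th .mk) (plug Ek ZT))
          (instC τ P ++ (instC τ P₃ ++ Ek))
          (instC τ₁ P ++ (instC τ₁ P₃ ++ Ek)) := by
        have h6 := CRel_instC (τ := τ) (x := k) (ν := .th .mk) (Y := plug Ek ZT)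
          (AdmSC_app hPa (AdmSC_app hP₃ (AdmSC_constC hEk)))
        simpa only [instC_append, instC_constC] using h6
      have hb : IBis (plug (instC τ₁ P ++ (P₂.map (Frame.map (inst τ₁)) ++ Ek)) ZT)
          (plug (instC τ₁ P ++ (instC τ₁ P₃ ++ Ek)) ZT) := by
        rw [plug_append, plug_append, plug_append, plug_append]
        exact h3.plug (CRel.refl_of IBis.refl _)
      have hc : ∀ {Γ Γ₁ : Ctx N F}, CRel (MkR τ k (.th .mk) (plug Ek ZT)) Γ Γ₁ →
          ∀ b s, CNt1 (.tz b s) Γ₁ := by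
        intro Γ Γ₁ h b s sd r hr
        obtain ⟨r₀, _, h7⟩ := CRel_mem h hr
        exact (MkR_th_nt1 hτ h7 (by simp) (by simp)).2
      have hev : ∀ l : N × Bool, Ev (instC τ P ++ (instC τ P₃ ++ Ek)) (lab l) →
          Ev (instC τ P ++ (P₂.map (Frame.map (inst τ)) ++ Ek)) (lab l) := by
        intro l h
        rw [MkR_th_Ev hτ hE'] at h
        rw [MkR_th_Ev hτ hE]
        exact (probe_transfer hb.symm (hc hE) l).2 h
      obtain ⟨⟨V, l, k0, k1, k2⟩, k3, k4, k5, k6⟩ := hG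
      refine ⟨⟨V, l, k0, ?_, k2⟩, k3, k4, fun h => k5 (hev _ h), fun h => k6 (hev _ h)⟩
      intro j hj
      refine ⟨(k1 j hj).1, ?_⟩
      rw [CRel_Img hE']
      exact (probe_transfer hb (hc hE') _).1 _ ((CRel_Img hE).1 (k1 j hj).2)

end

end Pool.Agent.Lib.MP_1be8fd_lc
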