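import Pool.Agent.Lib.MP_1be8fd_lc.StepA
import Pool.Agent.Lib.MP_1be8fd_lc.Run

set_option autoImplicit false
set_option linter.unusedSectionVars false

namespace Pool.Agent.Lib.MP_1be8fd_lc

variable {N : Type} {F : Set (Relabelling N)} [Fintype N]

lemma Img_eq_th' {S : Type} {Γ : List (Frame N F S)} {α : IAct N} {θ : Th N}
    (h : Img Γ α (.th θ)) : α = .th θ := by
  cases α with
  | act μ =>
    obtain ⟨μ', h'⟩ := Img_act h
    cases h'
  | th θ' =>
    rw [Img_th] at h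
    exact h.symm

/-- Matching a finite run. -/
lemma match_run (V : ℕ → ITerm N F) (l : ℕ → IAct N) (n : ℕ)
    (hV : ∀ j < n, IStep (V j) (l j) (V (j + 1))) {B : ITerm N F} (hB : IBis (V 0) B) :
    ∃ W : ℕ → ITerm N F, W 0 = B ∧ (∀ j ≤ n, IBis (V j) (W j)) ∧
      ∀ j < n, IStep (W j) (l j) (W (j + 1)) :=
  run_congr V l n hV hB

/-- The states of the original run. -/
lemma atR_run {G : Family N} {E Ξ : Ctx N F} {sd : Bool} {V : ℕ → ITerm N F}
    {l : ℕ → N × Bool}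
    (h0 : AtR G 0 (plug (E ++ .fpar sd (V 0) :: Ξ) X0T))
    (hV : ∀ j < G.n, IStep (V j) (lab (l j)) (V (j + 1)) ∧
      Img E (lab (l j)) (lab (G.w j))) :
    ∀ j, j ≤ G.n → AtR G j (plug (E ++ .fpar sd (V j) :: Ξ) X0T) := by
  intro j
  induction j with
  | zero => intro _; exact h0
  | succ j ih =>
    intro hj
    have h1 := hV j (by omega)
    have h2 : IStep (plug (E ++ .fpar sd (V j) :: Ξ) X0T) (lab (G.w j))
        (plug (E ++ .fpar sd (V (j + 1)) :: Ξ) X0T) :=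
      step_plugC _ (CStep_of_split h1.1 h1.2)
    exact (AtR_step (by omega) (ih (by omega)) h2).2.2

lemma ActI_mark {τ : ℕ → ITerm N F} {k x : ℕ} {ν : IAct N} {Y : ITerm N F} {Δ : Ctx N F}
    (h : ActI (τ k) Δ) : ActI (mark τ x ν Y k) Δ := by
  unfold mark
  by_cases hk : k = x
  · subst hk
    rw [Function.update_self]
    exact .addL _ h
  · rw [Function.update_of_ne hk]
    exact h

lemma map_eq_split {S T : Type} {g : S → T} {P : List (Frame N F S)}
    {Γ₁ Γ₂ : List (Frame N F T)} {sd : Bool} {r : T}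
    (h : P.map (Frame.map g) = Γ₁ ++ .fpar sd r :: Γ₂) :
    ∃ P₁ b P₂, P = P₁ ++ .fpar sd b :: P₂ ∧ P₁.map (Frame.map g) = Γ₁ ∧ g b = r ∧
      P₂.map (Frame.map g) = Γ₂ := by
  rw [List.map_eq_append_iff] at h
  obtain ⟨P₁, P', rfl, h1, h2⟩ := h
  rw [List.map_eq_cons_iff] at h2
  obtain ⟨fr, P₂, rfl, h3, h4⟩ := h2
  cases fr with
  | fpar sd' b =>
    simp only [Frame.map, Frame.fpar.injEq] at h3
    obtain ⟨rfl, h5⟩ := h3
    exact ⟨P₁, b, P₂, rfl, h1, h5, h4⟩
  | fres L => cases h3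
  | frel f => cases h3

/-- The frame of the invariant is an explicit frame of the replaced subterm. -/
lemma step_explicit {G : Family N} {s s' : Term N F ℕ} (hsize : tsize s ≤ G.m)
    {τ : ℕ → ITerm N F}
    (hτ : ∀ k, Adm (τ k)) (hs : ∀ τ' : ℕ → ITerm N F, IBis (inst τ' s) (inst τ' s'))
    {t u : Sym N F} (hrw : RwS s s' t u) (ht : AdmS t) (hu : AdmS u) {P : SCtx N F}
    (hPt : Act t P (toSym s)) {k : ℕ} {Pc Pa : List (Frame N F (Term N F ℕ))} {sd : Bool}
    {e : Term N F ℕ} (h₂ : Act s (Pc ++ .fpar sd e :: Pa) (.var k)) {Δk : Ctx N F}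
    (hk : ActI (τ k) Δk)
    (hI : IBis (inst2 τ t) (RI G.a G.c G.w G.n xT G.n)) {χ : N × Bool}
    (hG : Good G (instC τ P ++ Pc.map (Frame.map (inst τ))) (inst τ e)
      (plug (Pa.map (Frame.map (inst τ)) ++ Δk) X0T) χ) :
    Inv G (inst2 τ u) := by
  have hPa : AdmSC P := (AdmS_Act ht hPt).1
  have hΔk : AdmC Δk := Adm_ActI (hτ k) hk
  have hn := G.hn
  have _ne : Nonempty (N × Bool) := ⟨χ⟩
  have he : tsize e < tsize s := Act_tsize h₂ (sd := sd) (by simp)
  obtain ⟨⟨V, l, hV0, hV, hlast, hearly⟩, hlE, hlA, hnev, hnev'⟩ := hG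
  -- symbolic contexts
  obtain ⟨ES, hES⟩ : ∃ ES : SCtx N F, ES = P ++ Pc.map (Frame.map toSym) := ⟨_, rfl⟩
  obtain ⟨XS, hXS⟩ : ∃ XS : SCtx N F, XS = Pa.map (Frame.map toSym) ++ constC Δk := ⟨_, rfl⟩
  have hESa : AdmSC ES := by
    rw [hES]
    exact AdmSC_app hPa (AdmSC_toSym _)
  have hXSa : AdmSC XS := by
    rw [hXS]
    exact AdmSC_app (AdmSC_toSym _) (AdmSC_constC hΔk)
  have hESτ : ∀ τ' : ℕ → ITerm N F, instC τ' ES = instC τ' P ++ Pc.map (Frame.map (inst τ')) := by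
    intro τ'
    rw [hES, instC_append, instC_toSym]
  have hXSτ : ∀ τ' : ℕ → ITerm N F, instC τ' XS = Pa.map (Frame.map (inst τ')) ++ Δk := by
    intro τ'
    rw [hXS, instC_append, instC_toSym, instC_constC]
  rw [← hESτ τ] at hV hnev hnev'
  rw [← hXSτ τ] at hlE hlA
  -- the path in `t`, for all substitutions above
  have hpath : ∀ τ' : ℕ → ITerm N F, ActI (τ' k) Δk →
      ActI (inst2 τ' t) (instC τ' ES ++ .fpar sd (inst τ' e) :: instC τ' XS) := by
    intro τ' h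
    have h3 : ActI (inst τ' s) ((Pc ++ .fpar sd e :: Pa).map (Frame.map (inst τ')) ++ Δk) :=
      Act_ActI h₂ h
    rw [← inst2_toSym] at h3
    have h4 := Act_ActI hPt h3
    have h5 : ActI (inst2 τ' t)
      (instC τ' P ++ ((Pc ++ .fpar sd e :: Pa).map (Frame.map (inst τ')) ++ Δk)) := h4
    rw [hESτ, hXSτ]
    simpa [Frame.map] using h5
  -- the original run
  have hz0 := AtR_zero hI (ActI_step (hpath τ hk))
  rw [← hV0] at hz0
  have hat := atR_run hz0 hV
  have hadj : ∀ i, i + 1 < G.n → ¬ ∃ q, IStep (V i) (lab (l (i + 1))) q := by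
    rintro i hi ⟨q, hq⟩
    have h1 : IStep (plug (instC τ ES ++ .fpar sd (V i) :: instC τ XS) X0T)
        (lab (G.w (i + 1))) (plug (instC τ ES ++ .fpar sd q :: instC τ XS) X0T) :=
      step_plugC _ (CStep_of_split hq (hV (i + 1) hi).2)
    have h2 := (AtR_step (by omega) (hat i (by omega)) h1).2.1
    exact G.hadj i (lab_inj h2.symm)
  obtain ⟨j, v, x, ν, K, D, ρ, hj, hv0, hvV, hKa, hreplay, hDν, hVD, hDρ⟩ :=
    inner hτ e V l G.n (by omega) hV0 (fun i hi => (hV i hi).1) hadj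
  have hjm : j + 1 ≤ G.m := by omega
  -- the configuration of `t`
  have C : Conf G (instC τ ES) (instC τ K) (instC τ XS) sd (j + 1) D ρ := by
    refine ⟨hjm, ?_, ?_⟩
    · intro i h1 h2
      rw [← hVD i (by omega) h2]
      exact hat i h2
    · intro i h1 h2
      exact Img_append.2 ⟨_, Img_instC.2 (hDρ i (by omega) h2).2, (hV i h2).2⟩
  have X : Chi G (instC τ ES) (instC τ K) (instC τ XS) D χ := by
    refine ⟨?_, ?_, hlE, hlA, hnev, hnev'⟩
    · rw [← hVD G.n (by omega) le_rfl]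
      exact hlast
    · intro i h1 h2
      rw [← hVD i (by omega) h2.le]
      exact hearly i h1 h2
  -- the marked substitution
  set τ₁ := mark τ x (lab ν) (.pre (.th .mk) ZT) with hτ₁
  have hR : MarkRel (MkR τ x (lab ν) (.pre (.th .mk) ZT)) := markRel_MkR hτ hDν
  obtain ⟨hrep1, hrep2⟩ := hreplay τ₁ (above_mark _ _ _ _)
  -- the marked run of `t`
  obtain ⟨W, hW⟩ : ∃ W : ℕ → ITerm N F, W = fun i => if i ≤ j then inst2 τ₁ (v i) else
    if i = j + 1 then plug (instC τ₁ K) (.pre (.th .mk) ZT) else plug (instC τ₁ K) ZT :=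
    ⟨_, rfl⟩
  obtain ⟨L, hL⟩ : ∃ L : ℕ → IAct N, L = fun i => if i ≤ j then lab (G.w i) else .th .mk :=
    ⟨_, rfl⟩
  have hWle : ∀ i, i ≤ j → W i = inst2 τ₁ (v i) := by
    intro i hi; rw [hW]; simp [hi]
  have hWj : W (j + 1) = plug (instC τ₁ K) (.pre (.th .mk) ZT) := by
    rw [hW]; simp
  have hWj2 : W (j + 2) = plug (instC τ₁ K) ZT := by
    rw [hW]; simp
  have hLle : ∀ i, i ≤ j → L i = lab (G.w i) := by
    intro i hi; rw [hL]; simp [hi]
  have hLj : L (j + 1) = .th .mk := by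
    rw [hL]; simp
  have hrunT : ∀ i < j + 2,
      IStep (plug (instC τ₁ ES ++ .fpar sd (W i) :: instC τ₁ XS) X0T) (L i)
        (plug (instC τ₁ ES ++ .fpar sd (W (i + 1)) :: instC τ₁ XS) X0T) := by
    intro i hi
    rcases Nat.lt_or_ge i j with h | h
    · rw [hWle i h.le, hWle (i + 1) h, hLle i h.le]
      refine step_plugC _ (CStep_of_split (hrep1 i h) ?_)
      rw [Img_instC, ← Img_instC (τ := τ)]
      exact (hV i (by omega)).2
    · rcases Nat.eq_or_lt_of_le h with h' | h'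
      · subst h'
        rw [hWle j le_rfl, hWj, hLle j le_rfl]
        refine step_plugC _ (CStep_of_split (hrep2 _ (mark_step _ _ _ _)) ?_)
        rw [Img_instC, ← Img_instC (τ := τ)]
        exact (hV j (by omega)).2
      · obtain rfl : i = j + 1 := by omega
        rw [hWj, hWj2, hLj]
        exact step_plugC _ (CStep_of_split (th_avail _ _ _) (Img_th.2 rfl))
  -- relation with the unmarked run, for `i ≤ j`
  have hrel : ∀ i ≤ j, CRel (MkR τ x (lab ν) (.pre (.th .mk) ZT))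
      (instC τ ES ++ .fpar sd (V i) :: instC τ XS)
      (instC τ₁ ES ++ .fpar sd (W i) :: instC τ₁ XS) := by
    intro i hi
    have h1 := CRel_instC (τ := τ) (x := x) (ν := lab ν) (Y := .pre (.th .mk) ZT)
      (AdmSC_app hESa (AdmSC_par (sd := sd) (hvV i hi).1 hXSa))
    rw [hWle i hi, (hvV i hi).2]
    simpa [instC, Frame.map] using h1
  -- `u` follows
  have hbis : IBis (inst2 τ₁ t) (inst2 τ₁ u) := RwS_bis hrw (hs τ₁)
  have hstart : IStep (inst2 τ₁ t) (.th .z0)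
      (plug (instC τ₁ ES ++ .fpar sd (W 0) :: instC τ₁ XS) X0T) := by
    have h1 := ActI_step (hpath τ₁ (ActI_mark hk))
    rw [hWle 0 (Nat.zero_le _), hv0, inst2_toSym]
    exact h1
  obtain ⟨S₀, hS₀, hS₀b⟩ := hbis.fwd hstart
  obtain ⟨S, hS0, hSb, hSrun⟩ := match_run
    (fun i => plug (instC τ₁ ES ++ .fpar sd (W i) :: instC τ₁ XS) X0T) L (j + 2) hrunT hS₀b
  -- the path in `u`
  obtain ⟨P', hP'a, hP'act, hP'eq⟩ := symZ hτ (by simp) hu hS₀
  have hS1 := hSrun 0 (by omega)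
  rw [hS0, hP'eq, hLle 0 (Nat.zero_le _)] at hS1
  obtain ⟨Γ', hc, hΓ'⟩ := A_inv hS1
  obtain ⟨Γ₁, sd', r, r', Γ₂, α, e1, e2, hrr', himg0⟩ := CStep_split hc
  obtain ⟨P₁, b₀, P₂, rfl, eP₁, eb₀, eP₂⟩ := map_eq_split e1
  subst e2
  have hP₁a : AdmSC P₁ := fun sd v hv => hP'a sd v (List.mem_append_left _ hv)
  have hP₂a : AdmSC P₂ := fun sd v hv =>
    hP'a sd v (List.mem_append_right _ (List.mem_cons_of_mem _ hv))
  have hb₀a : AdmS b₀ := hP'a sd' b₀ (by simp)
  have eP₁' : instC τ₁ P₁ = Γ₁ := eP₁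
  have eP₂' : instC τ₁ P₂ = Γ₂ := eP₂
  -- availability in the marked states
  have hnoadj : ∀ i, i + 1 < j + 2 → ¬ ∃ q, IStep (S i) (L (i + 1)) q := by
    rintro i hi ⟨q, hq⟩
    obtain ⟨q', hq', _⟩ := (hSb i (by omega)).bwd hq
    rcases Nat.lt_or_ge i j with h | h
    · rw [hLle (i + 1) h] at hq'
      obtain ⟨Θ, h1, _⟩ := A_inv hq'
      obtain ⟨Θ', h2⟩ := hR.cstepUp (hrel i h.le) h1
      have h3 := (AtR_step (by omega) (hat i (by omega)) (step_plugC X0T h2)).2.1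
      exact G.hadj i (lab_inj (l := G.w (i + 1)) (l' := G.w i) h3).symm
    · obtain rfl : i = j := by omega
      rw [hLj] at hq'
      obtain ⟨h', h1, _⟩ := plug_th (hR.cnt (hrel i le_rfl) (by simp)) hq'
      exact (Nt1_X0T (by simp)).1 _ h1
  have hnomk : ∀ i ≤ j, Nt .mk (S i) := by
    intro i hi q hq
    obtain ⟨q', hq', _⟩ := (hSb i (by omega)).bwd hq
    obtain ⟨h', h1, _⟩ := plug_th (hR.cnt (hrel i hi) (by simp)) hq'
    exact (Nt1_X0T (by simp)).1 _ h1
  -- the run of `u` stays in one component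
  have hplug : ∀ z : ITerm N F, plug (Γ₁ ++ [.fpar (!sd') (plug Γ₂ X0T)]) z =
      plug (Γ₁ ++ .fpar sd' z :: Γ₂) X0T := by
    intro z
    have := two_flip Γ₁ sd' [] Γ₂ z X0T
    simp only [plug] at this
    exact this.symm
  have himgK : ∀ {α β : IAct N}, Img (Γ₁ ++ [.fpar (!sd') (plug Γ₂ X0T)]) α β ↔
      Img Γ₁ α β := by
    intro α β
    rw [Img_fpar, List.append_nil]
  obtain ⟨U, hU0, hUS, hUrun⟩ := comp_run (K := Γ₁ ++ [.fpar (!sd') (plug Γ₂ X0T)]) (V := S)
    (l := L) (J := j + 2) (u₀ := r)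
    (by
      intro i hi
      rcases Nat.lt_or_ge i (j + 1) with h | h
      · rw [hLle i (by omega)]; exact lab_ne_itau _
      · obtain rfl : i = j + 1 := by omega
        rw [hLj]; simp)
    hSrun hnoadj
    (by rw [hS0, hP'eq, hplug]
        simp only [instC, List.map_append, List.map_cons] at eP₁' eP₂' ⊢
        rw [eP₁', eP₂', ← eb₀]
        rfl)
    (fun _ => ⟨α, r', hrr', by rw [himgK, hLle 0 (Nat.zero_le _)]; exact himg0, by
      rw [hplug]; exact hΓ'⟩)
  have hUlab : ∀ i ≤ j, ∃ l' : N × Bool, IStep (U i) (lab l') (U (i + 1)) ∧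
      Img Γ₁ (lab l') (lab (G.w i)) := by
    intro i hi
    obtain ⟨α, h1, h2⟩ := hUrun i (by omega)
    rw [himgK, hLle i hi] at h2
    obtain ⟨l', rfl⟩ := Img_lab h2
    exact ⟨l', h1, h2⟩
  choose! l' hl' using hUlab
  have hUmk : IStep (U (j + 1)) (.th .mk) (U (j + 2)) := by
    obtain ⟨α, h1, h2⟩ := hUrun (j + 1) (by omega)
    rw [hLj] at h2
    cases Img_eq_th' h2
    exact h1
  have hUnt : ∀ i ≤ j, Nt .mk (U i) := by
    intro i hi q hq
    refine hnomk i hi (plug (Γ₁ ++ [.fpar (!sd') (plug Γ₂ X0T)]) q) ?_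
    rw [hUS i (by omega)]
    exact step_plug hq (Img_th.2 rfl)
  obtain ⟨v', P₃, hv'0, hv'a, hv'run, hP₃act, hP₃img, hP₃a, hUj2⟩ := track hτ hDν hb₀a U l' j
    (by rw [hU0, ← eb₀]) (fun i hi => (hl' i hi).1) hUnt hUmk
  -- the final states are bisimilar
  have hH : IBis (plug (instC τ₁ ES ++ .fpar sd (plug (instC τ₁ K) ZT) :: instC τ₁ XS) X0T)
      (plug (instC τ₁ P₁ ++ .fpar sd' (plug (instC τ₁ P₃) ZT) :: instC τ₁ P₂) X0T) := by
    have h1 := hSb (j + 2) le_rfl
    rw [hUS (j + 2) le_rfl, hplug, hUj2] at h1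
    simp only [hWj2] at h1
    rw [eP₁', eP₂']
    exact h1
  -- the unmarked run of `u`
  have hlastU : IStep (inst2 τ (v' j)) (lab (l' j)) (plug (instC τ P₃) (D (j + 1))) :=
    Act_step hP₃act hDν hP₃img
  have himgE' : ∀ i ≤ j, Img (instC τ P₁) (lab (l' i)) (lab (G.w i)) := by
    intro i hi
    rw [Img_instC, ← Img_instC (τ := τ₁), eP₁']
    exact (hl' i hi).2
  have hact : ActI (inst2 τ u) (instC τ P₁ ++ .fpar sd' (inst2 τ b₀) :: instC τ P₂) := by
    simpa [instC, Frame.map] using hP'act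
  have hbisu : IBis (inst2 τ u) (RI G.a G.c G.w G.n xT G.n) :=
    (RwS_bis hrw (hs τ)).symm.trans hI
  have hatU : ∀ i, i ≤ j →
      AtR G i (plug (instC τ P₁ ++ .fpar sd' (inst2 τ (v' i)) :: instC τ P₂) X0T) := by
    intro i
    induction i with
    | zero =>
      intro _
      rw [hv'0]
      exact AtR_zero hbisu (ActI_step hact)
    | succ i ih =>
      intro hi
      have h2 : IStep (plug (instC τ P₁ ++ .fpar sd' (inst2 τ (v' i)) :: instC τ P₂) X0T)
          (lab (G.w i))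
          (plug (instC τ P₁ ++ .fpar sd' (inst2 τ (v' (i + 1))) :: instC τ P₂) X0T) :=
        step_plugC _ (CStep_of_split (hv'run i (by omega)) (himgE' i (by omega)))
      exact (AtR_step (by omega) (ih (by omega)) h2).2.2
  have hT' : AtR G (j + 1)
      (plug (instC τ P₁ ++ .fpar sd' (plug (instC τ P₃) (D (j + 1))) :: instC τ P₂) X0T) := by
    have h2 : IStep (plug (instC τ P₁ ++ .fpar sd' (inst2 τ (v' j)) :: instC τ P₂) X0T)
        (lab (G.w j))
        (plug (instC τ P₁ ++ .fpar sd' (plug (instC τ P₃) (D (j + 1))) :: instC τ P₂) X0T) :=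
      step_plugC _ (CStep_of_split hlastU (himgE' j le_rfl))
    exact (AtR_step (by omega) (hatU j le_rfl) h2).2.2
  obtain ⟨C', χ', X'⟩ := core hR (CRel_instC hESa) (CRel_instC hKa) (CRel_instC hXSa)
    (CRel_instC hP₁a) (CRel_instC hP₃a) (CRel_instC hP₂a)
    (fun i h1 h2 => (hDρ i (by omega) h2).1) C hT' hH X
  -- the invariant for `u`
  have hω : ∀ i, j + 1 ≤ i → i < G.n → ∃ ω : N × Bool, Img (instC τ P₃) (lab (ρ i)) (lab ω) ∧
      Img (instC τ P₁) (lab ω) (lab (G.w i)) := by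
    intro i h1 h2
    have h3 := C'.img i h1 h2
    rw [Img_append] at h3
    obtain ⟨γ, h4, h5⟩ := h3
    obtain ⟨ω, rfl⟩ := Img_lab h5
    exact ⟨ω, h4, h5⟩
  choose! ω hω using hω
  refine ⟨hbisu, instC τ P₁, sd', inst2 τ b₀, instC τ P₂, χ', hact, ?_, X'.linkE, X'.linkA,
    X'.nev, X'.nev'⟩
  refine ⟨fun i => if i ≤ j then inst2 τ (v' i) else plug (instC τ P₃) (D i),
    fun i => if i ≤ j then l' i else ω i, ?_, ?_, ?_, ?_⟩
  · simp [hv'0]
  · intro i hi
    rcases Nat.lt_or_ge i j with h | h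
    · have h1 : i + 1 ≤ j := h
      simp only [h.le, h1, if_true]
      exact ⟨hv'run i h, himgE' i h.le⟩
    · rcases Nat.eq_or_lt_of_le h with h' | h'
      · subst h'
        have h1 : ¬ (j + 1 ≤ j) := by omega
        simp only [le_refl, h1, if_true, if_false]
        exact ⟨hlastU, himgE' j le_rfl⟩
      · have h1 : ¬ (i ≤ j) := by omega
        have h2 : ¬ (i + 1 ≤ j) := by omega
        simp only [h1, h2, if_false]
        refine ⟨step_plug (hDρ i (by omega) hi).1 (hω i (by omega) hi).1,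
          (hω i (by omega) hi).2⟩
  · have h1 : ¬ (G.n ≤ j) := by omega
    simp only [h1, if_false]
    exact X'.last
  · intro i h1 h2
    have h3 : ¬ (i ≤ j) := by omega
    simp only [h3, if_false]
    exact X'.early i h1 h2

end Pool.Agent.Lib.MP_1be8fd_lc
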