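import Pool.Agent.Lib.MP_1be8fd_lc.SymDefs
import Pool.Agent.Lib.MP_1be8fd_lc.Ctx

set_option autoImplicit false

namespace Pool.Agent.Lib.MP_1be8fd_lc

variable {N : Type} {F : Set (Relabelling N)}

/-! ### Basic facts -/

lemma inst2_toSym (τ : ℕ → ITerm N F) (t : Term N F ℕ) : inst2 τ (toSym t) = inst τ t := by
  unfold inst2 toSym
  rw [inst_subst]
  rfl

lemma instC_append (τ : ℕ → ITerm N F) (P Q : SCtx N F) :
    instC τ (P ++ Q) = instC τ P ++ instC τ Q := by
  simp [instC]

lemma Img_instC {τ : ℕ → ITerm N F} {P : SCtx N F} {α β : IAct N} :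
    Img (instC τ P) α β ↔ Img P α β := Img_map _

lemma above_mark (τ : ℕ → ITerm N F) (x : ℕ) (ν : IAct N) (Y : ITerm N F) :
    Above τ (mark τ x ν Y) := by
  intro k α q h
  unfold mark
  by_cases hk : k = x
  · subst hk
    rw [Function.update_self]
    exact .addL _ h
  · rw [Function.update_of_ne hk]
    exact h

lemma mark_step (τ : ℕ → ITerm N F) (x : ℕ) (ν : IAct N) (Y : ITerm N F) :
    IStep (mark τ x ν Y x) ν Y := by
  unfold mark
  rw [Function.update_self]
  exact .addR _ (.pre _ _)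

/-! ### Active subterms -/

section act

variable {X : Type}

lemma Act_trans {t l r : Term N F X} {P Q : List (Frame N F (Term N F X))}
    (h : Act t P l) (h' : Act l Q r) : Act t (P ++ Q) r := by
  induction h with
  | refl t => exact h'
  | addL u _ ih => exact .addL u (ih h')
  | addR t _ ih => exact .addR t (ih h')
  | parL u _ ih => exact .parL u (ih h')
  | parR t _ ih => exact .parR t (ih h')
  | lm u _ ih => exact .lm u (ih h')
  | res L _ ih => exact .res L (ih h')
  | rel f _ ih => exact .rel f (ih h')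

lemma Act_step {ϑ : X → ITerm N F} {t l : Term N F X} {P : List (Frame N F (Term N F X))}
    (h : Act t P l) {α β : IAct N} {q : ITerm N F} (hs : IStep (inst ϑ l) α q)
    (hi : Img P α β) : IStep (inst ϑ t) β (plug (P.map (Frame.map (inst ϑ))) q) := by
  induction h generalizing β with
  | refl t =>
    obtain rfl : β = α := hi
    exact hs
  | addL u _ ih => exact .addL _ (ih hs hi)
  | addR t _ ih => exact .addR _ (ih hs hi)
  | parL u _ ih =>
    obtain ⟨γ, h1, h2⟩ := hi
    obtain rfl : β = γ := h2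
    exact .parL _ (ih hs h1)
  | parR t _ ih =>
    obtain ⟨γ, h1, h2⟩ := hi
    obtain rfl : β = γ := h2
    exact .parR _ (ih hs h1)
  | lm u _ ih =>
    obtain ⟨γ, h1, h2⟩ := hi
    obtain rfl : β = γ := h2
    exact .lm _ (ih hs h1)
  | res L _ ih =>
    obtain ⟨γ, h1, h2, h3⟩ := hi
    subst h2
    exact .res _ (ih hs h1) h3
  | rel f _ ih =>
    obtain ⟨γ, h1, h2⟩ := hi
    obtain rfl : β = γ.map f.1 := h2
    exact .rel _ (ih hs h1)

lemma Act_ActI [Fintype N] {ϑ : X → ITerm N F} {t l : Term N F X}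
    {P : List (Frame N F (Term N F X))} (h : Act t P l) {Δ : Ctx N F}
    (hl : ActI (inst ϑ l) Δ) : ActI (inst ϑ t) (P.map (Frame.map (inst ϑ)) ++ Δ) := by
  induction h with
  | refl t => exact hl
  | addL u _ ih => exact .addL _ (ih hl)
  | addR t _ ih => exact .addR _ (ih hl)
  | parL u _ ih => exact .parL _ (ih hl)
  | parR t _ ih => exact .parR _ (ih hl)
  | lm u _ ih => exact .lm _ (ih hl)
  | res L _ ih => exact .res _ (ih hl)
  | rel f _ ih => exact .rel _ (ih hl)

lemma Act_tsize {t l : Term N F X} {P : List (Frame N F (Term N F X))}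
    (h : Act t P l) {sd : Bool} {e : Term N F X} (he : Frame.fpar sd e ∈ P) :
    tsize e < tsize t := by
  induction h with
  | refl t => simp at he
  | addL u _ ih => have := ih he; simp only [tsize]; omega
  | addR t _ ih => have := ih he; simp only [tsize]; omega
  | parL u _ ih =>
    rcases List.mem_cons.1 he with h | h
    · cases h; simp only [tsize]; omega
    · have := ih h; simp only [tsize]; omega
  | parR t _ ih =>
    rcases List.mem_cons.1 he with h | h
    · cases h; simp only [tsize]; omega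
    · have := ih h; simp only [tsize]; omega
  | lm u _ ih =>
    rcases List.mem_cons.1 he with h | h
    · cases h; simp only [tsize]; omega
    · have := ih h; simp only [tsize]; omega
  | res L _ ih =>
    rcases List.mem_cons.1 he with h | h
    · cases h
    · have := ih h; simp only [tsize]; omega
  | rel f _ ih =>
    rcases List.mem_cons.1 he with h | h
    · cases h
    · have := ih h; simp only [tsize]; omega

/-- The active occurrences of `xT` in an instance of a term are in the values of the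
variables. -/
lemma ActI_inst [Fintype N] {ϑ : X → ITerm N F} (t : Term N F X) {Δ : Ctx N F}
    (h : ActI (inst ϑ t) Δ) :
    ∃ x P Δ', Act t P (.var x) ∧ ActI (ϑ x) Δ' ∧ Δ = P.map (Frame.map (inst ϑ)) ++ Δ' := by
  induction t generalizing Δ with
  | var x => exact ⟨x, [], Δ, .refl _, h, rfl⟩
  | nil => rw [inst] at h; cases h
  | pre μ t ih => rw [inst] at h; cases h
  | add t u iht ihu =>
    rw [inst] at h
    cases h with
    | addL _ h =>
      obtain ⟨x, P, Δ', h1, h2, h3⟩ := iht h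
      exact ⟨x, P, Δ', .addL _ h1, h2, h3⟩
    | addR _ h =>
      obtain ⟨x, P, Δ', h1, h2, h3⟩ := ihu h
      exact ⟨x, P, Δ', .addR _ h1, h2, h3⟩
  | par t u iht ihu =>
    rw [inst] at h
    cases h with
    | parL _ h =>
      obtain ⟨x, P, Δ', h1, h2, rfl⟩ := iht h
      exact ⟨x, _, Δ', .parL u h1, h2, rfl⟩
    | parR _ h =>
      obtain ⟨x, P, Δ', h1, h2, rfl⟩ := ihu h
      exact ⟨x, _, Δ', .parR t h1, h2, rfl⟩
  | lmerge t u iht ihu =>
    rw [inst] at h
    cases h with
    | lm _ h =>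
      obtain ⟨x, P, Δ', h1, h2, rfl⟩ := iht h
      exact ⟨x, _, Δ', .lm u h1, h2, rfl⟩
  | cmerge t u iht ihu => rw [inst] at h; cases h
  | res L t ih =>
    rw [inst] at h
    cases h with
    | res _ h =>
      obtain ⟨x, P, Δ', h1, h2, rfl⟩ := ih h
      exact ⟨x, _, Δ', .res L h1, h2, rfl⟩
  | rel f t ih =>
    rw [inst] at h
    cases h with
    | rel _ h =>
      obtain ⟨x, P, Δ', h1, h2, rfl⟩ := ih h
      exact ⟨x, _, Δ', .rel f h1, h2, rfl⟩

end act

/-! ### Admissible terms -/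

section adm

variable [Fintype N]

lemma AdmC_cons {fr : Frame N F (ITerm N F)} {Δ : Ctx N F} (h : AdmC Δ)
    (h' : ∀ sd r, fr = .fpar sd r → Adm r) : AdmC (fr :: Δ) := by
  intro sd r hr
  rcases List.mem_cons.1 hr with h1 | h1
  · exact h' sd r h1.symm
  · exact h sd r h1

lemma AdmSC_cons {fr : Frame N F (Sym N F)} {Δ : SCtx N F} (h : AdmSC Δ)
    (h' : ∀ sd r, fr = .fpar sd r → AdmS r) : AdmSC (fr :: Δ) := by
  intro sd r hr
  rcases List.mem_cons.1 hr with h1 | h1
  · exact h' sd r h1.symm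
  · exact h sd r h1

lemma Adm_act {p q : ITerm N F} {μ : Action N} (hp : Adm p) (h : IStep p (.act μ) q) :
    Adm q := by
  generalize hα : IAct.act μ = α at h
  induction h generalizing μ with
  | pre β r => subst hα; exact hp
  | addL r _ ih => exact ih hp.1 hα
  | addR r _ ih => exact ih hp.2 hα
  | parL r _ ih => exact ⟨ih hp.1 hα, hp.2⟩
  | parR r _ ih => exact ⟨hp.1, ih hp.2 hα⟩
  | parC _ _ ih1 ih2 => exact ⟨ih1 hp.1 rfl, ih2 hp.2 rfl⟩
  | lm r _ ih => exact ⟨ih hp.1 hα, hp.2⟩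
  | cm _ _ ih1 ih2 => exact ⟨ih1 hp.1 rfl, ih2 hp.2 rfl⟩
  | res L _ _ ih => exact ih hp hα
  | @rel β r r' f _ ih =>
    cases β with
    | act μ' => exact ih hp rfl
    | th θ => cases hα

lemma Adm_th {p q : ITerm N F} {θ : Th N} (hp : Adm p) (h : IStep p (.th θ) q) :
    θ = .z0 ∧ ∃ Δ, ActI p Δ ∧ AdmC Δ ∧ q = plug Δ X0T := by
  generalize hα : IAct.th θ = α at h
  induction h generalizing θ with
  | pre β r =>
    subst hα
    obtain ⟨rfl, rfl⟩ := hp
    exact ⟨rfl, [], .leaf, by intro sd r h; simp at h, rfl⟩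
  | addL r _ ih =>
    obtain ⟨h1, Δ, h2, h3, h4⟩ := ih hp.1 hα
    exact ⟨h1, Δ, .addL _ h2, h3, h4⟩
  | addR r _ ih =>
    obtain ⟨h1, Δ, h2, h3, h4⟩ := ih hp.2 hα
    exact ⟨h1, Δ, .addR _ h2, h3, h4⟩
  | parL r _ ih =>
    obtain ⟨h1, Δ, h2, h3, rfl⟩ := ih hp.1 hα
    refine ⟨h1, _, .parL _ h2, AdmC_cons h3 ?_, rfl⟩
    intro sd r' h; cases h; exact hp.2
  | parR r _ ih =>
    obtain ⟨h1, Δ, h2, h3, rfl⟩ := ih hp.2 hα
    refine ⟨h1, _, .parR _ h2, AdmC_cons h3 ?_, rfl⟩
    intro sd r' h; cases h; exact hp.1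
  | parC _ _ ih1 ih2 => cases hα
  | lm r _ ih =>
    obtain ⟨h1, Δ, h2, h3, rfl⟩ := ih hp.1 hα
    refine ⟨h1, _, .lm _ h2, AdmC_cons h3 ?_, rfl⟩
    intro sd r' h; cases h; exact hp.2
  | cm _ _ ih1 ih2 => cases hα
  | res L _ _ ih =>
    obtain ⟨h1, Δ, h2, h3, rfl⟩ := ih hp hα
    refine ⟨h1, _, .res _ h2, AdmC_cons h3 ?_, rfl⟩
    intro sd r' h; cases h
  | @rel β r r' f _ ih =>
    cases β with
    | act μ' => cases hα
    | th θ' =>
      obtain ⟨h1, Δ, h2, h3, rfl⟩ := ih hp rfl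
      refine ⟨?_, _, .rel _ h2, AdmC_cons h3 ?_, rfl⟩
      · cases hα; exact h1
      · intro sd r' h; cases h

lemma ActI_step {p : ITerm N F} {Δ : Ctx N F} (h : ActI p Δ) :
    IStep p (.th .z0) (plug Δ X0T) := by
  induction h with
  | leaf => exact .pre _ _
  | addL q _ ih => exact .addL _ ih
  | addR q _ ih => exact .addR _ ih
  | parL q _ ih => exact .parL _ ih
  | parR q _ ih => exact .parR _ ih
  | lm q _ ih => exact .lm _ ih
  | res L _ ih => exact .res _ ih trivial
  | rel f _ ih => exact .rel f ih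

lemma Adm_ActI {p : ITerm N F} {Δ : Ctx N F} (hp : Adm p) (h : ActI p Δ) : AdmC Δ := by
  induction h with
  | leaf => intro sd r h; simp at h
  | addL q _ ih => exact ih hp.1
  | addR q _ ih => exact ih hp.2
  | parL q _ ih => exact AdmC_cons (ih hp.1) (by intro sd r h; cases h; exact hp.2)
  | parR q _ ih => exact AdmC_cons (ih hp.2) (by intro sd r h; cases h; exact hp.1)
  | lm q _ ih => exact AdmC_cons (ih hp.1) (by intro sd r h; cases h; exact hp.2)
  | res L _ ih => exact AdmC_cons (ih hp) (by intro sd r h; cases h)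
  | rel f _ ih => exact AdmC_cons (ih hp) (by intro sd r h; cases h)

lemma Adm_inst2 {τ : ℕ → ITerm N F} (hτ : ∀ k, Adm (τ k)) {v : Sym N F} (hv : AdmS v) :
    Adm (inst2 τ v) := by
  unfold inst2
  induction v with
  | var x =>
    cases x with
    | inl k => exact hτ k
    | inr p => exact hv
  | nil => trivial
  | pre μ t ih => exact ih hv
  | add t u iht ihu => exact ⟨iht hv.1, ihu hv.2⟩
  | par t u iht ihu => exact ⟨iht hv.1, ihu hv.2⟩
  | lmerge t u iht ihu => exact ⟨iht hv.1, ihu hv.2⟩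
  | cmerge t u iht ihu => exact ⟨iht hv.1, ihu hv.2⟩
  | res L t ih => exact ih hv
  | rel f t ih => exact ih hv

lemma AdmS_toSym (t : Term N F ℕ) : AdmS (toSym t) := by
  unfold toSym
  induction t with
  | var x => trivial
  | nil => trivial
  | pre μ t ih => exact ih
  | add t u iht ihu => exact ⟨iht, ihu⟩
  | par t u iht ihu => exact ⟨iht, ihu⟩
  | lmerge t u iht ihu => exact ⟨iht, ihu⟩
  | cmerge t u iht ihu => exact ⟨iht, ihu⟩
  | res L t ih => exact ih
  | rel f t ih => exact ih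

lemma Adm_inst {τ : ℕ → ITerm N F} (hτ : ∀ k, Adm (τ k)) (t : Term N F ℕ) :
    Adm (inst τ t) := by
  rw [← inst2_toSym]
  exact Adm_inst2 hτ (AdmS_toSym t)

lemma AdmS_Act {v l : Sym N F} {P : SCtx N F} (hv : AdmS v) (h : Act v P l) :
    AdmSC P ∧ AdmS l := by
  induction h with
  | refl t => exact ⟨by intro sd r h; simp at h, hv⟩
  | addL u _ ih => exact ih hv.1
  | addR t _ ih => exact ih hv.2
  | parL u _ ih =>
    exact ⟨AdmSC_cons (ih hv.1).1 (by intro sd r h; cases h; exact hv.2), (ih hv.1).2⟩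
  | parR t _ ih =>
    exact ⟨AdmSC_cons (ih hv.2).1 (by intro sd r h; cases h; exact hv.1), (ih hv.2).2⟩
  | lm u _ ih =>
    exact ⟨AdmSC_cons (ih hv.1).1 (by intro sd r h; cases h; exact hv.2), (ih hv.1).2⟩
  | res L _ ih => exact ⟨AdmSC_cons (ih hv).1 (by intro sd r h; cases h), (ih hv).2⟩
  | rel f _ ih => exact ⟨AdmSC_cons (ih hv).1 (by intro sd r h; cases h), (ih hv).2⟩

lemma Adm_xT : Adm (xT : ITerm N F) := ⟨rfl, rfl⟩

end adm

end Pool.Agent.Lib.MP_1be8fd_lc
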