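import Pool.Agent.Lib.MP_1be8fd_lc.CtxDefs

set_option autoImplicit false

namespace Pool.Agent.Lib.MP_1be8fd_lc

variable {N : Type} {F : Set (Relabelling N)}

/-- Size of an official term. -/
def tsize {X : Type} : Term N F X → ℕ
  | .var _ => 1
  | .nil => 1
  | .pre _ t => tsize t + 1
  | .add t u => tsize t + tsize u + 1
  | .par t u => tsize t + tsize u + 1
  | .lmerge t u => tsize t + tsize u + 1
  | .cmerge t u => tsize t + tsize u + 1
  | .res _ t => tsize t + 1
  | .rel _ t => tsize t + 1

/-- Symbolic terms: official terms with variables `Sum.inl k` and constants `Sum.inr p` for closed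
internal terms. -/
abbrev Sym (N : Type) (F : Set (Relabelling N)) : Type := Term N F (ℕ ⊕ ITerm N F)

abbrev SCtx (N : Type) (F : Set (Relabelling N)) : Type := List (Frame N F (Sym N F))

/-- Instances of symbolic terms. -/
def inst2 (τ : ℕ → ITerm N F) (v : Sym N F) : ITerm N F := inst (Sum.elim τ id) v

/-- Instances of symbolic contexts. -/
def instC (τ : ℕ → ITerm N F) (P : SCtx N F) : Ctx N F := P.map (Frame.map (inst2 τ))

/-- The symbolic term of an official term. -/
def toSym (t : Term N F ℕ) : Sym N F := t.subst (fun k => .var (.inl k))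

/-- `Act t P l`: the subterm `l` of `t` occurs in an active position, with path `P`. -/
inductive Act {X : Type} : Term N F X → List (Frame N F (Term N F X)) → Term N F X → Prop
  | refl (t : Term N F X) : Act t [] t
  | addL {t l : Term N F X} {P : List (Frame N F (Term N F X))} (u : Term N F X) :
      Act t P l → Act (t.add u) P l
  | addR {u l : Term N F X} {P : List (Frame N F (Term N F X))} (t : Term N F X) :
      Act u P l → Act (t.add u) P l
  | parL {t l : Term N F X} {P : List (Frame N F (Term N F X))} (u : Term N F X) :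
      Act t P l → Act (t.par u) (.fpar false u :: P) l
  | parR {u l : Term N F X} {P : List (Frame N F (Term N F X))} (t : Term N F X) :
      Act u P l → Act (t.par u) (.fpar true t :: P) l
  | lm {t l : Term N F X} {P : List (Frame N F (Term N F X))} (u : Term N F X) :
      Act t P l → Act (t.lmerge u) (.fpar false u :: P) l
  | res {t l : Term N F X} {P : List (Frame N F (Term N F X))} (L : Set N) :
      Act t P l → Act (t.res L) (.fres L :: P) l
  | rel {t l : Term N F X} {P : List (Frame N F (Term N F X))} (f : F) :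
      Act t P l → Act (t.rel f) (.frel f :: P) l

/-- Active occurrences of the term `xT`, with their paths. -/
inductive ActI [Fintype N] : ITerm N F → Ctx N F → Prop
  | leaf : ActI xT []
  | addL {p : ITerm N F} {Δ : Ctx N F} (q : ITerm N F) : ActI p Δ → ActI (.add p q) Δ
  | addR {q : ITerm N F} {Δ : Ctx N F} (p : ITerm N F) : ActI q Δ → ActI (.add p q) Δ
  | parL {p : ITerm N F} {Δ : Ctx N F} (q : ITerm N F) :
      ActI p Δ → ActI (.par p q) (.fpar false q :: Δ)
  | parR {q : ITerm N F} {Δ : Ctx N F} (p : ITerm N F) :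
      ActI q Δ → ActI (.par p q) (.fpar true p :: Δ)
  | lm {p : ITerm N F} {Δ : Ctx N F} (q : ITerm N F) :
      ActI p Δ → ActI (.lm p q) (.fpar false q :: Δ)
  | res {p : ITerm N F} {Δ : Ctx N F} (L : Set N) : ActI p Δ → ActI (.res L p) (.fres L :: Δ)
  | rel {p : ITerm N F} {Δ : Ctx N F} (f : F) : ActI p Δ → ActI (.rel f p) (.frel f :: Δ)

/-- The only subterms with a marker as prefix are the occurrences of `xT`. -/
def Adm [Fintype N] : ITerm N F → Prop
  | .nil => True
  | .pre (.act _) p => Adm p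
  | .pre (.th θ) p => θ = .z0 ∧ p = X0T
  | .add p q => Adm p ∧ Adm q
  | .par p q => Adm p ∧ Adm q
  | .lm p q => Adm p ∧ Adm q
  | .cm p q => Adm p ∧ Adm q
  | .res _ p => Adm p
  | .rel _ p => Adm p

/-- All constants are admissible. -/
def AdmS [Fintype N] : Sym N F → Prop
  | .var (.inl _) => True
  | .var (.inr p) => Adm p
  | .nil => True
  | .pre _ t => AdmS t
  | .add t u => AdmS t ∧ AdmS u
  | .par t u => AdmS t ∧ AdmS u
  | .lmerge t u => AdmS t ∧ AdmS u
  | .cmerge t u => AdmS t ∧ AdmS u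
  | .res _ t => AdmS t
  | .rel _ t => AdmS t

def AdmC [Fintype N] (Δ : Ctx N F) : Prop := ∀ sd r, Frame.fpar sd r ∈ Δ → Adm r

def AdmSC [Fintype N] (P : SCtx N F) : Prop := ∀ sd v, Frame.fpar sd v ∈ P → AdmS v

/-- `τ₂` has all the transitions of `τ`. -/
def Above (τ τ₂ : ℕ → ITerm N F) : Prop := ∀ k α q, IStep (τ k) α q → IStep (τ₂ k) α q

/-- The marked substitution: a summand `ν.Y` is added to the value at `x`. -/
noncomputable def mark (τ : ℕ → ITerm N F) (x : ℕ) (ν : IAct N) (Y : ITerm N F) :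
    ℕ → ITerm N F :=
  Function.update τ x (.add (τ x) (.pre ν Y))

/-- The relation between unmarked and marked terms. -/
def MkR [Fintype N] (τ : ℕ → ITerm N F) (x : ℕ) (ν : IAct N) (Y : ITerm N F)
    (p q : ITerm N F) : Prop :=
  ∃ v : Sym N F, AdmS v ∧ p = inst2 τ v ∧ q = inst2 (mark τ x ν Y) v

/-- What the main argument needs to know of the relation between unmarked and marked terms. -/
structure MarkRel (R : ITerm N F → ITerm N F → Prop) : Prop where
  fwd : ∀ p p₁, R p p₁ → ∀ μ q, IStep p (.act μ) q → ∃ q₁, IStep p₁ (.act μ) q₁ ∧ R q q₁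
  bwd : ∀ p p₁, R p p₁ → ∀ b s q₁, IStep p₁ (.vis b s) q₁ →
    (∃ q, IStep p (.vis b s) q ∧ R q q₁) ∨
      ((∃ q, IStep p (.vis b s) q) ∧ ∃ q₂, IStep q₁ (.th .mk) q₂)
  nt : ∀ p p₁, R p p₁ → ∀ θ, θ ≠ .z0 → Nt1 θ p ∧ Nt θ p₁
  nt1 : ∀ p p₁, R p p₁ → ∀ θ, θ ≠ .z0 → θ ≠ .mk → Nt1 θ p₁

end Pool.Agent.Lib.MP_1be8fd_lc
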