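import Pool.Agent.Lib.MP_1be8fd_lc.Defs

set_option autoImplicit false

namespace Pool.Agent.Lib.MP_1be8fd_lc

/-- Internal markers. -/
inductive Th (N : Type) : Type
  | z0
  | z1
  | mk
  | tx (b : N) (s : Bool)
  | tz (b : N) (s : Bool)

/-- Internal actions: ordinary actions and markers. -/
inductive IAct (N : Type) : Type
  | act (μ : Action N)
  | th (θ : Th N)

namespace IAct

variable {N : Type}

abbrev vis (b : N) (s : Bool) : IAct N := act (Action.vis b s)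
abbrev tau : IAct N := act Action.tau

def Allowed (L : Set N) : IAct N → Prop
  | act μ => μ.Allowed L
  | th _ => True

def map (f : Relabelling N) : IAct N → IAct N
  | act μ => act (f.toFun μ)
  | th θ => th θ

def compl : IAct N → IAct N
  | act μ => act μ.compl
  | th θ => th θ

end IAct

inductive ITerm (N : Type) (F : Set (Relabelling N)) : Type
  | nil
  | pre (α : IAct N) (p : ITerm N F)
  | add (p q : ITerm N F)
  | par (p q : ITerm N F)
  | lm (p q : ITerm N F)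
  | cm (p q : ITerm N F)
  | res (L : Set N) (p : ITerm N F)
  | rel (f : F) (p : ITerm N F)

variable {N : Type} {F : Set (Relabelling N)}

inductive IStep : ITerm N F → IAct N → ITerm N F → Prop
  | pre (α : IAct N) (p : ITerm N F) : IStep (.pre α p) α p
  | addL {α : IAct N} {p p' : ITerm N F} (q : ITerm N F) : IStep p α p' → IStep (.add p q) α p'
  | addR {α : IAct N} {q q' : ITerm N F} (p : ITerm N F) : IStep q α q' → IStep (.add p q) α q'
  | parL {α : IAct N} {p p' : ITerm N F} (q : ITerm N F) :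
      IStep p α p' → IStep (.par p q) α (.par p' q)
  | parR {α : IAct N} {q q' : ITerm N F} (p : ITerm N F) :
      IStep q α q' → IStep (.par p q) α (.par p q')
  | parC {b : N} {s : Bool} {p p' q q' : ITerm N F} :
      IStep p (.vis b s) p' → IStep q (.vis b (!s)) q' → IStep (.par p q) .tau (.par p' q')
  | lm {α : IAct N} {p p' : ITerm N F} (q : ITerm N F) :
      IStep p α p' → IStep (.lm p q) α (.par p' q)
  | cm {b : N} {s : Bool} {p p' q q' : ITerm N F} :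
      IStep p (.vis b s) p' → IStep q (.vis b (!s)) q' → IStep (.cm p q) .tau (.par p' q')
  | res {α : IAct N} {p p' : ITerm N F} (L : Set N) :
      IStep p α p' → α.Allowed L → IStep (.res L p) α (.res L p')
  | rel {α : IAct N} {p p' : ITerm N F} (f : F) :
      IStep p α p' → IStep (.rel f p) (α.map f.1) (.rel f p')

section inv

variable {α : IAct N} {p q r : ITerm N F}

@[simp] lemma step_nil : ¬ IStep (.nil : ITerm N F) α r := by
  intro h; cases h

lemma step_pre {β : IAct N} : IStep (.pre β p) α r ↔ α = β ∧ r = p := by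
  constructor
  · intro h; cases h; exact ⟨rfl, rfl⟩
  · rintro ⟨rfl, rfl⟩; exact .pre _ _

lemma step_add : IStep (.add p q) α r ↔ IStep p α r ∨ IStep q α r := by
  constructor
  · intro h
    cases h with
    | addL _ h => exact Or.inl h
    | addR _ h => exact Or.inr h
  · rintro (h | h)
    · exact .addL _ h
    · exact .addR _ h

lemma step_par : IStep (.par p q) α r ↔
    (∃ p', IStep p α p' ∧ r = .par p' q) ∨ (∃ q', IStep q α q' ∧ r = .par p q') ∨
      (α = .tau ∧ ∃ b s p' q', IStep p (.vis b s) p' ∧ IStep q (.vis b (!s)) q' ∧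
        r = .par p' q') := by
  constructor
  · intro h
    cases h with
    | parL _ h => exact Or.inl ⟨_, h, rfl⟩
    | parR _ h => exact Or.inr (Or.inl ⟨_, h, rfl⟩)
    | parC h1 h2 => exact Or.inr (Or.inr ⟨rfl, _, _, _, _, h1, h2, rfl⟩)
  · rintro (⟨p', h, rfl⟩ | ⟨q', h, rfl⟩ | ⟨rfl, b, s, p', q', h1, h2, rfl⟩)
    · exact .parL _ h
    · exact .parR _ h
    · exact .parC h1 h2

lemma step_lm : IStep (.lm p q) α r ↔ ∃ p', IStep p α p' ∧ r = .par p' q := by
  constructor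
  · intro h
    cases h with
    | lm _ h => exact ⟨_, h, rfl⟩
  · rintro ⟨p', h, rfl⟩
    exact .lm _ h

lemma step_cm : IStep (.cm p q) α r ↔
      (α = .tau ∧ ∃ b s p' q', IStep p (.vis b s) p' ∧ IStep q (.vis b (!s)) q' ∧
        r = .par p' q') := by
  constructor
  · intro h
    cases h with
    | cm h1 h2 => exact ⟨rfl, _, _, _, _, h1, h2, rfl⟩
  · rintro ⟨rfl, b, s, p', q', h1, h2, rfl⟩
    exact .cm h1 h2

lemma step_res {L : Set N} : IStep (.res L p) α r ↔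
    ∃ p', IStep p α p' ∧ α.Allowed L ∧ r = .res L p' := by
  constructor
  · intro h
    cases h with
    | res _ h h2 => exact ⟨_, h, h2, rfl⟩
  · rintro ⟨p', h, h2, rfl⟩
    exact .res _ h h2

lemma step_rel {f : F} : IStep (.rel f p) α r ↔
    ∃ β p', IStep p β p' ∧ α = β.map f.1 ∧ r = .rel f p' := by
  constructor
  · intro h
    cases h with
    | rel _ h => exact ⟨_, _, h, rfl, rfl⟩
  · rintro ⟨β, p', h, rfl, rfl⟩
    exact .rel _ h

end inv

/-! ### Bisimilarity -/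

def IsIBisim (R : ITerm N F → ITerm N F → Prop) : Prop :=
  ∀ p q : ITerm N F, R p q →
    (∀ (α : IAct N) (p' : ITerm N F), IStep p α p' → ∃ q', IStep q α q' ∧ R p' q') ∧
    (∀ (α : IAct N) (q' : ITerm N F), IStep q α q' → ∃ p', IStep p α p' ∧ R p' q')

def IBis (p q : ITerm N F) : Prop :=
  ∃ R : ITerm N F → ITerm N F → Prop, IsIBisim R ∧ R p q

lemma IBis.fwd {p q : ITerm N F} (h : IBis p q) {α : IAct N} {p' : ITerm N F}
    (hs : IStep p α p') : ∃ q', IStep q α q' ∧ IBis p' q' := by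
  obtain ⟨R, hR, hpq⟩ := h
  obtain ⟨q', h1, h2⟩ := (hR p q hpq).1 α p' hs
  exact ⟨q', h1, R, hR, h2⟩

lemma IBis.bwd {p q : ITerm N F} (h : IBis p q) {α : IAct N} {q' : ITerm N F}
    (hs : IStep q α q') : ∃ p', IStep p α p' ∧ IBis p' q' := by
  obtain ⟨R, hR, hpq⟩ := h
  obtain ⟨p', h1, h2⟩ := (hR p q hpq).2 α q' hs
  exact ⟨p', h1, R, hR, h2⟩

lemma isIBisim_IBis : IsIBisim (IBis : ITerm N F → ITerm N F → Prop) :=
  fun _ _ h => ⟨fun _ _ hs => h.fwd hs, fun _ _ hs => h.bwd hs⟩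

lemma IBis.refl (p : ITerm N F) : IBis p p :=
  ⟨Eq, by
    rintro p q rfl
    exact ⟨fun α p' h => ⟨p', h, rfl⟩, fun α p' h => ⟨p', h, rfl⟩⟩, rfl⟩

lemma IBis.symm {p q : ITerm N F} (h : IBis p q) : IBis q p :=
  ⟨fun x y => IBis y x, fun _ _ h => ⟨fun _ _ hs => h.bwd hs, fun _ _ hs => h.fwd hs⟩, h⟩

lemma IBis.trans {p q r : ITerm N F} (h : IBis p q) (h' : IBis q r) : IBis p r := by
  refine ⟨fun x z => ∃ y, IBis x y ∧ IBis y z, ?_, q, h, h'⟩
  rintro x z ⟨y, h1, h2⟩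
  constructor
  · intro α x' hs
    obtain ⟨y', hy, hxy⟩ := h1.fwd hs
    obtain ⟨z', hz, hyz⟩ := h2.fwd hy
    exact ⟨z', hz, y', hxy, hyz⟩
  · intro α z' hs
    obtain ⟨y', hy, hyz⟩ := h2.bwd hs
    obtain ⟨x', hx, hxy⟩ := h1.bwd hy
    exact ⟨x', hx, y', hxy, hyz⟩

/-- Bisimulation up to bisimilarity, one-step form. -/
lemma IBis.of_step {p q : ITerm N F}
    (h1 : ∀ (α : IAct N) (p' : ITerm N F), IStep p α p' → ∃ q', IStep q α q' ∧ IBis p' q')
    (h2 : ∀ (α : IAct N) (q' : ITerm N F), IStep q α q' → ∃ p', IStep p α p' ∧ IBis p' q') :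
    IBis p q := by
  refine ⟨fun x y => (x = p ∧ y = q) ∨ IBis x y, ?_, Or.inl ⟨rfl, rfl⟩⟩
  rintro x y (⟨rfl, rfl⟩ | h)
  · constructor
    · intro α x' hs
      obtain ⟨y', hy, h⟩ := h1 α x' hs
      exact ⟨y', hy, Or.inr h⟩
    · intro α y' hs
      obtain ⟨x', hx, h⟩ := h2 α y' hs
      exact ⟨x', hx, Or.inr h⟩
  · constructor
    · intro α x' hs
      obtain ⟨y', hy, h⟩ := h.fwd hs
      exact ⟨y', hy, Or.inr h⟩
    · intro α y' hs
      obtain ⟨x', hx, h⟩ := h.bwd hs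
      exact ⟨x', hx, Or.inr h⟩

lemma IBis.par {p p' q q' : ITerm N F} (hp : IBis p p') (hq : IBis q q') :
    IBis (.par p q) (.par p' q') := by
  refine ⟨fun x y => ∃ p p' q q', IBis p p' ∧ IBis q q' ∧ x = .par p q ∧ y = .par p' q', ?_,
    p, p', q, q', hp, hq, rfl, rfl⟩
  rintro _ _ ⟨p, p', q, q', hp, hq, rfl, rfl⟩
  constructor
  · intro α x hs
    rw [step_par] at hs
    rcases hs with ⟨p1, h, rfl⟩ | ⟨q1, h, rfl⟩ | ⟨rfl, b, s, p1, q1, h1, h2, rfl⟩
    · obtain ⟨p1', h', hb⟩ := hp.fwd h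
      exact ⟨_, .parL _ h', p1, p1', q, q', hb, hq, rfl, rfl⟩
    · obtain ⟨q1', h', hb⟩ := hq.fwd h
      exact ⟨_, .parR _ h', p, p', q1, q1', hp, hb, rfl, rfl⟩
    · obtain ⟨p1', h1', hb1⟩ := hp.fwd h1
      obtain ⟨q1', h2', hb2⟩ := hq.fwd h2
      exact ⟨_, .parC h1' h2', p1, p1', q1, q1', hb1, hb2, rfl, rfl⟩
  · intro α x hs
    rw [step_par] at hs
    rcases hs with ⟨p1, h, rfl⟩ | ⟨q1, h, rfl⟩ | ⟨rfl, b, s, p1, q1, h1, h2, rfl⟩
    · obtain ⟨p1', h', hb⟩ := hp.bwd h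
      exact ⟨_, .parL _ h', p1', p1, q, q', hb, hq, rfl, rfl⟩
    · obtain ⟨q1', h', hb⟩ := hq.bwd h
      exact ⟨_, .parR _ h', p, p', q1', q1, hp, hb, rfl, rfl⟩
    · obtain ⟨p1', h1', hb1⟩ := hp.bwd h1
      obtain ⟨q1', h2', hb2⟩ := hq.bwd h2
      exact ⟨_, .parC h1' h2', p1', p1, q1', q1, hb1, hb2, rfl, rfl⟩

lemma IBis.res {p p' : ITerm N F} (L : Set N) (hp : IBis p p') :
    IBis (.res L p) (.res L p') := by
  refine ⟨fun x y => ∃ p p', IBis p p' ∧ x = .res L p ∧ y = .res L p', ?_,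
    p, p', hp, rfl, rfl⟩
  rintro _ _ ⟨p, p', hp, rfl, rfl⟩
  constructor
  · intro α x hs
    rw [step_res] at hs
    obtain ⟨p1, h, ha, rfl⟩ := hs
    obtain ⟨p1', h', hb⟩ := hp.fwd h
    exact ⟨_, .res _ h' ha, p1, p1', hb, rfl, rfl⟩
  · intro α x hs
    rw [step_res] at hs
    obtain ⟨p1, h, ha, rfl⟩ := hs
    obtain ⟨p1', h', hb⟩ := hp.bwd h
    exact ⟨_, .res _ h' ha, p1', p1, hb, rfl, rfl⟩

lemma IBis.rel {p p' : ITerm N F} (f : F) (hp : IBis p p') :
    IBis (.rel f p) (.rel f p') := by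
  refine ⟨fun x y => ∃ p p', IBis p p' ∧ x = .rel f p ∧ y = .rel f p', ?_,
    p, p', hp, rfl, rfl⟩
  rintro _ _ ⟨p, p', hp, rfl, rfl⟩
  constructor
  · intro α x hs
    rw [step_rel] at hs
    obtain ⟨β, p1, h, rfl, rfl⟩ := hs
    obtain ⟨p1', h', hb⟩ := hp.fwd h
    exact ⟨_, .rel _ h', p1, p1', hb, rfl, rfl⟩
  · intro α x hs
    rw [step_rel] at hs
    obtain ⟨β, p1, h, rfl, rfl⟩ := hs
    obtain ⟨p1', h', hb⟩ := hp.bwd h
    exact ⟨_, .rel _ h', p1', p1, hb, rfl, rfl⟩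

lemma IBis.pre {p p' : ITerm N F} (α : IAct N) (hp : IBis p p') :
    IBis (.pre α p) (.pre α p') := by
  refine IBis.of_step ?_ ?_
  · intro β x hs
    rw [step_pre] at hs
    obtain ⟨rfl, rfl⟩ := hs
    exact ⟨_, .pre _ _, hp⟩
  · intro β x hs
    rw [step_pre] at hs
    obtain ⟨rfl, rfl⟩ := hs
    exact ⟨_, .pre _ _, hp⟩

lemma IBis.add {p p' q q' : ITerm N F} (hp : IBis p p') (hq : IBis q q') :
    IBis (.add p q) (.add p' q') := by
  refine IBis.of_step ?_ ?_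
  · intro β x hs
    rw [step_add] at hs
    rcases hs with h | h
    · obtain ⟨y, hy, hb⟩ := hp.fwd h
      exact ⟨y, .addL _ hy, hb⟩
    · obtain ⟨y, hy, hb⟩ := hq.fwd h
      exact ⟨y, .addR _ hy, hb⟩
  · intro β x hs
    rw [step_add] at hs
    rcases hs with h | h
    · obtain ⟨y, hy, hb⟩ := hp.bwd h
      exact ⟨y, .addL _ hy, hb⟩
    · obtain ⟨y, hy, hb⟩ := hq.bwd h
      exact ⟨y, .addR _ hy, hb⟩

lemma IBis.lm {p p' q q' : ITerm N F} (hp : IBis p p') (hq : IBis q q') :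
    IBis (.lm p q) (.lm p' q') := by
  refine IBis.of_step ?_ ?_
  · intro β x hs
    rw [step_lm] at hs
    obtain ⟨p1, h, rfl⟩ := hs
    obtain ⟨y, hy, hb⟩ := hp.fwd h
    exact ⟨_, .lm _ hy, hb.par hq⟩
  · intro β x hs
    rw [step_lm] at hs
    obtain ⟨p1, h, rfl⟩ := hs
    obtain ⟨y, hy, hb⟩ := hp.bwd h
    exact ⟨_, .lm _ hy, hb.par hq⟩

lemma IBis.cm {p p' q q' : ITerm N F} (hp : IBis p p') (hq : IBis q q') :
    IBis (.cm p q) (.cm p' q') := by
  refine IBis.of_step ?_ ?_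
  · intro β x hs
    rw [step_cm] at hs
    obtain ⟨rfl, b, s, p1, q1, h1, h2, rfl⟩ := hs
    obtain ⟨y, hy, hb⟩ := hp.fwd h1
    obtain ⟨z, hz, hb'⟩ := hq.fwd h2
    exact ⟨_, .cm hy hz, hb.par hb'⟩
  · intro β x hs
    rw [step_cm] at hs
    obtain ⟨rfl, b, s, p1, q1, h1, h2, rfl⟩ := hs
    obtain ⟨y, hy, hb⟩ := hp.bwd h1
    obtain ⟨z, hz, hb'⟩ := hq.bwd h2
    exact ⟨_, .cm hy hz, hb.par hb'⟩

/-! ### Instances of terms -/

variable {X : Type}

/-- Instance of an official term by internal closed terms. -/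
def inst (ϑ : X → ITerm N F) : Term N F X → ITerm N F
  | .var x => ϑ x
  | .nil => .nil
  | .pre μ t => .pre (.act μ) (inst ϑ t)
  | .add t u => .add (inst ϑ t) (inst ϑ u)
  | .par t u => .par (inst ϑ t) (inst ϑ u)
  | .lmerge t u => .lm (inst ϑ t) (inst ϑ u)
  | .cmerge t u => .cm (inst ϑ t) (inst ϑ u)
  | .res L t => .res L (inst ϑ t)
  | .rel f t => .rel f (inst ϑ t)

/-- Embedding of closed official terms. -/
abbrev emb (p : CTerm N F) : ITerm N F := inst (fun x : Empty => x.elim) p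

lemma inst_subst {Y : Type} (ϑ : Y → ITerm N F) (σ : X → Term N F Y) (t : Term N F X) :
    inst ϑ (t.subst σ) = inst (fun x => inst ϑ (σ x)) t := by
  induction t with
  | var x => rfl
  | nil => rfl
  | pre μ t ih => simp [Term.subst, inst, ih]
  | add t u iht ihu => simp [Term.subst, inst, iht, ihu]
  | par t u iht ihu => simp [Term.subst, inst, iht, ihu]
  | lmerge t u iht ihu => simp [Term.subst, inst, iht, ihu]
  | cmerge t u iht ihu => simp [Term.subst, inst, iht, ihu]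
  | res L t ih => simp [Term.subst, inst, ih]
  | rel f t ih => simp [Term.subst, inst, ih]

lemma step_emb {p : CTerm N F} {μ : Action N} {q : CTerm N F} (h : p.Step μ q) :
    IStep (emb p) (.act μ) (emb q) := by
  induction h with
  | pre μ t => exact .pre _ _
  | addL u _ ih => exact .addL _ ih
  | addR u _ ih => exact .addR _ ih
  | parL u _ ih => exact .parL _ ih
  | parR u _ ih => exact .parR _ ih
  | parC _ _ ih1 ih2 => exact .parC ih1 ih2
  | lmerge u _ ih => exact .lm _ ih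
  | cmerge _ _ ih1 ih2 => exact .cm ih1 ih2
  | res L _ ha ih => exact .res _ ih ha
  | rel f _ ih => exact .rel f ih

lemma emb_step (p : CTerm N F) : ∀ {α : IAct N} {r : ITerm N F}, IStep (emb p) α r →
    ∃ μ q, α = .act μ ∧ r = emb q ∧ p.Step μ q := by
  induction p with
  | var x => exact x.elim
  | nil => intro α r h; exact absurd h step_nil
  | pre μ t ih =>
    intro α r h
    rw [emb, inst, step_pre] at h
    obtain ⟨rfl, rfl⟩ := h
    exact ⟨μ, t, rfl, rfl, .pre _ _⟩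
  | add t u iht ihu =>
    intro α r h
    rw [emb, inst, step_add] at h
    rcases h with h | h
    · obtain ⟨μ, q, rfl, rfl, h'⟩ := iht h
      exact ⟨μ, q, rfl, rfl, .addL _ h'⟩
    · obtain ⟨μ, q, rfl, rfl, h'⟩ := ihu h
      exact ⟨μ, q, rfl, rfl, .addR _ h'⟩
  | par t u iht ihu =>
    intro α r h
    rw [emb, inst, step_par] at h
    rcases h with ⟨p1, h, rfl⟩ | ⟨q1, h, rfl⟩ | ⟨rfl, b, s, p1, q1, h1, h2, rfl⟩
    · obtain ⟨μ, q, rfl, rfl, h'⟩ := iht h
      exact ⟨μ, _, rfl, rfl, .parL _ h'⟩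
    · obtain ⟨μ, q, rfl, rfl, h'⟩ := ihu h
      exact ⟨μ, _, rfl, rfl, .parR _ h'⟩
    · obtain ⟨μ, q, e, rfl, h1⟩ := iht h1
      obtain ⟨μ', q', e', rfl, h2⟩ := ihu h2
      cases e
      cases e'
      exact ⟨_, _, rfl, rfl, .parC h1 h2⟩
  | lmerge t u iht ihu =>
    intro α r h
    rw [emb, inst, step_lm] at h
    obtain ⟨p1, h, rfl⟩ := h
    obtain ⟨μ, q, rfl, rfl, h'⟩ := iht h
    exact ⟨μ, _, rfl, rfl, .lmerge _ h'⟩
  | cmerge t u iht ihu =>
    intro α r h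
    rw [emb, inst, step_cm] at h
    obtain ⟨rfl, b, s, p1, q1, h1, h2, rfl⟩ := h
    obtain ⟨μ, q, e, rfl, h1⟩ := iht h1
    obtain ⟨μ', q', e', rfl, h2⟩ := ihu h2
    cases e
    cases e'
    exact ⟨_, _, rfl, rfl, .cmerge h1 h2⟩
  | res L t ih =>
    intro α r h
    rw [emb, inst, step_res] at h
    obtain ⟨p1, h, ha, rfl⟩ := h
    obtain ⟨μ, q, rfl, rfl, h'⟩ := ih h
    exact ⟨μ, _, rfl, rfl, .res _ h' ha⟩
  | rel f t ih =>
    intro α r h
    rw [emb, inst, step_rel] at h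
    obtain ⟨β, p1, h, rfl, rfl⟩ := h
    obtain ⟨μ, q, rfl, rfl, h'⟩ := ih h
    exact ⟨_, _, rfl, rfl, .rel _ h'⟩

lemma IBis_emb {p q : CTerm N F} (h : Bisimilar p q) : IBis (emb p) (emb q) := by
  obtain ⟨R, hR, hpq⟩ := h
  refine ⟨fun x y => ∃ p q, R p q ∧ x = emb p ∧ y = emb q, ?_, p, q, hpq, rfl, rfl⟩
  rintro _ _ ⟨p, q, h, rfl, rfl⟩
  constructor
  · intro α x hs
    obtain ⟨μ, p', rfl, rfl, h1⟩ := emb_step p hs
    obtain ⟨q', h2, h3⟩ := (hR p q h).1 μ p' h1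
    exact ⟨_, step_emb h2, p', q', h3, rfl, rfl⟩
  · intro α x hs
    obtain ⟨μ, q', rfl, rfl, h1⟩ := emb_step q hs
    obtain ⟨p', h2, h3⟩ := (hR p q h).2 μ q' h1
    exact ⟨_, step_emb h2, p', q', h3, rfl, rfl⟩

lemma Bisimilar_of_emb {p q : CTerm N F} (h : IBis (emb p) (emb q)) : Bisimilar p q := by
  refine ⟨fun p q => IBis (emb p) (emb q), ?_, h⟩
  intro p q h
  constructor
  · intro μ p' hs
    obtain ⟨y, hy, hb⟩ := h.fwd (step_emb hs)
    obtain ⟨μ', q', e, rfl, h1⟩ := emb_step q hy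
    cases e
    exact ⟨q', h1, hb⟩
  · intro μ q' hs
    obtain ⟨y, hy, hb⟩ := h.bwd (step_emb hs)
    obtain ⟨μ', p', e, rfl, h1⟩ := emb_step p hy
    cases e
    exact ⟨p', h1, hb⟩

/-- Size of an internal term. -/
def ITerm.size : ITerm N F → ℕ
  | .nil => 1
  | .pre _ p => p.size + 1
  | .add p q => p.size + q.size + 1
  | .par p q => p.size + q.size + 1
  | .lm p q => p.size + q.size + 1
  | .cm p q => p.size + q.size + 1
  | .res _ p => p.size + 1
  | .rel _ p => p.size + 1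

end Pool.Agent.Lib.MP_1be8fd_lc
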